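import Pool.Agent.H90.BFL.Jet

/-!
# Jets along a line: error terms
-/

set_option autoImplicit false

namespace Pool.BFL

open Finset Polynomial
open Pool.Agent.H36.KBX (shift eval_shift totalDegree_shift bx eval_bound coeff_pderiv_bound)

lemma ln_sub {n : ℕ} (P Q : Pl n) (w z : Fin n → ℝ) : ln (P - Q) w z = ln P w z - ln Q w z := by
  unfold ln
  rw [map_sub]

lemma dD_sub {n : ℕ} (E : Fin n → ℝ) (P Q : Pl n) : dD E (P - Q) = dD E P - dD E Q := by
  unfold dD
  rw [← Finset.sum_sub_distrib]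
  refine Finset.sum_congr rfl fun i _ => ?_
  rw [map_sub, mul_sub]

lemma tayl_sub {n : ℕ} (j : ℕ) (P Q : Pl n) (a y : Fin n → ℝ) :
    MvPolynomial.eval y (tayl j (P - Q) a) =
      MvPolynomial.eval y (tayl j P a) - MvPolynomial.eval y (tayl j Q a) := by
  rw [tayl_eval, tayl_eval, tayl_eval, ← Finset.sum_sub_distrib]
  refine Finset.sum_congr rfl fun i _ => ?_
  rw [ln_sub, Polynomial.coeff_sub]

/-- The coefficients of the restriction to a line. -/
lemma coeff_ln_bound (n D : ℕ) (R : ℝ) (hR : 1 ≤ R) : ∃ C : ℝ, 0 ≤ C ∧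
    ∀ (P : Pl n) (c : ℝ) (w v : Fin n → ℝ), P.totalDegree ≤ D → CB P c → (∀ i, |w i| ≤ R) →
      (∀ i, |v i| ≤ R) → ∀ m, |(ln P w v).coeff m| ≤ C * c := by
  obtain ⟨C, hC0, hC⟩ := Pool.KAL.TAY.coef_bound D
  refine ⟨C * ((bx n D).card * (2 * R) ^ (n * D)), by positivity, ?_⟩
  intro P c w v hP hc hw hv m
  have hc0 : 0 ≤ c := le_trans (abs_nonneg _) (hc 0)
  have hdeg := ln_natDegree hP w v
  by_cases hm : m ≤ D
  · have h := hC (ln P w v) ((bx n D).card * (c * (2 * R) ^ (n * D))) hdeg (fun t h0 h1 => by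
      rw [ln_eval]
      refine eval_bound P hP c (2 * R) (by linarith) hc _ fun i => ?_
      have h2 : |v i * t| ≤ R := by
        rw [abs_mul, abs_of_nonneg h0]
        calc |v i| * t ≤ R * 1 := mul_le_mul (hv i) h1 h0 (by linarith)
          _ = R := mul_one R
      calc |w i + v i * t| ≤ |w i| + |v i * t| := abs_add_le _ _
        _ ≤ 2 * R := by linarith [hw i]) m hm
    refine h.trans (le_of_eq ?_)
    ring
  · rw [Polynomial.coeff_eq_zero_of_natDegree_lt (by omega), abs_zero]
    positivity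

/-- The coefficients of a directional derivative. -/
lemma CB_dD {n D : ℕ} {P : Pl n} {c e : ℝ} (hP : P.totalDegree ≤ D) (hc : CB P c)
    {E : Fin n → ℝ} (he : ∀ i, |E i| ≤ e) : CB (dD E P) (n * e * (D + 1) * c) := by
  intro α
  have hc0 : 0 ≤ c := le_trans (abs_nonneg _) (hc 0)
  unfold dD
  rw [MvPolynomial.coeff_sum]
  refine (Finset.abs_sum_le_sum_abs _ _).trans ?_
  have h1 : ∀ i ∈ (univ : Finset (Fin n)),
      |MvPolynomial.coeff α (MvPolynomial.C (E i) * MvPolynomial.pderiv i P)| ≤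
        e * (D + 1) * c := by
    intro i _
    rw [MvPolynomial.coeff_C_mul, abs_mul]
    have h2 := coeff_pderiv_bound P hP c hc i α
    have he0 : 0 ≤ e := le_trans (abs_nonneg _) (he i)
    calc |E i| * |MvPolynomial.coeff α (MvPolynomial.pderiv i P)| ≤ e * (c * (D + 1)) :=
          mul_le_mul (he i) h2 (abs_nonneg _) he0
      _ = _ := by ring
  refine (Finset.sum_le_card_nsmul _ _ _ h1).trans (le_of_eq ?_)
  rw [Finset.card_univ, Fintype.card_fin, nsmul_eq_mul]
  ring

lemma dD_deg {n D : ℕ} {P : Pl n} (hP : P.totalDegree ≤ D) (E : Fin n → ℝ) :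
    (dD E P).totalDegree ≤ D := by
  unfold dD
  refine MvPolynomial.totalDegree_finsetSum_le fun i _ => ?_
  refine (MvPolynomial.totalDegree_mul _ _).trans ?_
  rw [MvPolynomial.totalDegree_C, Nat.zero_add]
  exact (Pool.Agent.H50.PW.totalDegree_pderiv_le P i).trans hP

/-- The part of a polynomial of order `> j`. -/
noncomputable def hi {n : ℕ} (j : ℕ) (P : Pl n) : Pl n :=
  P - ∑ k ∈ range (j + 1), MvPolynomial.homogeneousComponent k P

lemma coeff_hi {n : ℕ} (j : ℕ) (P : Pl n) (α : Fin n →₀ ℕ) :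
    (hi j P).coeff α = if α.degree ≤ j then 0 else P.coeff α := by
  unfold hi
  rw [MvPolynomial.coeff_sub, MvPolynomial.coeff_sum]
  have h : ∀ k ∈ range (j + 1), (MvPolynomial.homogeneousComponent k P).coeff α =
      if α.degree = k then P.coeff α else 0 := by
    intro k _
    rw [MvPolynomial.coeff_homogeneousComponent]
  rw [Finset.sum_congr rfl h, Finset.sum_ite_eq (range (j + 1)) α.degree (fun _ => P.coeff α)]
  by_cases h1 : α.degree ≤ j
  · rw [if_pos (Finset.mem_range.2 (by omega)), if_pos h1, sub_self]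
  · rw [if_neg (fun h2 => h1 (by rw [Finset.mem_range] at h2; omega)), if_neg h1, sub_zero]

lemma hi_deg {n D : ℕ} (j : ℕ) {P : Pl n} (hP : P.totalDegree ≤ D) :
    (hi j P).totalDegree ≤ D := by
  rw [MvPolynomial.totalDegree]
  refine Finset.sup_le fun α hα => ?_
  rw [MvPolynomial.mem_support_iff, coeff_hi] at hα
  by_cases h1 : α.degree ≤ j
  · rw [if_pos h1] at hα
    exact absurd rfl hα
  · rw [if_neg h1] at hα
    exact (MvPolynomial.le_totalDegree (MvPolynomial.mem_support_iff.2 hα)).trans hP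

/-- The components of order at most `j` do not contribute to the coefficient `j` of the
derivative. -/
lemma coeff_dD_hi {n : ℕ} (j : ℕ) (P : Pl n) (E w v : Fin n → ℝ) :
    (ln (dD E P) w v).coeff j = (ln (dD E (hi j P)) w v).coeff j := by
  have h0 : P = hi j P + ∑ k ∈ range (j + 1), MvPolynomial.homogeneousComponent k P := by
    unfold hi
    ring
  conv_lhs => rw [h0]
  rw [dD_add, ln_add, Polynomial.coeff_add, dD_sum, ln_sum, Polynomial.finsetSum_coeff]
  have h : ∑ k ∈ range (j + 1),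
      (ln (dD E (MvPolynomial.homogeneousComponent k P)) w v).coeff j = 0 := by
    refine Finset.sum_eq_zero fun k hk => ?_
    rw [Finset.mem_range] at hk
    rcases Nat.eq_zero_or_pos k with h1 | h1
    · subst h1
      rw [MvPolynomial.homogeneousComponent_zero, dD_C, ln_zero, Polynomial.coeff_zero]
    · refine Polynomial.coeff_eq_zero_of_natDegree_lt ?_
      have h2 := (dD_homog (MvPolynomial.homogeneousComponent_isHomogeneous k P) E).totalDegree_le
      exact (ln_natDegree h2 w v).trans_lt (by omega)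
  rw [h, add_zero]

/-- The coefficient `j` of the derivative, if the components of order `> j` are small. -/
lemma coeff_dD_small (n D : ℕ) (R : ℝ) (hR : 1 ≤ R) : ∃ C : ℝ, 0 ≤ C ∧
    ∀ (j : ℕ) (P : Pl n) (c e : ℝ) (E w v : Fin n → ℝ), P.totalDegree ≤ D → 0 ≤ c →
      (∀ α, j < α.degree → |P.coeff α| ≤ c) → (∀ i, |E i| ≤ e) → (∀ i, |w i| ≤ R) →
      (∀ i, |v i| ≤ R) → |(ln (dD E P) w v).coeff j| ≤ C * e * c := by
  obtain ⟨C, hC0, hC⟩ := coeff_ln_bound n D R hR
  refine ⟨C * (n * (D + 1)), by positivity, ?_⟩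
  intro j P c e E w v hP hc0 hc he hw hv
  rw [coeff_dD_hi]
  have h1 : CB (hi j P) c := by
    intro α
    rw [coeff_hi]
    split_ifs with h
    · rw [abs_zero]
      exact hc0
    · exact hc α (by omega)
  have h2 := hC (dD E (hi j P)) _ w v (dD_deg (hi_deg j hP) E) (CB_dD (hi_deg j hP) h1 he) hw hv j
  refine h2.trans (le_of_eq ?_)
  ring

/-- The coefficient `j` of the derivative is the derivative of the component of order `j + 1`, if
the components of order `> j + 1` are small. -/
lemma coeff_dD_near (n D : ℕ) (R : ℝ) (hR : 1 ≤ R) : ∃ C : ℝ, 0 ≤ C ∧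
    ∀ (j : ℕ) (P : Pl n) (c e : ℝ) (E w v : Fin n → ℝ), P.totalDegree ≤ D → 0 ≤ c →
      (∀ α, j + 1 < α.degree → |P.coeff α| ≤ c) → (∀ i, |E i| ≤ e) → (∀ i, |w i| ≤ R) →
      (∀ i, |v i| ≤ R) →
      |(ln (dD E P) w v).coeff j -
        MvPolynomial.eval v (dD E (MvPolynomial.homogeneousComponent (j + 1) P))| ≤
        C * e * c := by
  obtain ⟨C, hC0, hC⟩ := coeff_dD_small n D R hR
  refine ⟨C, hC0, ?_⟩
  intro j P c e E w v hP hc0 hc he hw hv
  have h1 := hC j (P - MvPolynomial.homogeneousComponent (j + 1) P) c e E w v (by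
    rw [MvPolynomial.totalDegree]
    refine Finset.sup_le fun α hα => ?_
    rw [MvPolynomial.mem_support_iff, MvPolynomial.coeff_sub,
      MvPolynomial.coeff_homogeneousComponent] at hα
    by_cases h1 : α.degree = j + 1
    · rw [if_pos h1, sub_self] at hα
      exact absurd rfl hα
    · rw [if_neg h1, sub_zero] at hα
      exact (MvPolynomial.le_totalDegree (MvPolynomial.mem_support_iff.2 hα)).trans hP) hc0 (by
    intro α hα
    rw [MvPolynomial.coeff_sub, MvPolynomial.coeff_homogeneousComponent]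
    by_cases h1 : α.degree = j + 1
    · rw [if_pos h1, sub_self, abs_zero]
      exact hc0
    · rw [if_neg h1, sub_zero]
      exact hc α (by omega)) he hw hv
  have h2 : (ln (dD E (MvPolynomial.homogeneousComponent (j + 1) P)) w v).coeff j =
      MvPolynomial.eval v (dD E (MvPolynomial.homogeneousComponent (j + 1) P)) :=
    coeff_ln_homog j
      (dD_homog (MvPolynomial.homogeneousComponent_isHomogeneous (j + 1) P) E) w v
  rw [dD_sub, ln_sub, Polynomial.coeff_sub, h2] at h1
  exact h1

lemma cont_coeff {n : ℕ} (P : Pl n) (a z E : Fin n → ℝ) (j : ℕ) : Continuous fun t : ℝ =>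
    (ln P (fun l => a l + t * E l) (fun l => z l - t * E l)).coeff j := by
  rw [continuous_iff_continuousAt]
  intro t
  exact (hasDeriv_coeff P a z E t j).continuousAt

lemma cont_eval {n : ℕ} (P : Pl n) (z E : Fin n → ℝ) : Continuous fun t : ℝ =>
    MvPolynomial.eval (fun l => z l - t * E l) P := by
  have h : Continuous fun y : Fin n → ℝ => MvPolynomial.eval y P := P.continuous_eval
  exact h.comp (continuous_pi fun i => by fun_prop)

/-- **Transport along a leg** (field `transport` of `Core`). If the components of order `> j` of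
`P` are at most `ε` then the Taylor polynomial of degree `< j` changes along the line by `lg` of
the derivative of the component of order `j`. -/
theorem leg_thm (n D j : ℕ) (C₀ : ℝ) (hC₀ : 1 ≤ C₀) (hj : 1 ≤ j) : ∃ C : ℝ, 1 ≤ C ∧
    ∀ (P : Pl n) (a E y : Fin n → ℝ) (s ε : ℝ), P.totalDegree ≤ D → 0 ≤ ε →
      (∀ α, j < α.degree → |P.coeff α| ≤ ε) → (∀ i, |a i| ≤ C₀) → (∀ i, |E i| ≤ C₀) →
      (∀ i, |y i| ≤ C₀) → |s| ≤ 1 →
      |MvPolynomial.eval y (tayl j P (fun l => a l + s * E l)) -
        MvPolynomial.eval y (tayl j P a) -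
        lg (dD E (MvPolynomial.homogeneousComponent j P)) a E s y| ≤ C * ε := by
  obtain ⟨j, rfl⟩ : ∃ k, j = k + 1 := ⟨j - 1, by omega⟩
  obtain ⟨C, hC0, hC⟩ := coeff_dD_near n D (3 * C₀) (by linarith)
  refine ⟨C * C₀ + 1, by nlinarith [mul_nonneg hC0 (by linarith : (0 : ℝ) ≤ C₀)], ?_⟩
  intro P a E y s ε hP hε hc ha hE hy hs
  rw [tayl_leg]
  unfold lg
  have hi1 : IntervalIntegrable (fun t : ℝ => (ln (dD E P) (fun l => a l + t * E l)
      (fun l => y l - a l - t * E l)).coeff j) MeasureTheory.volume 0 s :=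
    (cont_coeff (dD E P) a (fun l => y l - a l) E j).intervalIntegrable _ _
  have hi2 : IntervalIntegrable (fun t : ℝ => MvPolynomial.eval (fun l => y l - a l - t * E l)
      (dD E (MvPolynomial.homogeneousComponent (j + 1) P))) MeasureTheory.volume 0 s :=
    (cont_eval (dD E (MvPolynomial.homogeneousComponent (j + 1) P)) (fun l => y l - a l)
      E).intervalIntegrable _ _
  rw [← intervalIntegral.integral_sub hi1 hi2]
  have hb : ∀ t ∈ Set.uIoc (0 : ℝ) s, ‖(ln (dD E P) (fun l => a l + t * E l)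
      (fun l => y l - a l - t * E l)).coeff j -
      MvPolynomial.eval (fun l => y l - a l - t * E l)
        (dD E (MvPolynomial.homogeneousComponent (j + 1) P))‖ ≤ C * C₀ * ε := by
    intro t ht
    have ht1 : |t| ≤ 1 := by
      rw [Set.mem_uIoc] at ht
      rw [abs_le] at hs ⊢
      rcases ht with ht | ht
      · constructor <;> linarith [ht.1, ht.2, hs.1, hs.2]
      · constructor <;> linarith [ht.1, ht.2, hs.1, hs.2]
    have htE : ∀ i, |t * E i| ≤ C₀ := by
      intro i
      rw [abs_mul]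
      calc |t| * |E i| ≤ 1 * C₀ := mul_le_mul ht1 (hE i) (abs_nonneg _) zero_le_one
        _ = C₀ := one_mul _
    rw [Real.norm_eq_abs]
    refine hC j P ε C₀ E _ _ hP hε hc hE (fun i => ?_) (fun i => ?_)
    · calc |a i + t * E i| ≤ |a i| + |t * E i| := abs_add_le _ _
        _ ≤ 3 * C₀ := by linarith [ha i, htE i]
    · calc |y i - a i - t * E i| ≤ |y i - a i| + |t * E i| := abs_sub _ _
        _ ≤ |y i| + |a i| + |t * E i| := by linarith [abs_sub (y i) (a i)]
        _ ≤ 3 * C₀ := by linarith [ha i, hy i, htE i]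
  have h := intervalIntegral.norm_integral_le_of_norm_le_const hb
  rw [Real.norm_eq_abs, sub_zero] at h
  refine h.trans ?_
  calc C * C₀ * ε * |s| ≤ C * C₀ * ε * 1 := mul_le_mul_of_nonneg_left hs (by positivity)
    _ ≤ (C * C₀ + 1) * ε := by nlinarith

end Pool.BFL
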