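import Mathlib

/-!
# A good scale for a Lipschitz function and a set of positive density

One of finitely many scales `ℓ 0 > ℓ 1 > … > ℓ M` has a block on which the Lipschitz function `f` is
almost affine and the set `Z` has positive density in all subintervals which are not too short.
-/

set_option autoImplicit false

namespace Pool.BFL

open Finset

namespace SCL

/-- The mean slope of `Φ` on the block `I` of length `ℓ`. -/
noncomputable def av (Φ : ℕ → ℝ) (ℓ I : ℕ) : ℝ := (Φ ((I + 1) * ℓ) - Φ (I * ℓ)) / ℓ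

lemma av_sum (Φ : ℕ → ℝ) {ℓ r : ℕ} (hℓ : 0 < ℓ) (hr : 0 < r) (I : ℕ) :
    ∑ i ∈ range r, av Φ ℓ (I * r + i) = r * av Φ (r * ℓ) I := by
  have h1 : ∑ i ∈ range r, av Φ ℓ (I * r + i) =
      ∑ i ∈ range r, (Φ ((I * r + (i + 1)) * ℓ) / ℓ - Φ ((I * r + i) * ℓ) / ℓ) := by
    refine Finset.sum_congr rfl fun i _ => ?_
    unfold av
    rw [sub_div]
    rfl
  rw [h1, Finset.sum_range_sub (fun i => Φ ((I * r + i) * ℓ) / ℓ)]
  unfold av
  have e1 : (I * r + r) * ℓ = (I + 1) * (r * ℓ) := by ring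
  have e2 : (I * r + 0) * ℓ = I * (r * ℓ) := by ring
  rw [e1, e2]
  have hr' : (r : ℝ) ≠ 0 := by exact_mod_cast hr.ne'
  have hℓ' : (ℓ : ℝ) ≠ 0 := by exact_mod_cast hℓ.ne'
  push_cast
  field_simp

lemma av_le {Φ : ℕ → ℝ} {K : ℝ} {T ℓ I : ℕ} (hℓ : 0 < ℓ)
    (hΦ : ∀ a b : ℕ, a ≤ b → b ≤ T → |Φ b - Φ a| ≤ K * ((b : ℝ) - a))
    (hI : (I + 1) * ℓ ≤ T) : |av Φ ℓ I| ≤ K := by
  unfold av
  have hℓ' : (0 : ℝ) < ℓ := by exact_mod_cast hℓ
  have h := hΦ (I * ℓ) ((I + 1) * ℓ) (Nat.mul_le_mul_right _ (Nat.le_succ I)) hI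
  rw [abs_div, abs_of_pos hℓ', div_le_iff₀ hℓ']
  refine h.trans (le_of_eq ?_)
  push_cast
  ring

/-- The variation of the slopes in a block. -/
noncomputable def vr (Φ : ℕ → ℝ) (ℓ r I : ℕ) : ℝ :=
  ∑ i ∈ range r, (av Φ ℓ (I * r + i) - av Φ (r * ℓ) I) ^ 2

lemma vr_eq (Φ : ℕ → ℝ) {ℓ r : ℕ} (hℓ : 0 < ℓ) (hr : 0 < r) (I : ℕ) :
    vr Φ ℓ r I = ∑ i ∈ range r, av Φ ℓ (I * r + i) ^ 2 - r * av Φ (r * ℓ) I ^ 2 := by
  unfold vr
  have h1 : ∀ i ∈ range r, (av Φ ℓ (I * r + i) - av Φ (r * ℓ) I) ^ 2 =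
      av Φ ℓ (I * r + i) ^ 2 - 2 * av Φ (r * ℓ) I * av Φ ℓ (I * r + i) + av Φ (r * ℓ) I ^ 2 := by
    intro i _
    ring
  rw [Finset.sum_congr rfl h1, Finset.sum_add_distrib, Finset.sum_sub_distrib, ← Finset.mul_sum,
    av_sum Φ hℓ hr, Finset.sum_const, Finset.card_range, nsmul_eq_mul]
  ring

/-- The energy. -/
noncomputable def en (Φ : ℕ → ℝ) (ℓ N : ℕ) : ℝ := (∑ I ∈ range N, av Φ ℓ I ^ 2) / N

lemma sum_blocks (g : ℕ → ℝ) (N r : ℕ) :
    ∑ J ∈ range (N * r), g J = ∑ I ∈ range N, ∑ i ∈ range r, g (I * r + i) := by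
  induction N with
  | zero => simp
  | succ N ih => rw [Nat.succ_mul, Finset.sum_range_add, ih, Finset.sum_range_succ]

lemma en_step (Φ : ℕ → ℝ) {ℓ r N : ℕ} (hℓ : 0 < ℓ) (hr : 0 < r) (hN : 0 < N) :
    en Φ ℓ (N * r) - en Φ (r * ℓ) N = (∑ I ∈ range N, vr Φ ℓ r I) / (N * r) := by
  have hr' : (r : ℝ) ≠ 0 := by exact_mod_cast hr.ne'
  have hN' : (N : ℝ) ≠ 0 := by exact_mod_cast hN.ne'
  have h1 : ∑ I ∈ range N, vr Φ ℓ r I =
      ∑ J ∈ range (N * r), av Φ ℓ J ^ 2 - r * ∑ I ∈ range N, av Φ (r * ℓ) I ^ 2 := by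
    rw [Finset.sum_congr rfl fun I _ => vr_eq Φ hℓ hr I, Finset.sum_sub_distrib, sum_blocks,
      Finset.mul_sum]
  rw [h1]
  unfold en
  push_cast
  field_simp

lemma vr_nonneg (Φ : ℕ → ℝ) (ℓ r I : ℕ) : 0 ≤ vr Φ ℓ r I :=
  Finset.sum_nonneg fun _ _ => sq_nonneg _

lemma en_nonneg (Φ : ℕ → ℝ) (ℓ N : ℕ) : 0 ≤ en Φ ℓ N :=
  div_nonneg (Finset.sum_nonneg fun _ _ => sq_nonneg _) (Nat.cast_nonneg _)

lemma en_le {Φ : ℕ → ℝ} {K : ℝ} {ℓ N : ℕ} (hℓ : 0 < ℓ) (hN : 0 < N)
    (hΦ : ∀ a b : ℕ, a ≤ b → b ≤ N * ℓ → |Φ b - Φ a| ≤ K * ((b : ℝ) - a)) :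
    en Φ ℓ N ≤ K ^ 2 := by
  unfold en
  have hN' : (0 : ℝ) < N := by exact_mod_cast hN
  rw [div_le_iff₀ hN']
  have h1 : ∀ I ∈ range N, av Φ ℓ I ^ 2 ≤ K ^ 2 := by
    intro I hI
    rw [Finset.mem_range] at hI
    have h2 := av_le hℓ hΦ (Nat.mul_le_mul_right ℓ hI)
    rw [← sq_abs]
    exact pow_le_pow_left₀ (abs_nonneg _) h2 2
  refine (Finset.sum_le_card_nsmul _ _ _ h1).trans (le_of_eq ?_)
  rw [Finset.card_range, nsmul_eq_mul]
  ring

lemma pigeon {e : ℕ → ℝ} {B : ℝ} {M : ℕ} (hM : 0 < M) (h0 : 0 ≤ e 0) (hB : e M ≤ B) :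
    ∃ k < M, e (k + 1) - e k ≤ B / M := by
  by_contra hcon
  push Not at hcon
  have hM' : (0 : ℝ) < M := by exact_mod_cast hM
  have h1 : ∑ k ∈ range M, (e (k + 1) - e k) = e M - e 0 := Finset.sum_range_sub e M
  have h2 : ∑ k ∈ range M, B / (M : ℝ) < ∑ k ∈ range M, (e (k + 1) - e k) := by
    refine Finset.sum_lt_sum_of_nonempty ⟨0, Finset.mem_range.2 hM⟩ fun k hk => ?_
    exact hcon k (Finset.mem_range.1 hk)
  rw [h1, Finset.sum_const, Finset.card_range, nsmul_eq_mul] at h2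
  have h3 : (M : ℝ) * (B / M) = B := by field_simp
  linarith only [h0, hB, h2, h3]

/-- The deviation from the affine function at the ends of the small blocks. -/
lemma dev (Φ : ℕ → ℝ) {ℓ r : ℕ} (I : ℕ) {θ : ℝ} (hθ : 0 ≤ θ)
    (hv : vr Φ ℓ r I ≤ θ ^ 2 * r) (A : Finset ℕ) (hA : A ⊆ range r) :
    ∑ i ∈ A, |av Φ ℓ (I * r + i) - av Φ (r * ℓ) I| ≤ θ * r := by
  have h1 : ∑ i ∈ A, |av Φ ℓ (I * r + i) - av Φ (r * ℓ) I| ≤
      ∑ i ∈ range r, |av Φ ℓ (I * r + i) - av Φ (r * ℓ) I| :=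
    Finset.sum_le_sum_of_subset_of_nonneg hA fun _ _ _ => abs_nonneg _
  refine h1.trans ?_
  have h3 : (∑ i ∈ range r, |av Φ ℓ (I * r + i) - av Φ (r * ℓ) I|) ^ 2 ≤
      r * ∑ i ∈ range r, |av Φ ℓ (I * r + i) - av Φ (r * ℓ) I| ^ 2 := by
    have h4 := sq_sum_le_card_mul_sum_sq (s := range r)
      (f := fun i => |av Φ ℓ (I * r + i) - av Φ (r * ℓ) I|)
    rwa [Finset.card_range] at h4
  have h5 : ∑ i ∈ range r, |av Φ ℓ (I * r + i) - av Φ (r * ℓ) I| ^ 2 = vr Φ ℓ r I := by
    unfold vr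
    exact Finset.sum_congr rfl fun i _ => sq_abs _
  rw [h5] at h3
  have h6 : (r : ℝ) * vr Φ ℓ r I ≤ (θ * r) ^ 2 := by
    calc (r : ℝ) * vr Φ ℓ r I ≤ r * (θ ^ 2 * r) :=
          mul_le_mul_of_nonneg_left hv (Nat.cast_nonneg _)
      _ = (θ * r) ^ 2 := by ring
  exact abs_le_of_sq_le_sq' (h3.trans h6) (by positivity) |>.2

/-- The counting function. -/
noncomputable def ct (Z : ℕ → Prop) [DecidablePred Z] (a : ℕ) : ℝ := ((range a).filter Z).card

lemma ct_sub (Z : ℕ → Prop) [DecidablePred Z] {a b : ℕ} (h : a ≤ b) :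
    ct Z b - ct Z a = ((Ico a b).filter Z).card := by
  unfold ct
  have h1 : (range b).filter Z = (range a).filter Z ∪ (Ico a b).filter Z := by
    ext x
    simp only [Finset.mem_union, Finset.mem_filter, Finset.mem_range, Finset.mem_Ico]
    constructor
    · rintro ⟨h1, h2⟩
      by_cases h3 : x < a
      · exact Or.inl ⟨h3, h2⟩
      · exact Or.inr ⟨⟨not_lt.1 h3, h1⟩, h2⟩
    · rintro (⟨h1, h2⟩ | ⟨⟨_, h1⟩, h2⟩)
      · exact ⟨by omega, h2⟩
      · exact ⟨h1, h2⟩
  have h2 : Disjoint ((range a).filter Z) ((Ico a b).filter Z) := by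
    rw [Finset.disjoint_left]
    intro x h3 h4
    rw [Finset.mem_filter, Finset.mem_range] at h3
    rw [Finset.mem_filter, Finset.mem_Ico] at h4
    omega
  rw [h1, Finset.card_union_of_disjoint h2]
  push_cast
  ring

lemma ct_lip (Z : ℕ → Prop) [DecidablePred Z] {a b : ℕ} (h : a ≤ b) :
    |ct Z b - ct Z a| ≤ 1 * ((b : ℝ) - a) := by
  rw [ct_sub Z h, abs_of_nonneg (Nat.cast_nonneg _), one_mul]
  have h1 : ((Ico a b).filter Z).card ≤ b - a := by
    refine (Finset.card_filter_le _ _).trans (le_of_eq ?_)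
    exact Nat.card_Ico a b
  have h2 : ((b - a : ℕ) : ℝ) = (b : ℝ) - a := by
    rw [Nat.cast_sub h]
  rw [← h2]
  exact_mod_cast h1

/-- The increments over consecutive small blocks. -/
lemma tele (Φ : ℕ → ℝ) {ℓ r : ℕ} (hℓ : 0 < ℓ) (I i₀ i₁ : ℕ) (h : i₀ ≤ i₁) :
    Φ ((I * r + i₁) * ℓ) - Φ ((I * r + i₀) * ℓ) =
      ℓ * ∑ i ∈ Ico i₀ i₁, av Φ ℓ (I * r + i) := by
  have hℓ' : (ℓ : ℝ) ≠ 0 := by exact_mod_cast hℓ.ne'
  induction i₁, h using Nat.le_induction with
  | base => simp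
  | succ i₁ h ih =>
    rw [Finset.sum_Ico_succ_top h, mul_add, ← ih]
    unfold av
    have e : (I * r + (i₁ + 1)) * ℓ = (I * r + i₁ + 1) * ℓ := by ring
    rw [e]
    field_simp
    ring

end SCL

open SCL in
/-- **Row SCL.** Among finitely many scales there is one, and a block, on which `f` is almost affine
and `Z` has positive density in all subintervals. -/
theorem scl (K δ τ : ℝ) (hK : 0 ≤ K) (hδ : 0 < δ) (hτ : 0 < τ) :
    ∃ q M : ℕ, 0 < q ∧ 0 < M ∧ ∀ (ℓ : ℕ → ℕ) (n : ℕ), 0 < n → (∀ k ≤ M, 0 < ℓ k) →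
      (∀ k < M, ℓ (k + 1) ∣ ℓ k) → (∀ k < M, q * ℓ (k + 1) ≤ ℓ k) →
      ∀ (f : ℕ → ℝ) (Z : ℕ → Prop) [DecidablePred Z],
        (∀ a b : ℕ, a ≤ b → b ≤ n * ℓ 0 → |f b - f a| ≤ K * ((b : ℝ) - a)) →
        δ * ((n * ℓ 0 : ℕ) : ℝ) ≤ ((range (n * ℓ 0)).filter Z).card →
        ∃ k < M, ∃ I : ℕ, (I + 1) * ℓ k ≤ n * ℓ 0 ∧ ∃ s : ℝ, |s| ≤ K ∧
          (∀ v ≤ ℓ k, |f (I * ℓ k + v) - f (I * ℓ k) - s * v| ≤ τ * ℓ k) ∧
          ∀ u v : ℕ, u + v ≤ ℓ k → τ * ℓ k ≤ v →
            δ / 4 * v ≤ ((Ico (I * ℓ k + u) (I * ℓ k + u + v)).filter Z).card := by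
  set θ : ℝ := min (τ / 2) (τ * δ / 8) with hθ
  have hθ0 : 0 < θ := lt_min (by positivity) (by positivity)
  obtain ⟨q, hq⟩ := exists_nat_ge (4 * K / τ + 8 / τ + 1)
  obtain ⟨M, hM⟩ := exists_nat_ge (2 * (K ^ 2 + 1) / (θ ^ 2 * δ) + 1)
  have hM1 : (1 : ℝ) ≤ M := le_trans (by
    have : 0 ≤ 2 * (K ^ 2 + 1) / (θ ^ 2 * δ) := by positivity
    linarith only [this]) hM
  have hM0 : 0 < M := by exact_mod_cast lt_of_lt_of_le one_pos hM1
  have hq1 : (1 : ℝ) ≤ q := le_trans (by
    have : 0 ≤ 4 * K / τ + 8 / τ := by positivity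
    linarith only [this]) hq
  have hq0 : 0 < q := by exact_mod_cast lt_of_lt_of_le one_pos hq1
  refine ⟨q, M, hq0, hM0, ?_⟩
  intro ℓ n hn hℓ hdvd hql f Z _ hf hZ
  -- the numbers of blocks
  set T := n * ℓ 0 with hT
  have hT0 : 0 < T := Nat.mul_pos hn (hℓ 0 (Nat.zero_le _))
  have hTdvd : ∀ k ≤ M, ℓ k ∣ T := by
    intro k
    induction k with
    | zero => intro _; exact Dvd.intro_left n rfl
    | succ k ih => intro hk; exact (hdvd k (by omega)).trans (ih (by omega))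
  set N : ℕ → ℕ := fun k => T / ℓ k with hN
  have hNl : ∀ k ≤ M, N k * ℓ k = T := fun k hk => Nat.div_mul_cancel (hTdvd k hk)
  have hN0 : ∀ k ≤ M, 0 < N k := by
    intro k hk
    refine Nat.pos_of_ne_zero fun h => ?_
    have := hNl k hk
    rw [h, Nat.zero_mul] at this
    omega
  exact by
   have hz : ∀ a b : ℕ, a ≤ b → b ≤ T → |ct Z b - ct Z a| ≤ 1 * ((b : ℝ) - a) :=
     fun a b h _ => ct_lip Z h
   -- the pigeonhole
   obtain ⟨k, hkM, hk⟩ := pigeon (e := fun k => en f (ℓ k) (N k) + en (ct Z) (ℓ k) (N k))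
     (B := K ^ 2 + 1) hM0 (add_nonneg (en_nonneg _ _ _) (en_nonneg _ _ _)) (by
       have h1 := en_le (Φ := f) (K := K) (ℓ := ℓ M) (N := N M) (hℓ M le_rfl) (hN0 M le_rfl)
         (by rw [hNl M le_rfl]; exact hf)
       have h2 := en_le (Φ := ct Z) (K := 1) (ℓ := ℓ M) (N := N M) (hℓ M le_rfl) (hN0 M le_rfl)
         (by rw [hNl M le_rfl]; exact hz)
       linarith only [h1, h2])
   obtain ⟨r, hr⟩ := hdvd k hkM
   have hℓk := hℓ k hkM.le
   have hℓk1 := hℓ (k + 1) hkM
   have hr0 : 0 < r := by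
     refine Nat.pos_of_ne_zero fun h => ?_
     rw [h, Nat.mul_zero] at hr
     omega
   have hlr : ℓ k = r * ℓ (k + 1) := by rw [hr, Nat.mul_comm]
   have hNr : N (k + 1) = N k * r := by
     have h1 := hNl (k + 1) hkM
     have h2 := hNl k hkM.le
     rw [hlr, ← Nat.mul_assoc] at h2
     exact Nat.eq_of_mul_eq_mul_right hℓk1 (h1.trans h2.symm)
   have hNk := hN0 k hkM.le
   have hNkR : (0 : ℝ) < N k := by exact_mod_cast hNk
   have hrR : (0 : ℝ) < r := by exact_mod_cast hr0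
   have hMR : (0 : ℝ) < M := by exact_mod_cast hM0
   have hsum : (∑ I ∈ range (N k), (vr f (ℓ (k + 1)) r I + vr (ct Z) (ℓ (k + 1)) r I)) ≤
       θ ^ 2 * δ / 2 * (N k * r) := by
     have h1 := en_step f (ℓ := ℓ (k + 1)) (r := r) (N := N k) hℓk1 hr0 hNk
     have h2 := en_step (ct Z) (ℓ := ℓ (k + 1)) (r := r) (N := N k) hℓk1 hr0 hNk
     rw [hNr] at hk
     rw [← hlr] at h1 h2
     rw [Finset.sum_add_distrib]
     have h3 : (∑ I ∈ range (N k), vr f (ℓ (k + 1)) r I) / ((N k : ℝ) * r) +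
         (∑ I ∈ range (N k), vr (ct Z) (ℓ (k + 1)) r I) / ((N k : ℝ) * r) ≤
         (K ^ 2 + 1) / M := by
       rw [← h1, ← h2]
       linarith only [hk]
     have h4 : (K ^ 2 + 1) / (M : ℝ) ≤ θ ^ 2 * δ / 2 := by
       rw [div_le_iff₀ hMR]
       have h5 : 2 * (K ^ 2 + 1) / (θ ^ 2 * δ) ≤ M := by linarith only [hM]
       rw [div_le_iff₀ (by positivity)] at h5
       linarith only [h5]
     rw [← add_div, div_le_iff₀ (by positivity)] at h3
     refine h3.trans ?_
     exact mul_le_mul_of_nonneg_right h4 (by positivity)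
   -- the blocks of positive density
   exact by
    set S := (range (N k)).filter fun I => δ / 2 ≤ av (ct Z) (ℓ k) I with hS
    have hav1 : ∀ I ∈ range (N k), av (ct Z) (ℓ k) I ≤ 1 := by
      intro I hI
      rw [Finset.mem_range] at hI
      refine (le_abs_self _).trans (av_le hℓk (T := T) hz ?_)
      rw [← hNl k hkM.le]
      exact Nat.mul_le_mul_right _ hI
    have hScard : δ / 2 * N k ≤ S.card := by
      have h1 : ∑ I ∈ range (N k), av (ct Z) (ℓ k) I = ct Z T / ℓ k := by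
        have h2 := tele (ct Z) (r := 0) hℓk 0 0 (N k) (Nat.zero_le _)
        have h3 : (0 * 0 + N k) * ℓ k = T := by rw [Nat.zero_mul, Nat.zero_add]; exact hNl k hkM.le
        have h4 : (0 * 0 + 0) * ℓ k = 0 := by simp
        rw [h3, h4] at h2
        have h5 : ct Z 0 = 0 := by unfold ct; simp
        rw [h5, sub_zero, ← Finset.range_eq_Ico] at h2
        have h6 : (ℓ k : ℝ) ≠ 0 := by exact_mod_cast hℓk.ne'
        rw [h2]
        simp only [Nat.zero_mul, Nat.zero_add]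
        field_simp
      have h2 : δ * N k ≤ ct Z T / ℓ k := by
        have h6 : (0 : ℝ) < ℓ k := by exact_mod_cast hℓk
        rw [le_div_iff₀ h6]
        have h7 : (T : ℝ) = N k * ℓ k := by
          rw [← hNl k hkM.le]
          push_cast
          ring
        have h8 : δ * (T : ℝ) ≤ ct Z T := hZ
        rw [h7] at h8
        linarith only [h8]
      rw [← h1] at h2
      have h3 : ∑ I ∈ range (N k), av (ct Z) (ℓ k) I ≤
          ∑ I ∈ range (N k), ((if δ / 2 ≤ av (ct Z) (ℓ k) I then (1 : ℝ) else 0) + δ / 2) := by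
        refine Finset.sum_le_sum fun I hI => ?_
        split_ifs with h
        · have := hav1 I hI
          linarith only [hδ, this]
        · push Not at h
          linarith only [h]
      rw [Finset.sum_add_distrib, Finset.sum_const, Finset.card_range, nsmul_eq_mul,
        ← Finset.sum_filter, Finset.sum_const, nsmul_eq_mul, mul_one] at h3
      have h4 : ((range (N k)).filter fun I => δ / 2 ≤ av (ct Z) (ℓ k) I).card = S.card := rfl
      rw [h4] at h3
      linarith only [h2, h3]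
    exact by
     obtain ⟨I, hIS, hIv⟩ : ∃ I ∈ S, vr f (ℓ (k + 1)) r I + vr (ct Z) (ℓ (k + 1)) r I ≤
         θ ^ 2 * r := by
       by_contra hcon
       push Not at hcon
       have hSne : S.Nonempty := by
         rw [Finset.nonempty_iff_ne_empty]
         intro h
         rw [h, Finset.card_empty, Nat.cast_zero] at hScard
         have : 0 < δ / 2 * N k := by positivity
         linarith only [hScard, this]
       have h1 : ∑ I ∈ S, θ ^ 2 * (r : ℝ) <
           ∑ I ∈ S, (vr f (ℓ (k + 1)) r I + vr (ct Z) (ℓ (k + 1)) r I) :=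
         Finset.sum_lt_sum_of_nonempty hSne fun I hI => hcon I hI
       have h2 : ∑ I ∈ S, (vr f (ℓ (k + 1)) r I + vr (ct Z) (ℓ (k + 1)) r I) ≤
           ∑ I ∈ range (N k), (vr f (ℓ (k + 1)) r I + vr (ct Z) (ℓ (k + 1)) r I) :=
         Finset.sum_le_sum_of_subset_of_nonneg (Finset.filter_subset _ _) fun I _ _ =>
           add_nonneg (vr_nonneg _ _ _ _) (vr_nonneg _ _ _ _)
       rw [Finset.sum_const, nsmul_eq_mul] at h1
       have h3 : θ ^ 2 * δ / 2 * (N k * r) = δ / 2 * N k * (θ ^ 2 * r) := by ring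
       have h4 : δ / 2 * N k * (θ ^ 2 * r) ≤ S.card * (θ ^ 2 * r) :=
         mul_le_mul_of_nonneg_right hScard (by positivity)
       linarith only [hsum, h1, h2, h4]
     have hIN : I < N k := Finset.mem_range.1 (Finset.mem_filter.1 hIS).1
     have hId : δ / 2 ≤ av (ct Z) (ℓ k) I := (Finset.mem_filter.1 hIS).2
     have hIT : (I + 1) * ℓ k ≤ T := by
       rw [← hNl k hkM.le]
       exact Nat.mul_le_mul_right _ hIN
     have hvf : vr f (ℓ (k + 1)) r I ≤ θ ^ 2 * r := by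
       have := vr_nonneg (ct Z) (ℓ (k + 1)) r I
       linarith only [hIv, this]
     exact by
      have hvz : vr (ct Z) (ℓ (k + 1)) r I ≤ θ ^ 2 * r := by
        have := vr_nonneg f (ℓ (k + 1)) r I
        linarith only [hIv, this]
      set s : ℝ := av f (ℓ k) I with hs
      have hsK : |s| ≤ K := av_le hℓk hf hIT
      set L := ℓ (k + 1) with hL
      have hLR : (0 : ℝ) < L := by exact_mod_cast hℓk1
      have hlR : (ℓ k : ℝ) = r * L := by rw [hlr]; push_cast; ring
      have hqL : (q : ℝ) * L ≤ ℓ k := by exact_mod_cast hql k hkM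
      have hIr : I * ℓ k = I * r * L := by rw [hlr]; ring
      refine ⟨k, hkM, I, hIT, s, hsK, ?_, ?_⟩
      · -- almost affine
        intro v hv
        set j := v / L with hj
        have hjv : j * L ≤ v := Nat.div_mul_le_self v L
        have hjv' : v < (j + 1) * L := by
          have := Nat.lt_succ_iff.2 (le_refl (v / L))
          rw [hj]
          exact (Nat.div_lt_iff_lt_mul hℓk1).1 (Nat.lt_succ_self _)
        have hjr : j ≤ r := by
          rw [hj]
          rw [hlr] at hv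
          exact Nat.div_le_of_le_mul (by rw [Nat.mul_comm]; exact hv)
        have h1 := tele f hℓk1 (r := r) I 0 j (Nat.zero_le _)
        have h2 := dev f I hθ0.le hvf (Ico 0 j) (by
          intro i hi
          rw [Finset.mem_Ico] at hi
          exact Finset.mem_range.2 (by omega))
        have e1 : (I * r + j) * L = I * ℓ k + j * L := by rw [hIr]; ring
        have e2 : (I * r + 0) * L = I * ℓ k := by rw [hIr]; ring
        rw [e1, e2] at h1
        rw [← hlr] at h2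
        have h3 : |f (I * ℓ k + v) - f (I * ℓ k + j * L)| ≤ K * L := by
          refine (hf _ _ (by omega) ?_).trans ?_
          · calc I * ℓ k + v ≤ I * ℓ k + ℓ k := by omega
              _ = (I + 1) * ℓ k := by ring
              _ ≤ T := hIT
          · refine mul_le_mul_of_nonneg_left ?_ hK
            have : (v : ℝ) ≤ ((j : ℝ) + 1) * L := by exact_mod_cast hjv'.le
            push_cast
            linarith only [this]
        have h4 : |f (I * ℓ k + j * L) - f (I * ℓ k) - s * (j * L)| ≤ θ * ℓ k := by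
          rw [h1]
          have h5 : (L : ℝ) * ∑ i ∈ Ico 0 j, av f L (I * r + i) - s * (j * L) =
              L * ∑ i ∈ Ico 0 j, (av f L (I * r + i) - av f (ℓ k) I) := by
            rw [Finset.sum_sub_distrib, Finset.sum_const, Nat.card_Ico, Nat.sub_zero, nsmul_eq_mul]
            ring
          rw [h5, abs_mul, abs_of_pos hLR, hlR]
          calc (L : ℝ) * |∑ i ∈ Ico 0 j, (av f L (I * r + i) - av f (ℓ k) I)| ≤
                L * (θ * r) := mul_le_mul_of_nonneg_left
                  ((Finset.abs_sum_le_sum_abs _ _).trans h2) hLR.le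
            _ = θ * (r * L) := by ring
        have h5 : |s * ((v : ℝ) - j * L)| ≤ K * L := by
          rw [abs_mul]
          refine mul_le_mul hsK ?_ (abs_nonneg _) hK
          have h6 : ((j : ℝ)) * L ≤ v := by exact_mod_cast hjv
          have h7 : (v : ℝ) ≤ ((j : ℝ) + 1) * L := by exact_mod_cast hjv'.le
          rw [abs_of_nonneg (by linarith only [h6])]
          linarith only [h7]
        have h6 : θ * ℓ k + 2 * (K * L) ≤ τ * ℓ k := by
          have h7 : θ ≤ τ / 2 := min_le_left _ _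
          have h8 : 2 * (K * L) ≤ τ / 2 * ℓ k := by
            have h9 : 4 * K / τ ≤ q := by
              have : 0 ≤ 8 / τ := by positivity
              linarith only [hq, this]
            rw [div_le_iff₀ hτ] at h9
            calc 2 * (K * L) = 4 * K * L / 2 := by ring
              _ ≤ (q * τ) * L / 2 := by
                have := mul_le_mul_of_nonneg_right h9 hLR.le
                linarith only [this]
              _ = τ / 2 * (q * L) := by ring
              _ ≤ τ / 2 * ℓ k := mul_le_mul_of_nonneg_left hqL (by positivity)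
          have h10 : θ * (ℓ k : ℝ) ≤ τ / 2 * ℓ k :=
            mul_le_mul_of_nonneg_right h7 (Nat.cast_nonneg _)
          linarith only [h8, h10]
        rw [abs_le] at h3 h4 h5 ⊢
        constructor
        · linarith only [h3, h4, h5, h6, h3.1, h4.1, h5.2]
        · linarith only [h3, h4, h5, h6, h3.2, h4.2, h5.1]
      · -- density
        intro u v huv hv
        set i₀ := u / L + 1 with hi₀
        set i₁ := (u + v) / L with hi₁
        have hu1 : u < i₀ * L := (Nat.div_lt_iff_lt_mul hℓk1).1 (Nat.lt_succ_self _)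
        have hu2 : ((i₀ : ℝ)) * L ≤ u + L := by
          have : u / L * L ≤ u := Nat.div_mul_le_self u L
          have h' : ((u / L : ℕ) : ℝ) * L ≤ u := by exact_mod_cast this
          rw [hi₀]
          push_cast
          linarith only [h']
        have hv1 : i₁ * L ≤ u + v := Nat.div_mul_le_self _ L
        have hv2 : (u : ℝ) + v ≤ (i₁ : ℝ) * L + L := by
          have : u + v < (i₁ + 1) * L := (Nat.div_lt_iff_lt_mul hℓk1).1 (Nat.lt_succ_self _)
          have h' : ((u + v : ℕ) : ℝ) ≤ (((i₁ + 1) * L : ℕ) : ℝ) := by exact_mod_cast this.le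
          push_cast at h'
          linarith only [h']
        have h8q : 8 / τ ≤ q := by
          have : 0 ≤ 4 * K / τ := by positivity
          linarith only [hq, this]
        rw [div_le_iff₀ hτ] at h8q
        have h8L : 8 * (L : ℝ) ≤ v := by
          calc 8 * (L : ℝ) ≤ q * τ * L := mul_le_mul_of_nonneg_right h8q hLR.le
            _ = τ * (q * L) := by ring
            _ ≤ τ * ℓ k := mul_le_mul_of_nonneg_left hqL hτ.le
            _ ≤ v := hv
        have hi01 : i₀ ≤ i₁ := by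
          have h' : (i₀ : ℝ) * L ≤ i₁ * L := by linarith only [hLR, hu2, hv2, h8L]
          exact_mod_cast le_of_mul_le_mul_right h' hLR
        have hi1r : i₁ ≤ r := by
          rw [hi₁]
          rw [hlr] at huv
          exact Nat.div_le_of_le_mul (by rw [Nat.mul_comm]; exact huv)
        have h1 := tele (ct Z) hℓk1 (r := r) I i₀ i₁ hi01
        have h2 := dev (ct Z) I hθ0.le hvz (Ico i₀ i₁) (by
          intro i hi
          rw [Finset.mem_Ico] at hi
          exact Finset.mem_range.2 (by omega))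
        rw [← hlr] at h2
        have e1 : ∀ i, (I * r + i) * L = I * ℓ k + i * L := fun i => by rw [hIr]; ring
        rw [e1, e1, ct_sub Z (by
          have := Nat.mul_le_mul_right L hi01
          omega)] at h1
        have h3 : ((Ico (I * ℓ k + i₀ * L) (I * ℓ k + i₁ * L)).filter Z).card ≤
            ((Ico (I * ℓ k + u) (I * ℓ k + u + v)).filter Z).card := by
          refine Finset.card_le_card (Finset.filter_subset_filter _ ?_)
          refine Finset.Ico_subset_Ico ?_ ?_ <;> omega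
        have h3R : (((Ico (I * ℓ k + i₀ * L) (I * ℓ k + i₁ * L)).filter Z).card : ℝ) ≤
            ((Ico (I * ℓ k + u) (I * ℓ k + u + v)).filter Z).card := by exact_mod_cast h3
        refine le_trans ?_ h3R
        rw [h1]
        have h4 : ((i₁ : ℝ) - i₀) * (δ / 2) - θ * r ≤ ∑ i ∈ Ico i₀ i₁, av (ct Z) L (I * r + i) := by
          have h5 : ∑ i ∈ Ico i₀ i₁, av (ct Z) L (I * r + i) =
              ((i₁ : ℝ) - i₀) * av (ct Z) (ℓ k) I +
                ∑ i ∈ Ico i₀ i₁, (av (ct Z) L (I * r + i) - av (ct Z) (ℓ k) I) := by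
            rw [Finset.sum_sub_distrib, Finset.sum_const, Nat.card_Ico, nsmul_eq_mul,
              Nat.cast_sub hi01]
            ring
          have h6 := (abs_le.1 ((Finset.abs_sum_le_sum_abs
            (fun i => av (ct Z) L (I * r + i) - av (ct Z) (ℓ k) I) (Ico i₀ i₁)).trans h2)).1
          have h7 : ((i₁ : ℝ) - i₀) * (δ / 2) ≤ ((i₁ : ℝ) - i₀) * av (ct Z) (ℓ k) I := by
            refine mul_le_mul_of_nonneg_left hId ?_
            have : (i₀ : ℝ) ≤ i₁ := by exact_mod_cast hi01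
            linarith only [this]
          rw [h5]
          linarith only [h6, h7]
        have h5 : (L : ℝ) * (((i₁ : ℝ) - i₀) * (δ / 2) - θ * r) ≤
            L * ∑ i ∈ Ico i₀ i₁, av (ct Z) L (I * r + i) := mul_le_mul_of_nonneg_left h4 hLR.le
        refine le_trans ?_ h5
        have h6 : (v : ℝ) - 2 * L ≤ ((i₁ : ℝ) - i₀) * L := by linarith only [hu2, hv2]
        have h7 : θ * (r * L) ≤ v * δ / 8 := by
          have h8 : θ ≤ τ * δ / 8 := min_le_right _ _
          rw [← hlR]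
          calc θ * (ℓ k : ℝ) ≤ τ * δ / 8 * ℓ k := mul_le_mul_of_nonneg_right h8 (Nat.cast_nonneg _)
            _ = (τ * ℓ k) * δ / 8 := by ring
            _ ≤ v * δ / 8 := by
              have := mul_le_mul_of_nonneg_right hv hδ.le
              linarith only [this]
        have h8 : (v - 2 * L) * (δ / 2) ≤ ((i₁ : ℝ) - i₀) * L * (δ / 2) :=
          mul_le_mul_of_nonneg_right h6 (by positivity)
        have h9 : 8 * (L : ℝ) * δ ≤ v * δ := mul_le_mul_of_nonneg_right h8L hδ.le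
        have e : (L : ℝ) * (((i₁ : ℝ) - i₀) * (δ / 2) - θ * r) =
            ((i₁ : ℝ) - i₀) * L * (δ / 2) - θ * (r * L) := by ring
        rw [e]
        linarith only [h7, h8, h9]

end Pool.BFL
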