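import Pool.Agent.H90.BFL.CnlI
import Pool.Agent.H39.BFL.CorThm

/-!
# Row CNL
-/

set_option autoImplicit false

namespace Pool.BFL.Cnl

open Finset Real
open Pool.Agent.H49.Ent Pool.Agent.H32.Dense Pool.STK Pool.KS3

/-- The axioms of a system are monotone in the error. -/
lemma ok_mono {n : ℕ} {D : Dat n} {K J r w₀ z M : ℕ} {κ κ' : ℝ} {q : D.Ω → ℝ}
    (h : D.Ok K J r w₀ z M κ q) (hκ : κ ≤ κ') : D.Ok K J r w₀ z M κ' q := by
  have hz : κ * z ≤ κ' * z := mul_le_mul_of_nonneg_right hκ (Nat.cast_nonneg z)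
  have he : Real.exp (κ * z) ≤ Real.exp (κ' * z) := Real.exp_le_exp.2 hz
  refine ⟨h.isLaw, h.r_le, h.top, h.T_lt, h.E_le, h.A_i₀, h.E_i₀, ?_, h.pt_T, h.pt_Y, h.c_pt,
    h.c_wn, h.c_c, h.c_T, ?_, h.F_deg, ?_, ?_, h.g_mono, ?_, ?_⟩
  · linarith [h.time]
  · intro k hk ω hω i
    exact (h.y₀_near k hk ω hω i).trans (div_le_div_of_nonneg_right he (by positivity))
  · intro k hk ω hω
    exact (h.F_hgt k hk ω hω).trans (div_le_div_of_nonneg_right he (by positivity))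
  · intro k hk ω hω b hb i
    exact (h.F_grad k hk ω hω b hb i).trans he
  · intro k hk
    exact (h.g_ge k hk).trans (by linarith)
  · obtain ⟨e, he0, he1, he2⟩ := h.nc
    refine ⟨e, he0, he1.trans hκ, fun ω hω u hu => ?_⟩
    refine (Pb_mono h.isLaw fun ω' _ h' => ⟨h'.1, h'.2.trans ?_⟩).trans (he2 ω hω u hu)
    exact Real.exp_le_exp.2 (by linarith)

lemma mul_exp_le {a x y : ℝ} (h : a + x ≤ y) : a * Real.exp x ≤ Real.exp y := by
  have h1 : a ≤ Real.exp a := by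
    have := Real.add_one_le_exp a
    linarith
  calc a * Real.exp x ≤ Real.exp a * Real.exp x :=
        mul_le_mul_of_nonneg_right h1 (Real.exp_pos _).le
    _ = Real.exp (a + x) := (Real.exp_add _ _).symm
    _ ≤ _ := Real.exp_le_exp.2 h

/-- **Row CNL.** -/
theorem cnl_thm (hJET : JETStmt) : CNLStmt := by
  classical
  intro n K j A C₁ c hn hj hjK hC₁ hc hc1
  obtain ⟨CJ, hCJ1, hJ⟩ := hJET n K j C₁ hn hC₁
  set C₀ : ℝ := K + 4 with hC₀
  have hK0 : (0 : ℝ) ≤ K := Nat.cast_nonneg K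
  obtain ⟨τ₁, hτ₁, U₀, hCOR⟩ := Pool.Agent.H39.BFL.cor_thm n j c C₀ (1 / 16) hn hj hc
    (by rw [hC₀]; linarith only) (by norm_num)
  obtain ⟨Cc, hCc0, hCore⟩ := Cx.core_ok n K C₀ (by rw [hC₀]; linarith only)
  obtain ⟨Cn, hCn0, hNew⟩ := Cx.newlab n K C₀ (by rw [hC₀]; linarith only)
  refine ⟨CJ + 1, by linarith, ?_⟩
  intro C₂ C₃ hC₂ hC₃
  set τ : ℝ := min τ₁ 1 with hτ
  have hτ0 : 0 < τ := lt_min hτ₁ one_pos
  set N : ℝ := Cc + (C₁ + CJ + 1) + (C₂ + 1) + 2 + (C₃ + 3 * n) +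
    2 * (Cn + 2 * C₁ + CJ + 3 + j + A) with hN
  have hn0 : (0 : ℝ) ≤ n := Nat.cast_nonneg n
  have hj0 : (0 : ℝ) ≤ j := Nat.cast_nonneg j
  have hA0 : (0 : ℝ) ≤ A := Nat.cast_nonneg A
  have hN0 : 0 ≤ N := by rw [hN]; linarith only [hC₁, hCJ1, hCc0, hCn0, hC₂, hC₃]
  refine ⟨⌈N / τ⌉₊ + K + 5, by omega, ?_⟩
  intro U B hU hB
  have hB1 : 1 ≤ B := by
    rw [hB]
    exact Nat.mul_pos (by omega) (by omega)
  set η : ℝ := min (τ₁ / 2) (1 / 8) with hη
  have hη0 : 0 < η := lt_min (by linarith only [hτ₁]) (by norm_num)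
  have hη8 : η ≤ 1 / 8 := min_le_right _ _
  obtain ⟨κJ, hκJ0, zJ, hJ⟩ := hJ B η hB1 hη0 (by linarith only [hη0, hη8])
  refine ⟨min κJ (min (1 / 2) τ₁), lt_min hκJ0 (lt_min (by norm_num) hτ₁),
    zJ + U₀ + n * (K + 1) + 1, ?_⟩
  intro J r w₀ z M k D q Q Qb hz hok hkB hhom htube hV hcnt
  set κ : ℝ := min κJ (min (1 / 2) τ₁) with hκ
  have hκJ : κ ≤ κJ := min_le_left _ _
  have hκ2 : κ ≤ 1 / 2 := (min_le_right _ _).trans (min_le_left _ _)
  have hκτ : κ ≤ τ₁ := (min_le_right _ _).trans (min_le_right _ _)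
  have hκ0 : 0 < κ := lt_min hκJ0 (lt_min (by norm_num) hτ₁)
  have hz1 : 1 ≤ z := by omega
  have hz1' : (1 : ℝ) ≤ z := by exact_mod_cast hz1
  have hz0 : (0 : ℝ) ≤ z := by linarith only [hη0, hη8, hz1']
  -- digits
  obtain ⟨U', rfl⟩ : ∃ U', U = U' + 1 := ⟨U - 1, by omega⟩
  set u : ℕ := U' * z with hu
  set m : ℕ := ((K + 1) * (U' + 1) + 1) * z with hm
  have hcx : Cx D K J r w₀ z M k j (U' + 1) B u m κ C₁ q Q :=
    { ok := hok
      hj := hj
      jK := hjK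
      kB := hkB
      UB := by
        rw [hB]
        exact Nat.le_mul_of_pos_left _ (by omega)
      hu := by rw [hu]; ring
      hm := by rw [hu, hm, hB]; ring
      um := by
        rw [hu, hm, ← mul_assoc]
        refine Nat.mul_le_mul_right z ?_
        calc (j + 1) * U' ≤ (K + 1) * (U' + 1) := Nat.mul_le_mul (by omega) (by omega)
          _ ≤ _ := Nat.le_succ _
      κ0 := hκ0.le
      κ1 := hκ2
      C1 := by linarith only [hC₁, hη0, hη8]
      hom := hhom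
      degQ := htube.deg }
  have hJG := hJ J r w₀ z M k j D q Q Qb (by omega) (ok_mono hok hκJ) hkB le_rfl
    (by exact_mod_cast hjK) hhom htube
  -- numbers
  have hNu : N * z ≤ τ * u := by
    have h1 : N / τ ≤ U' := by
      have h2 := Nat.le_ceil (N / τ)
      have h3 : ((⌈N / τ⌉₊ : ℕ) : ℝ) ≤ U' := by
        exact_mod_cast (show ⌈N / τ⌉₊ ≤ U' by omega)
      linarith only [h2, h3]
    rw [div_le_iff₀ hτ0] at h1
    rw [hu]
    push_cast
    calc N * z ≤ (U' * τ) * z := mul_le_mul_of_nonneg_right h1 hz0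
      _ = _ := by ring
  have hu0 : (0 : ℝ) ≤ u := Nat.cast_nonneg u
  have hτ1u : N * z ≤ τ₁ * u := hNu.trans (mul_le_mul_of_nonneg_right (min_le_left _ _) hu0)
  have h1u : N * z ≤ u := by
    have h1 := mul_le_mul_of_nonneg_right (min_le_right τ₁ 1) hu0
    linarith only [hNu, h1]
  -- the polynomials of the blocks
  have hex : ∀ x : (D.Γ × (Fin n → ℤ)) ⊕ D.Ω, ∃ P P' : Pl n,
      (∃ R, 0 < q R ∧ D.JGd K J w₀ z B k j CJ Q R ∧
          tg q (Cx.blk D J (w₀ + (k + B) * z) (k + B)) R = x ∧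
          P = TT D J k B (U' + 1) j (w₀ + k * z + u) (D.g k + j * u) R ∧ P' = TA D J k B j R) ∨
        ((∀ R, 0 < q R → D.JGd K J w₀ z B k j CJ Q R →
          tg q (Cx.blk D J (w₀ + (k + B) * z) (k + B)) R ≠ x) ∧ P = 0 ∧ P' = 0) := by
    intro x
    by_cases hx : ∃ R, 0 < q R ∧ D.JGd K J w₀ z B k j CJ Q R ∧
        tg q (Cx.blk D J (w₀ + (k + B) * z) (k + B)) R = x
    · obtain ⟨R, h1, h2, h3⟩ := hx
      exact ⟨_, _, Or.inl ⟨R, h1, h2, h3, rfl, rfl⟩⟩
    · exact ⟨0, 0, Or.inr ⟨fun R h1 h2 h3 => hx ⟨R, h1, h2, h3⟩, rfl, rfl⟩⟩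
  choose T TB hTT using hex
  have hT1 : ∀ x, (∃ R, 0 < q R ∧ D.JGd K J w₀ z B k j CJ Q R ∧
          tg q (Cx.blk D J (w₀ + (k + B) * z) (k + B)) R = x ∧
          T x = TT D J k B (U' + 1) j (w₀ + k * z + u) (D.g k + j * u) R) ∨
        ((∀ R, 0 < q R → D.JGd K J w₀ z B k j CJ Q R →
          tg q (Cx.blk D J (w₀ + (k + B) * z) (k + B)) R ≠ x) ∧ T x = 0) := by
    intro x
    rcases hTT x with ⟨R, h1, h2, h3, h4, -⟩ | ⟨h1, h2, -⟩
    · exact Or.inl ⟨R, h1, h2, h3, h4⟩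
    · exact Or.inr ⟨h1, h2⟩
  have hE1 : n * (K + 1) * Real.exp (CJ * z) ≤ Real.exp (C₂ * z) := by
    refine mul_exp_le ?_
    have h1 : (n * (K + 1) : ℝ) ≤ z := by
      exact_mod_cast (show n * (K + 1) ≤ z by omega)
    have h2 : (CJ + 1) * z ≤ C₂ * z := mul_le_mul_of_nonneg_right hC₂ hz0
    linarith only [h1, h2]
  have hC20 : 0 ≤ C₂ := by linarith only [hCJ1, hC₂, hη0, hη8]
  have hcore := hCore hcx CJ C₂ (τ₁ * u) τ₁ c (C₃ * z) T (by linarith only [hCJ1, hη0, hη8]) hT1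
    (hJG.trans (min_le_left _ _))
    (by
      refine mul_exp_le ?_
      have h1 : Cc + (C₁ + CJ + 1) * z ≤ N * z := by
        have h2 : Cc * 1 ≤ Cc * z := mul_le_mul_of_nonneg_left hz1' hCc0
        have h3 : (Cc + (C₁ + CJ + 1)) * z ≤ N * z :=
          mul_le_mul_of_nonneg_right (by rw [hN]; linarith only [hC₁, hCJ1, hCn0, hC₂, hC₃, hη0, hη8]) hz0
        linarith only [h2, h3]
      exact h1.trans hτ1u) hE1
    (by
      have h1 : Real.exp (C₂ * z) + 1 ≤ 2 * Real.exp (C₂ * z) := by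
        have := Real.one_le_exp (mul_nonneg hC20 hz0)
        linarith only [this]
      have h2 : (2 : ℝ) ≤ Real.exp 1 := by
        have := Real.exp_one_gt_d9
        linarith only [hη0, hη8, this]
      have h3 : 2 * Real.exp (C₂ * z) ≤ Real.exp (1 + C₂ * z) := by
        rw [Real.exp_add]
        exact mul_le_mul_of_nonneg_right h2 (Real.exp_pos _).le
      refine h1.trans (h3.trans (Real.exp_le_exp.2 ?_))
      have h4 : (C₂ + 1) * z ≤ N * z := mul_le_mul_of_nonneg_right (by rw [hN]; linarith only [hC₁, hCJ1, hCc0, hCn0, hC₃, hη0, hη8]) hz0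
      linarith only [hz1', hτ1u, h4])
    (by
      have h1 : κ * z ≤ 1 * z := mul_le_mul_of_nonneg_right (by linarith only [hη0, hη8, hκ2]) hz0
      have h4 : 2 * (z : ℝ) ≤ N * z := mul_le_mul_of_nonneg_right (by rw [hN]; linarith only [hC₁, hCJ1, hCc0, hCn0, hC₂, hC₃, hη0, hη8]) hz0
      linarith only [hτ1u, h1, h4]) hV
    (by
      have h1 : κ * z ≤ 1 * z := mul_le_mul_of_nonneg_right (by linarith only [hη0, hη8, hκ2]) hz0
      have h2 : n * (κ * z + 2) ≤ n * (3 * z) := mul_le_mul_of_nonneg_left (by linarith only [hz1', h1]) hn0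
      have h4 : (C₃ + 3 * n) * z ≤ N * z := mul_le_mul_of_nonneg_right (by rw [hN]; linarith only [hC₁, hCJ1, hCc0, hCn0, hC₂, hη0, hη8]) hz0
      linarith only [hτ1u, h2, h4]) hκτ hcnt
  exact by
   obtain ⟨Hf, hHf, hHX, hP2⟩ := hCOR u m
     (by
       have h1 : 1 * z ≤ u := Nat.mul_le_mul_right z (by omega)
       omega)
     (by
       rw [hu, hm]
       refine Nat.mul_le_mul_right z ?_
       have h1 : 1 * (U' + 1) ≤ (K + 1) * (U' + 1) := Nat.mul_le_mul_right _ (by omega)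
       omega)
     (by
       have h1 : (m : ℝ) = ((K + 1) * (U' + 1) + 1) * z := by rw [hm]; push_cast; ring
       have h2 : (u : ℝ) = U' * z := by rw [hu]; push_cast; ring
       rw [h1, h2, hC₀, ← mul_assoc]
       refine mul_le_mul_of_nonneg_right ?_ hz0
       have h3 : (K : ℝ) + 4 ≤ U' := by
         exact_mod_cast (show K + 4 ≤ U' by omega)
       nlinarith only [hη0, hη8, h3])
     D.Ω _ _ _ _ q _ _ _ _ _ _ _ _ _ T _ _ hcore
   refine hNew hcx CJ (Real.exp (1 / 16 * u)) A T TB Hf (by linarith only [hCJ1, hη0, hη8]) (Real.exp_pos _).le hTT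
     (hJG.trans hη8) hHf hHX (hP2.trans (by norm_num)) ?_
   -- the last inequality
   have hlog : (1 : ℝ) / 2 + 1 / 16 ≤ Real.log 2 := by
     have := Real.log_two_gt_d9
     linarith only [hη0, hη8, this]
   set E₁ : ℝ := (C₁ + CJ + 1) * z with hE₁
   have hE₁0 : 0 ≤ E₁ := mul_nonneg (by linarith only [hC₁, hCJ1, hη0, hη8]) hz0
   have s1 : Real.exp E₁ + Real.exp (1 / 16 * u) ≤ 2 * Real.exp (E₁ + 1 / 16 * u) := by
     have a1 : Real.exp E₁ ≤ Real.exp (E₁ + 1 / 16 * u) := Real.exp_le_exp.2 (by linarith only)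
     have a2 : Real.exp (1 / 16 * u) ≤ Real.exp (E₁ + 1 / 16 * u) :=
       Real.exp_le_exp.2 (by linarith only [hE₁0])
     linarith only [a1, a2]
   have s2 : (2 : ℝ) ^ ((j + A) * z) ≤ Real.exp ((j + A) * z) := by
     rw [two_pow_exp]
     refine Real.exp_le_exp.2 ?_
     push_cast
     have : 0 ≤ ((j : ℝ) + A) * z := by positivity
     calc ((j : ℝ) + A) * z * Real.log 2 ≤ (j + A) * z * 1 :=
           mul_le_mul_of_nonneg_left log_two_le this
       _ = _ := mul_one _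
   have s3 : (2 : ℝ) ≤ Real.exp 1 := by
     have := Real.exp_one_gt_d9
     linarith only [hη0, hη8, this]
   have s4 : Cn ≤ Real.exp Cn := by
     have := Real.add_one_le_exp Cn
     linarith only [hη0, hη8, this]
   calc Cn * ((Real.exp E₁ + Real.exp (1 / 16 * u)) * (Real.exp ((C₁ + 1) * z) *
         2 ^ ((j + A) * z))) ≤
       Real.exp Cn * ((Real.exp 1 * Real.exp (E₁ + 1 / 16 * u)) * (Real.exp ((C₁ + 1) * z) *
         Real.exp ((j + A) * z))) := by
         refine mul_le_mul s4 (mul_le_mul (s1.trans (mul_le_mul_of_nonneg_right s3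
           (Real.exp_pos _).le)) (mul_le_mul_of_nonneg_left s2 (Real.exp_pos _).le)
           (by positivity) (by positivity)) (by positivity) (by positivity)
     _ = Real.exp (Cn + (1 + (E₁ + 1 / 16 * u) + ((C₁ + 1) * z + (j + A) * z))) := by
         rw [← Real.exp_add 1, ← Real.exp_add ((C₁ + 1) * z), ← Real.exp_add (1 + _),
           ← Real.exp_add Cn]
     _ ≤ Real.exp (u * Real.log 2) := by
         refine Real.exp_le_exp.2 ?_
         have h1 : (2 * (Cn + 2 * C₁ + CJ + 3 + j + A)) * z ≤ N * z :=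
           mul_le_mul_of_nonneg_right (by rw [hN]; linarith only [hC₁, hCJ1, hCc0, hC₂, hC₃, hη0, hη8]) hz0
         have h2 : Cn * 1 ≤ Cn * z := mul_le_mul_of_nonneg_left hz1' hCn0
         have h3 : (u : ℝ) * (1 / 2 + 1 / 16) ≤ u * Real.log 2 :=
           mul_le_mul_of_nonneg_left hlog hu0
         rw [hE₁]
         nlinarith only [hz1', h1u, h1, h2, h3]
     _ = 2 ^ u := (two_pow_exp u).symm

end Pool.BFL.Cnl
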