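import Pool.Agent.H19.BFL.Stmts
import Pool.Agent.H39.BFL.Pot
import Pool.Agent.H36.KBX.TRM

/-!
# Jets of a polynomial along a line

`tayl j P a` is the Taylor polynomial of degree `< j` of `P` at `a`. Along a line `a + t E` it
changes by the integral of the component of degree `j - 1` of the directional derivative.
-/

set_option autoImplicit false

namespace Pool.BFL

open Finset Polynomial
open Pool.Agent.H36.KBX (shift eval_shift totalDegree_shift bx eval_bound coeff_pderiv_bound)

/-- The directional derivative. -/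
noncomputable def dD {n : ℕ} (E : Fin n → ℝ) (P : Pl n) : Pl n :=
  ∑ i, MvPolynomial.C (E i) * MvPolynomial.pderiv i P

lemma eval_dD {n : ℕ} (E : Fin n → ℝ) (P : Pl n) (v : Fin n → ℝ) :
    MvPolynomial.eval v (dD E P) = ∑ i, E i * MvPolynomial.eval v (MvPolynomial.pderiv i P) := by
  unfold dD
  rw [map_sum]
  refine Finset.sum_congr rfl fun i _ => ?_
  rw [map_mul, MvPolynomial.eval_C]

lemma dD_add {n : ℕ} (E : Fin n → ℝ) (P Q : Pl n) : dD E (P + Q) = dD E P + dD E Q := by
  unfold dD
  rw [← Finset.sum_add_distrib]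
  refine Finset.sum_congr rfl fun i _ => ?_
  rw [map_add, mul_add]

lemma dD_C {n : ℕ} (E : Fin n → ℝ) (c : ℝ) : dD E (MvPolynomial.C c : Pl n) = 0 := by
  unfold dD
  refine Finset.sum_eq_zero fun i _ => ?_
  rw [MvPolynomial.pderiv_C, mul_zero]

lemma dD_mul_X {n : ℕ} (E : Fin n → ℝ) (P : Pl n) (l : Fin n) :
    dD E (P * MvPolynomial.X l) = dD E P * MvPolynomial.X l + MvPolynomial.C (E l) * P := by
  unfold dD
  have h2 : ∀ i, MvPolynomial.C (E i) * MvPolynomial.pderiv i (P * MvPolynomial.X l) =
      MvPolynomial.C (E i) * MvPolynomial.pderiv i P * MvPolynomial.X l +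
        (if i = l then MvPolynomial.C (E l) * P else 0) := by
    intro i
    rw [Derivation.leibniz, MvPolynomial.pderiv_X, smul_eq_mul, smul_eq_mul]
    by_cases h : i = l
    · subst h
      rw [if_pos rfl, Pi.single_eq_same]
      ring
    · have h' : (Pi.single i (1 : MvPolynomial (Fin n) ℝ) : Fin n → MvPolynomial (Fin n) ℝ) l = 0 :=
        Pi.single_eq_of_ne (Ne.symm h) _
      rw [if_neg h, h']
      ring
  rw [Finset.sum_congr rfl fun i _ => h2 i, Finset.sum_add_distrib, Finset.sum_ite_eq',
    if_pos (Finset.mem_univ l), Finset.sum_mul]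

lemma dD_sum {n : ℕ} {ι : Type} (E : Fin n → ℝ) (s : Finset ι) (f : ι → Pl n) :
    dD E (∑ k ∈ s, f k) = ∑ k ∈ s, dD E (f k) := by
  classical
  induction s using Finset.induction_on with
  | empty =>
    rw [Finset.sum_empty, Finset.sum_empty]
    have h := dD_C E (0 : ℝ)
    rwa [MvPolynomial.C_0] at h
  | insert a s ha ih => rw [Finset.sum_insert ha, Finset.sum_insert ha, dD_add, ih]

lemma dD_homog {n d : ℕ} {φ : Pl n} (h : φ.IsHomogeneous d) (E : Fin n → ℝ) :
    (dD E φ).IsHomogeneous (d - 1) := by
  unfold dD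
  refine MvPolynomial.IsHomogeneous.sum _ _ _ fun i _ => ?_
  have h1 := (MvPolynomial.isHomogeneous_C (Fin n) (E i)).mul (h.pderiv (i := i))
  rwa [Nat.zero_add] at h1

lemma ln_add {n : ℕ} (P Q : Pl n) (w z : Fin n → ℝ) : ln (P + Q) w z = ln P w z + ln Q w z := by
  unfold ln
  rw [map_add]

lemma ln_zero {n : ℕ} (w z : Fin n → ℝ) : ln (0 : Pl n) w z = 0 := by
  unfold ln
  rw [map_zero]

lemma ln_sum {n : ℕ} {ι : Type} (s : Finset ι) (f : ι → Pl n) (w z : Fin n → ℝ) :
    ln (∑ k ∈ s, f k) w z = ∑ k ∈ s, ln (f k) w z := by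
  unfold ln
  rw [map_sum]

lemma ln_C_mul {n : ℕ} (c : ℝ) (P : Pl n) (w z : Fin n → ℝ) :
    ln (MvPolynomial.C c * P) w z = Polynomial.C c * ln P w z := by
  unfold ln
  rw [map_mul, MvPolynomial.aeval_C]
  rfl

lemma ln_C {n : ℕ} (c : ℝ) (w z : Fin n → ℝ) :
    ln (MvPolynomial.C c : Pl n) w z = Polynomial.C c := by
  unfold ln
  rw [MvPolynomial.aeval_C]
  rfl

lemma ln_mul_X {n : ℕ} (P : Pl n) (l : Fin n) (w z : Fin n → ℝ) :
    ln (P * MvPolynomial.X l) w z =
      ln P w z * (Polynomial.C (w l) + Polynomial.C (z l) * Polynomial.X) := by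
  unfold ln
  rw [map_mul, MvPolynomial.aeval_X]

lemma ln_derivative' {n : ℕ} (b : Pl n) (w E : Fin n → ℝ) :
    (ln b w E).derivative = ln (dD E b) w E := by
  rw [ln_derivative]
  unfold dD
  rw [ln_sum]
  refine Finset.sum_congr rfl fun i _ => ?_
  rw [ln_C_mul]

/-! ### Coefficients along a line -/

lemma coeff_lin (q : ℝ[X]) (α β : ℝ) :
    (q * (Polynomial.C α + Polynomial.C β * Polynomial.X)).coeff 0 = q.coeff 0 * α ∧
    ∀ i, (q * (Polynomial.C α + Polynomial.C β * Polynomial.X)).coeff (i + 1) =
      q.coeff (i + 1) * α + q.coeff i * β := by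
  have h : q * (Polynomial.C α + Polynomial.C β * Polynomial.X) =
      Polynomial.C α * q + Polynomial.C β * q * Polynomial.X := by ring
  rw [h]
  constructor
  · rw [Polynomial.coeff_add, Polynomial.coeff_C_mul, Polynomial.coeff_mul_X_zero, add_zero]
    ring
  · intro i
    rw [Polynomial.coeff_add, Polynomial.coeff_C_mul, Polynomial.coeff_mul_X,
      Polynomial.coeff_C_mul]
    ring

lemma coeff_one_sub (q : ℝ[X]) : ((1 - Polynomial.X) * q).coeff 0 = q.coeff 0 ∧
    ∀ i, ((1 - Polynomial.X) * q).coeff (i + 1) = q.coeff (i + 1) - q.coeff i := by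
  have h : (1 - Polynomial.X) * q = q - q * Polynomial.X := by ring
  rw [h]
  constructor
  · rw [Polynomial.coeff_sub, Polynomial.coeff_mul_X_zero, sub_zero]
  · intro i
    rw [Polynomial.coeff_sub, Polynomial.coeff_mul_X]

lemma sum_coeff_one_sub (q : ℝ[X]) (j : ℕ) :
    ∑ i ∈ range (j + 1), ((1 - Polynomial.X) * q).coeff i = q.coeff j := by
  induction j with
  | zero => rw [Finset.sum_range_one, (coeff_one_sub q).1]
  | succ j ih => rw [Finset.sum_range_succ, ih, (coeff_one_sub q).2]; ring

lemma hasDeriv_coeff {n : ℕ} (P : Pl n) (a z E : Fin n → ℝ) (t : ℝ) : ∀ i : ℕ,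
    HasDerivAt (fun t : ℝ => (ln P (fun l => a l + t * E l) (fun l => z l - t * E l)).coeff i)
      (((1 - Polynomial.X) *
        ln (dD E P) (fun l => a l + t * E l) (fun l => z l - t * E l)).coeff i) t := by
  induction P using MvPolynomial.induction_on with
  | C c =>
    intro i
    rw [dD_C, ln_zero, mul_zero, Polynomial.coeff_zero]
    have h : (fun t : ℝ => (ln (MvPolynomial.C c : Pl n) (fun l => a l + t * E l)
        (fun l => z l - t * E l)).coeff i) = fun _ => (Polynomial.C c).coeff i := by
      funext t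
      rw [ln_C]
    rw [h]
    exact hasDerivAt_const t _
  | add p q hp hq =>
    intro i
    have h : (fun t : ℝ => (ln (p + q) (fun l => a l + t * E l)
        (fun l => z l - t * E l)).coeff i) = fun t =>
        (ln p (fun l => a l + t * E l) (fun l => z l - t * E l)).coeff i +
        (ln q (fun l => a l + t * E l) (fun l => z l - t * E l)).coeff i := by
      funext t
      rw [ln_add, Polynomial.coeff_add]
    rw [h, dD_add, ln_add, mul_add, Polynomial.coeff_add]
    exact (hp i).add (hq i)
  | mul_X p l hp =>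
    have hw : HasDerivAt (fun t : ℝ => a l + t * E l) (E l) t := by
      have h := ((hasDerivAt_id t).mul_const (E l)).const_add (a l)
      simpa using h
    have hz : HasDerivAt (fun t : ℝ => z l - t * E l) (-E l) t := by
      have h := ((hasDerivAt_id t).mul_const (E l)).const_sub (z l)
      simpa using h
    have e : (1 - Polynomial.X) * ln (dD E (p * MvPolynomial.X l)) (fun l => a l + t * E l)
        (fun l => z l - t * E l) =
        ((1 - Polynomial.X) * ln (dD E p) (fun l => a l + t * E l) (fun l => z l - t * E l)) *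
          (Polynomial.C (a l + t * E l) + Polynomial.C (z l - t * E l) * Polynomial.X) +
        Polynomial.C (E l) * ((1 - Polynomial.X) *
          ln p (fun l => a l + t * E l) (fun l => z l - t * E l)) := by
      rw [dD_mul_X, ln_add, ln_mul_X, ln_C_mul]
      ring
    intro i
    rw [e, Polynomial.coeff_add, Polynomial.coeff_C_mul]
    rcases i with _ | i
    · have h : (fun t : ℝ => (ln (p * MvPolynomial.X l) (fun l => a l + t * E l)
          (fun l => z l - t * E l)).coeff 0) = fun t =>
          (ln p (fun l => a l + t * E l) (fun l => z l - t * E l)).coeff 0 * (a l + t * E l) := by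
        funext t
        rw [ln_mul_X, (coeff_lin _ _ _).1]
      rw [h, (coeff_lin _ _ _).1, (coeff_one_sub (ln p _ _)).1]
      have h2 := (hp 0).mul hw
      refine h2.congr_deriv ?_
      ring
    · have h : (fun t : ℝ => (ln (p * MvPolynomial.X l) (fun l => a l + t * E l)
          (fun l => z l - t * E l)).coeff (i + 1)) = fun t =>
          (ln p (fun l => a l + t * E l) (fun l => z l - t * E l)).coeff (i + 1) *
            (a l + t * E l) +
          (ln p (fun l => a l + t * E l) (fun l => z l - t * E l)).coeff i *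
            (z l - t * E l) := by
        funext t
        rw [ln_mul_X, (coeff_lin _ _ _).2]
      rw [h, (coeff_lin _ _ _).2, (coeff_one_sub (ln p _ _)).2]
      have h2 := ((hp (i + 1)).mul hw).add ((hp i).mul hz)
      refine h2.congr_deriv ?_
      ring

/-! ### The components of a polynomial -/

/-- The restriction of a form to a line through the origin. -/
lemma ln_homog_zero {n d : ℕ} {φ : Pl n} (h : φ.IsHomogeneous d) (z : Fin n → ℝ) :
    ln φ (fun _ => 0) z = Polynomial.C (MvPolynomial.eval z φ) * Polynomial.X ^ d := by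
  apply Polynomial.funext
  intro τ
  rw [ln_eval, Polynomial.eval_mul, Polynomial.eval_C, Polynomial.eval_pow, Polynomial.eval_X]
  have e : (fun i => 0 + z i * τ) = fun i => τ * z i := by
    funext i
    ring
  rw [e, eval_smul_homog h]
  ring

lemma ln_shift {n : ℕ} (P : Pl n) (a z : Fin n → ℝ) :
    ln (shift a P) (fun _ => 0) z = ln P a z := by
  apply Polynomial.funext
  intro τ
  rw [ln_eval, ln_eval, eval_shift]
  refine congrArg (fun y => MvPolynomial.eval y P) ?_
  funext i
  ring

lemma eval_hom {n : ℕ} (P : Pl n) (z : Fin n → ℝ) (i : ℕ) :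
    MvPolynomial.eval z (MvPolynomial.homogeneousComponent i P) =
      (ln P (fun _ => 0) z).coeff i := by
  have h1 : ln P (fun _ => 0) z = ∑ k ∈ range (P.totalDegree + 1),
      Polynomial.C (MvPolynomial.eval z (MvPolynomial.homogeneousComponent k P)) *
        Polynomial.X ^ k := by
    conv_lhs => rw [← MvPolynomial.sum_homogeneousComponent P]
    rw [ln_sum]
    refine Finset.sum_congr rfl fun k _ => ?_
    exact ln_homog_zero (MvPolynomial.homogeneousComponent_isHomogeneous k P) z
  rw [h1, Polynomial.finsetSum_coeff]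
  by_cases hi : i ∈ range (P.totalDegree + 1)
  · rw [Finset.sum_eq_single i]
    · rw [Polynomial.coeff_C_mul, Polynomial.coeff_X_pow, if_pos rfl, mul_one]
    · intro k _ hk
      rw [Polynomial.coeff_C_mul, Polynomial.coeff_X_pow, if_neg (Ne.symm hk), mul_zero]
    · intro h
      exact absurd hi h
  · rw [MvPolynomial.homogeneousComponent_eq_zero _ _ (by
      rw [Finset.mem_range] at hi
      omega), map_zero]
    symm
    refine Finset.sum_eq_zero fun k hk => ?_
    rw [Polynomial.coeff_C_mul, Polynomial.coeff_X_pow, if_neg (fun h => hi (by rw [h]; exact hk)),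
      mul_zero]

/-- The leading coefficient of a form on a line. -/
lemma coeff_ln_homog {n : ℕ} : ∀ (d : ℕ) {φ : Pl n}, φ.IsHomogeneous d → ∀ w v : Fin n → ℝ,
    (ln φ w v).coeff d = MvPolynomial.eval v φ := by
  intro d
  induction d with
  | zero =>
    intro φ h w v
    have h1 := MvPolynomial.totalDegree_eq_zero_iff_eq_C.1 (Nat.le_zero.1 h.totalDegree_le)
    rw [h1, ln_C, Polynomial.coeff_C_zero, MvPolynomial.eval_C]
  | succ d ih =>
    intro φ h w v
    have h1 : ((ln φ w v).derivative).coeff d = (ln φ w v).coeff (d + 1) * ((d : ℝ) + 1) := by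
      rw [Polynomial.coeff_derivative]
    have h2 : ((ln φ w v).derivative).coeff d = MvPolynomial.eval v (dD v φ) := by
      rw [ln_derivative', ih]
      have h3 := dD_homog h v
      exact h3
    have h3 : MvPolynomial.eval v (dD v φ) = ((d : ℝ) + 1) * MvPolynomial.eval v φ := by
      have h4 := h.sum_X_mul_pderiv
      have h5 := congrArg (MvPolynomial.eval v) h4
      rw [map_sum, map_nsmul, nsmul_eq_mul] at h5
      rw [eval_dD]
      push_cast at h5
      rw [← h5]
      refine Finset.sum_congr rfl fun i _ => ?_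
      rw [map_mul, MvPolynomial.eval_X]
    rw [h1, h3] at h2
    have h4 : ((d : ℝ) + 1) ≠ 0 := by positivity
    exact mul_right_cancel₀ h4 (by rw [h2]; ring)

/-! ### Taylor polynomials -/

/-- The Taylor polynomial of degree `< j` of `P` at `a`. -/
noncomputable def tayl {n : ℕ} (j : ℕ) (P : Pl n) (a : Fin n → ℝ) : Pl n :=
  shift (fun i => - a i)
    (∑ i ∈ range j, MvPolynomial.homogeneousComponent i (shift a P))

lemma tayl_eval {n : ℕ} (j : ℕ) (P : Pl n) (a y : Fin n → ℝ) :
    MvPolynomial.eval y (tayl j P a) = ∑ i ∈ range j, (ln P a (fun l => y l - a l)).coeff i := by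
  unfold tayl
  rw [eval_shift, map_sum]
  refine Finset.sum_congr rfl fun i _ => ?_
  rw [eval_hom, ln_shift]
  rfl

lemma tayl_deg {n j : ℕ} (hj : 1 ≤ j) (P : Pl n) (a : Fin n → ℝ) :
    (tayl j P a).totalDegree < j := by
  unfold tayl
  refine (totalDegree_shift _ _).trans_lt ?_
  refine lt_of_le_of_lt (MvPolynomial.totalDegree_finsetSum_le (d := j - 1) fun i hi => ?_)
    (by omega)
  refine (MvPolynomial.homogeneousComponent_isHomogeneous i _).totalDegree_le.trans ?_
  rw [Finset.mem_range] at hi
  omega

lemma tayl_add {n : ℕ} (j : ℕ) (P Q : Pl n) (a y : Fin n → ℝ) :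
    MvPolynomial.eval y (tayl j (P + Q) a) =
      MvPolynomial.eval y (tayl j P a) + MvPolynomial.eval y (tayl j Q a) := by
  rw [tayl_eval, tayl_eval, tayl_eval, ← Finset.sum_add_distrib]
  refine Finset.sum_congr rfl fun i _ => ?_
  rw [ln_add, Polynomial.coeff_add]

/-- **The jets along a line.** -/
theorem tayl_leg {n j : ℕ} (P : Pl n) (a E y : Fin n → ℝ) (s : ℝ) :
    MvPolynomial.eval y (tayl (j + 1) P (fun l => a l + s * E l)) -
      MvPolynomial.eval y (tayl (j + 1) P a) =
    ∫ t in (0 : ℝ)..s,
      (ln (dD E P) (fun l => a l + t * E l) (fun l => y l - a l - t * E l)).coeff j := by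
  set f : ℝ → ℝ := fun t => ∑ i ∈ range (j + 1),
    (ln P (fun l => a l + t * E l) (fun l => y l - a l - t * E l)).coeff i with hf
  have hd : ∀ t, HasDerivAt f
      ((ln (dD E P) (fun l => a l + t * E l) (fun l => y l - a l - t * E l)).coeff j) t := by
    intro t
    have h1 := HasDerivAt.fun_sum (u := range (j + 1)) fun i _ =>
      hasDeriv_coeff P a (fun l => y l - a l) E t i
    rwa [sum_coeff_one_sub] at h1
  have hc : Continuous fun t : ℝ =>
      (ln (dD E P) (fun l => a l + t * E l) (fun l => y l - a l - t * E l)).coeff j := by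
    rw [continuous_iff_continuousAt]
    intro t
    exact (hasDeriv_coeff (dD E P) a (fun l => y l - a l) E t j).continuousAt
  have h := intervalIntegral.integral_eq_sub_of_hasDerivAt (a := 0) (b := s)
    (fun t _ => hd t) (hc.intervalIntegrable _ _)
  rw [h, tayl_eval, tayl_eval]
  have e1 : (fun l => y l - (a l + s * E l)) = fun l => y l - a l - s * E l := by
    funext l
    ring
  have e2 : f 0 = ∑ i ∈ range (j + 1), (ln P a (fun l => y l - a l)).coeff i := by
    simp only [hf, zero_mul, add_zero, sub_zero]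
  rw [e1, e2]

end Pool.BFL
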