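import Pool.Agent.H19.BFL.Stmts

/-!
# Selection

If two conditionally independent copies given `g` satisfy `A` with small probability, then there is
a selection `σ` such that `A (σ (g ω)) ω` has small probability.
-/

set_option autoImplicit false

namespace Pool.BFL

open Finset Real
open Pool.Agent.H49.Ent Pool.Agent.H32.Dense Pool.STK Pool.KS3

section

variable {Ω G : Type} [Fintype Ω] {p : Ω → ℝ}

open Classical in
/-- The mass of the points of the fibre of `ω` which are in relation `A` with `ω`. -/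
noncomputable def fc (p : Ω → ℝ) (g : Ω → G) (A : Ω → Ω → Prop) (ω : Ω) : ℝ :=
  ∑ ω', if g ω = g ω' ∧ A ω ω' then p ω' else 0

lemma P2_eq_fc (p : Ω → ℝ) (g : Ω → G) (A : Ω → Ω → Prop) :
    P2 p g A = ∑ ω, p ω / law p g (g ω) * fc p g A ω := by
  unfold P2 fc
  refine Finset.sum_congr rfl fun ω _ => ?_
  rw [Finset.mul_sum]
  refine Finset.sum_congr rfl fun ω' _ => ?_
  split_ifs
  · ring
  · ring

lemma Pb_eq_P2 (hp : IsLaw p) (g : Ω → G) (B : G → Ω → Prop) :
    Pb p (fun ω => B (g ω) ω) = P2 p g (fun ω ω' => B (g ω) ω') := by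
  classical
  unfold Pb P2
  rw [Finset.sum_comm]
  refine Finset.sum_congr rfl fun ω' _ => ?_
  by_cases hB : B (g ω') ω'
  · rw [if_pos hB]
    by_cases h0 : p ω' = 0
    · rw [h0]
      symm
      refine Finset.sum_eq_zero fun ω _ => ?_
      split_ifs
      · ring
      · rfl
    · have h1 : 0 < p ω' := lt_of_le_of_ne (hp.nonneg ω') (Ne.symm h0)
      have h2 := law_pos hp.nonneg g h1
      have h3 : ∀ ω, (if g ω = g ω' ∧ B (g ω) ω' then p ω * p ω' / law p g (g ω) else 0) =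
          (if g ω = g ω' then p ω else 0) * (p ω' / law p g (g ω')) := by
        intro ω
        by_cases h : g ω = g ω'
        · rw [if_pos ⟨h, by rw [h]; exact hB⟩, if_pos h, h]
          ring
        · rw [if_neg (fun h' => h h'.1), if_neg h, zero_mul]
      rw [Finset.sum_congr rfl fun ω _ => h3 ω, ← Finset.sum_mul]
      have h4 : ∑ ω, (if g ω = g ω' then p ω else 0) = law p g (g ω') := by
        unfold law
        rfl
      rw [h4]
      field_simp
  · rw [if_neg hB]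
    symm
    refine Finset.sum_eq_zero fun ω _ => ?_
    rw [if_neg]
    rintro ⟨h1, h2⟩
    rw [h1] at h2
    exact hB h2

/-- **Selection** (row SEL). -/
theorem sel (hp : IsLaw p) (g : Ω → G) (A : Ω → Ω → Prop) :
    ∃ σ : G → Ω, (∀ ω, 0 < p ω → 0 < p (σ (g ω)) ∧ g (σ (g ω)) = g ω) ∧
      Pb p (fun ω => A (σ (g ω)) ω) ≤ P2 p g A := by
  classical
  have : Nonempty Ω := by
    by_contra h
    rw [not_nonempty_iff] at h
    have h1 := hp.sum_one
    rw [Finset.univ_eq_empty, Finset.sum_empty] at h1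
    exact zero_ne_one h1
  have hex : ∀ x : G, ∃ ω₀ : Ω, ∀ ω, g ω = x → 0 < p ω →
      (0 < p ω₀ ∧ g ω₀ = x) ∧ fc p g A ω₀ ≤ fc p g A ω := by
    intro x
    set S : Finset Ω := univ.filter fun ω => g ω = x ∧ 0 < p ω with hS
    rcases S.eq_empty_or_nonempty with h | h
    · refine ⟨Classical.arbitrary Ω, fun ω h1 h2 => ?_⟩
      have h3 : ω ∈ S := Finset.mem_filter.2 ⟨Finset.mem_univ _, h1, h2⟩
      rw [h] at h3
      exact absurd h3 (Finset.notMem_empty _)
    · obtain ⟨ω₀, h1, h2⟩ := S.exists_min_image (fc p g A) h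
      refine ⟨ω₀, fun ω h3 h4 => ?_⟩
      have h5 := (Finset.mem_filter.1 h1).2
      exact ⟨⟨h5.2, h5.1⟩, h2 ω (Finset.mem_filter.2 ⟨Finset.mem_univ _, h3, h4⟩)⟩
  choose σ hσ using hex
  refine ⟨σ, fun ω hω => (hσ (g ω) ω rfl hω).1, ?_⟩
  have e1 : Pb p (fun ω => A (σ (g ω)) ω) = P2 p g (fun ω ω' => A (σ (g ω)) ω') :=
    Pb_eq_P2 hp g (fun x ω => A (σ x) ω)
  rw [e1, P2_eq_fc, P2_eq_fc]
  refine Finset.sum_le_sum fun ω _ => ?_
  by_cases h0 : p ω = 0
  · rw [h0]
    simp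
  · have h1 : 0 < p ω := lt_of_le_of_ne (hp.nonneg ω) (Ne.symm h0)
    obtain ⟨⟨_, h2⟩, h3⟩ := hσ (g ω) ω rfl h1
    have h4 : fc p g (fun ω ω' => A (σ (g ω)) ω') ω = fc p g A (σ (g ω)) := by
      unfold fc
      rw [h2]
    rw [h4]
    exact mul_le_mul_of_nonneg_left h3 (div_nonneg h1.le (law_nonneg hp.nonneg _ _))

lemma Pb_nonneg (hp : IsLaw p) (A : Ω → Prop) : 0 ≤ Pb p A := by
  classical
  unfold Pb
  refine Finset.sum_nonneg fun ω _ => ?_
  split_ifs
  · exact hp.nonneg ω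
  · exact le_rfl

lemma Pb_mono (hp : IsLaw p) {A B : Ω → Prop} (h : ∀ ω, 0 < p ω → A ω → B ω) :
    Pb p A ≤ Pb p B := by
  classical
  unfold Pb
  refine Finset.sum_le_sum fun ω _ => ?_
  by_cases h0 : p ω = 0
  · rw [h0, ite_self, ite_self]
  · have h1 : 0 < p ω := lt_of_le_of_ne (hp.nonneg ω) (Ne.symm h0)
    by_cases hA : A ω
    · rw [if_pos hA, if_pos (h ω h1 hA)]
    · rw [if_neg hA]
      split_ifs
      · exact h1.le
      · exact le_rfl

lemma Pb_add_not (hp : IsLaw p) (A : Ω → Prop) : Pb p A + Pb p (fun ω => ¬ A ω) = 1 := by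
  classical
  unfold Pb
  rw [← Finset.sum_add_distrib, ← hp.sum_one]
  refine Finset.sum_congr rfl fun ω _ => ?_
  by_cases hA : A ω
  · rw [if_pos hA, if_neg (not_not.2 hA), add_zero]
  · rw [if_neg hA, if_pos hA, zero_add]

end

end Pool.BFL
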