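import Pool.Agent.H19.BFL.Stmts3
import Pool.Agent.H90.BFL.Sel

/-!
# Row CNL: probabilistic lemmas
-/

set_option autoImplicit false

namespace Pool.BFL.Cnl

open Finset Real
open Pool.Agent.H49.Ent Pool.Agent.H32.Dense Pool.STK Pool.KS3

section

variable {Ω G S T : Type} [Fintype Ω] {q : Ω → ℝ}

set_option linter.unusedSectionVars false

open Classical in
/-- The label `g` on the support of `q`; the other points are labelled by themselves. -/
noncomputable def tg (q : Ω → ℝ) (g : Ω → G) (ω : Ω) : G ⊕ Ω :=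
  if 0 < q ω then Sum.inl (g ω) else Sum.inr ω

lemma tg_pos (g : Ω → G) {ω : Ω} (h : 0 < q ω) : tg q g ω = Sum.inl (g ω) := by
  unfold tg
  rw [if_pos h]

lemma tg_neg (g : Ω → G) {ω : Ω} (h : ¬ 0 < q ω) : tg q g ω = Sum.inr ω := by
  unfold tg
  rw [if_neg h]

lemma tg_eq (g : Ω → G) {ω ω' : Ω} (h : tg q g ω = tg q g ω') :
    (0 < q ω ∧ 0 < q ω' ∧ g ω = g ω') ∨ ω = ω' := by
  by_cases h1 : 0 < q ω
  · by_cases h2 : 0 < q ω'
    · rw [tg_pos g h1, tg_pos g h2] at h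
      exact Or.inl ⟨h1, h2, Sum.inl.inj h⟩
    · rw [tg_pos g h1, tg_neg g h2] at h
      exact absurd h (by simp)
  · by_cases h2 : 0 < q ω'
    · rw [tg_neg g h1, tg_pos g h2] at h
      exact absurd h (by simp)
    · rw [tg_neg g h1, tg_neg g h2] at h
      exact Or.inr (Sum.inr.inj h)

lemma det_tg (g : Ω → G) : Det q g (tg q g) := by
  intro ω ω' h h' hg
  rw [tg_pos g h, tg_pos g h', hg]

lemma det_tg' (g : Ω → G) : Det q (tg q g) g := by
  intro ω ω' h h' hg
  rw [tg_pos g h, tg_pos g h'] at hg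
  exact Sum.inl.inj hg

lemma law_tg (hq : IsLaw q) (g : Ω → G) {ω : Ω} (h : 0 < q ω) :
    law q (tg q g) (tg q g ω) = law q g (g ω) := by
  classical
  unfold law
  refine Finset.sum_congr rfl fun ω' _ => ?_
  by_cases h' : 0 < q ω'
  · rw [tg_pos g h, tg_pos g h']
    by_cases h2 : g ω' = g ω
    · rw [if_pos (by rw [h2]), if_pos h2]
    · rw [if_neg (fun h3 => h2 (Sum.inl.inj h3)), if_neg h2]
  · have h0 : q ω' = 0 := le_antisymm (not_lt.1 h') (hq.nonneg ω')
    rw [h0, ite_self, ite_self]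

lemma P2_tg (hq : IsLaw q) (g : Ω → G) (A : Ω → Ω → Prop) :
    P2 q (tg q g) A = P2 q g A := by
  classical
  unfold P2
  refine Finset.sum_congr rfl fun ω _ => Finset.sum_congr rfl fun ω' _ => ?_
  by_cases h : 0 < q ω
  · by_cases h' : 0 < q ω'
    · rw [law_tg hq g h]
      have h1 : tg q g ω = tg q g ω' ↔ g ω = g ω' := by
        rw [tg_pos g h, tg_pos g h']
        exact ⟨fun h2 => Sum.inl.inj h2, fun h2 => by rw [h2]⟩
      by_cases h2 : g ω = g ω' ∧ A ω ω'
      · rw [if_pos h2, if_pos ⟨h1.2 h2.1, h2.2⟩]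
      · rw [if_neg h2, if_neg (fun h3 => h2 ⟨h1.1 h3.1, h3.2⟩)]
    · have h0 : q ω' = 0 := le_antisymm (not_lt.1 h') (hq.nonneg ω')
      rw [h0]
      simp
  · have h0 : q ω = 0 := le_antisymm (not_lt.1 h) (hq.nonneg ω)
    rw [h0]
    simp

lemma P2_mono (hq : IsLaw q) (g : Ω → G) {A B : Ω → Ω → Prop}
    (h : ∀ ω ω', 0 < q ω → 0 < q ω' → g ω = g ω' → A ω ω' → B ω ω') :
    P2 q g A ≤ P2 q g B := by
  classical
  unfold P2
  refine Finset.sum_le_sum fun ω _ => Finset.sum_le_sum fun ω' _ => ?_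
  have hnn : 0 ≤ q ω * q ω' / law q g (g ω) :=
    div_nonneg (mul_nonneg (hq.nonneg ω) (hq.nonneg ω')) (law_nonneg hq.nonneg _ _)
  by_cases hA : g ω = g ω' ∧ A ω ω'
  · by_cases h1 : 0 < q ω
    · by_cases h2 : 0 < q ω'
      · rw [if_pos hA, if_pos ⟨hA.1, h ω ω' h1 h2 hA.1 hA.2⟩]
      · have h0 : q ω' = 0 := le_antisymm (not_lt.1 h2) (hq.nonneg ω')
        rw [h0]
        simp
    · have h0 : q ω = 0 := le_antisymm (not_lt.1 h1) (hq.nonneg ω)
      rw [h0]
      simp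
  · rw [if_neg hA]
    split_ifs
    · exact hnn
    · exact le_rfl

lemma P2_or (hq : IsLaw q) (g : Ω → G) (A B : Ω → Ω → Prop) :
    P2 q g (fun ω ω' => A ω ω' ∨ B ω ω') ≤ P2 q g A + P2 q g B := by
  classical
  unfold P2
  rw [← Finset.sum_add_distrib]
  refine Finset.sum_le_sum fun ω _ => ?_
  rw [← Finset.sum_add_distrib]
  refine Finset.sum_le_sum fun ω' _ => ?_
  have hnn : 0 ≤ q ω * q ω' / law q g (g ω) :=
    div_nonneg (mul_nonneg (hq.nonneg ω) (hq.nonneg ω')) (law_nonneg hq.nonneg _ _)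
  by_cases hg : g ω = g ω'
  · by_cases hA : A ω ω'
    · rw [if_pos ⟨hg, Or.inl hA⟩, if_pos ⟨hg, hA⟩]
      split_ifs <;> linarith
    · by_cases hB : B ω ω'
      · rw [if_pos ⟨hg, Or.inr hB⟩, if_neg (fun h => hA h.2), if_pos ⟨hg, hB⟩, zero_add]
      · rw [if_neg (fun h => h.2.elim hA hB), if_neg (fun h => hA h.2), if_neg (fun h => hB h.2),
          add_zero]
  · rw [if_neg (fun h => hg h.1), if_neg (fun h => hg h.1), if_neg (fun h => hg h.1), add_zero]

lemma P2_snd (hq : IsLaw q) (g : Ω → G) (B : Ω → Prop) :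
    P2 q g (fun _ ω' => B ω') = Pb q B :=
  (Pb_eq_P2 hq g (fun _ ω => B ω)).symm

lemma P2_fst (hq : IsLaw q) (g : Ω → G) (B : Ω → Prop) :
    P2 q g (fun ω _ => B ω) = Pb q B := by
  classical
  rw [P2_eq_fc]
  unfold Pb
  refine Finset.sum_congr rfl fun ω _ => ?_
  by_cases h0 : q ω = 0
  · rw [h0, zero_div, zero_mul, ite_self]
  · have h1 : 0 < q ω := lt_of_le_of_ne (hq.nonneg ω) (Ne.symm h0)
    have h2 := law_pos hq.nonneg g h1
    by_cases hB : B ω
    · rw [if_pos hB]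
      have h3 : fc q g (fun ω _ => B ω) ω = law q g (g ω) := by
        unfold fc law
        refine Finset.sum_congr rfl fun ω' _ => ?_
        by_cases h4 : g ω = g ω'
        · rw [if_pos ⟨h4, hB⟩, if_pos h4.symm]
        · rw [if_neg (fun h => h4 h.1), if_neg (Ne.symm h4)]
      rw [h3]
      field_simp
    · rw [if_neg hB]
      have h3 : fc q g (fun ω _ => B ω) ω = 0 := by
        unfold fc
        refine Finset.sum_eq_zero fun ω' _ => ?_
        rw [if_neg (fun h => hB h.2)]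
      rw [h3, mul_zero]

/-- A property of pairs which follows from a property of both members. -/
lemma P2_pair (hq : IsLaw q) (g : Ω → G) (A : Ω → Ω → Prop) (Gd : Ω → Prop)
    (h : ∀ ω ω', 0 < q ω → 0 < q ω' → g ω = g ω' → Gd ω → Gd ω' → A ω ω') :
    P2 q g (fun ω ω' => ¬ A ω ω') ≤ 2 * Pb q (fun ω => ¬ Gd ω) := by
  have h1 := P2_mono hq g (A := fun ω ω' => ¬ A ω ω') (B := fun ω ω' => ¬ Gd ω ∨ ¬ Gd ω')
    (fun ω ω' h1 h2 h3 h4 => by
      by_contra h5
      push Not at h5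
      exact h4 (h ω ω' h1 h2 h3 h5.1 h5.2))
  have h2 := P2_or hq g (fun ω _ => ¬ Gd ω) (fun _ ω' => ¬ Gd ω')
  rw [P2_fst hq, P2_snd hq] at h2
  linarith

/-! ### Time -/

/-- Full time digits of a window. -/
lemma time_full {Λ : Type} (hq : IsLaw q) {J u v : ℕ} (t : Ω → ℕ) (l : Ω → Λ) {κ : ℝ}
    (huv : u ≤ v) (hv : v ≤ J) (ht : ∀ ω, t ω < 2 ^ J)
    (h : J * Real.log 2 - κ ≤ CH q t l) :
    ((v : ℝ) - u) * Real.log 2 - κ ≤
      CH q (fun ω => t ω / 2 ^ (J - v)) (fun ω => (l ω, t ω / 2 ^ (J - u))) := by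
  have h1 := CH_le_add hq.nonneg t (fun ω => t ω / 2 ^ (J - u)) l
  have h2 := CH_le_add hq.nonneg t (fun ω => t ω / 2 ^ (J - v))
    (fun ω => (t ω / 2 ^ (J - u), l ω))
  have h3 : CH q (fun ω => t ω / 2 ^ (J - u)) l ≤ u * Real.log 2 := by
    have h4 := CH_le_card hq.nonneg hq.sum_one (fun ω => t ω / 2 ^ (J - u)) l
      (fun _ => range (2 ^ u)) (fun ω _ => by
        rw [Finset.mem_range]
        refine (Nat.div_lt_iff_lt_mul (by positivity)).2 ?_
        rw [← pow_add, Nat.add_sub_cancel' (by omega)]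
        exact ht ω)
    refine h4.trans ?_
    have h5 : Ex q (fun _ => Real.log (((range (2 ^ u)).card : ℕ) : ℝ)) = u * Real.log 2 := by
      unfold Ex
      rw [← Finset.sum_mul, hq.sum_one, one_mul, Finset.card_range]
      push_cast
      rw [Real.log_pow]
    exact h5.le
  have h4 : CH q t (fun ω => (t ω / 2 ^ (J - v), (t ω / 2 ^ (J - u), l ω))) ≤
      ((J - v : ℕ) : ℝ) * Real.log 2 := by
    have h4 := CH_le_card hq.nonneg hq.sum_one t
      (fun ω => (t ω / 2 ^ (J - v), (t ω / 2 ^ (J - u), l ω)))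
      (fun x => Finset.Ico (x.1 * 2 ^ (J - v)) (x.1 * 2 ^ (J - v) + 2 ^ (J - v))) (fun ω _ => by
        rw [Finset.mem_Ico]
        refine ⟨Nat.div_mul_le_self _ _, ?_⟩
        have h6 : t ω < (t ω / 2 ^ (J - v) + 1) * 2 ^ (J - v) :=
          (Nat.div_lt_iff_lt_mul (by positivity)).1 (Nat.lt_succ_self _)
        linarith)
    refine h4.trans (le_of_eq ?_)
    unfold Ex
    have h5 : ∀ ω, q ω * Real.log (((Finset.Ico (t ω / 2 ^ (J - v) * 2 ^ (J - v))
        (t ω / 2 ^ (J - v) * 2 ^ (J - v) + 2 ^ (J - v))).card : ℕ) : ℝ) =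
        q ω * (((J - v : ℕ) : ℝ) * Real.log 2) := by
      intro ω
      rw [Nat.card_Ico, Nat.add_sub_cancel_left]
      push_cast
      rw [Real.log_pow]
    rw [Finset.sum_congr rfl fun ω _ => h5 ω, ← Finset.sum_mul, hq.sum_one, one_mul]
  have h5 : CH q (fun ω => t ω / 2 ^ (J - v)) (fun ω => (t ω / 2 ^ (J - u), l ω)) =
      CH q (fun ω => t ω / 2 ^ (J - v)) (fun ω => (l ω, t ω / 2 ^ (J - u))) := by
    refine CH_congr hq.nonneg ?_ ?_ ?_ ?_
    · intro ω ω' _ _ h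
      exact (Prod.ext_iff.1 h).1
    · intro ω ω' _ _ h
      exact (Prod.ext_iff.1 h).1
    · intro ω ω' _ _ h
      have := Prod.ext_iff.1 h
      exact Prod.ext this.2 this.1
    · intro ω ω' _ _ h
      have := Prod.ext_iff.1 h
      exact Prod.ext this.2 this.1
  rw [h5] at h2
  have h6 : ((J - v : ℕ) : ℝ) = J - v := by rw [Nat.cast_sub hv]
  rw [h6] at h4
  linarith

/-! ### Span -/

open Classical in
/-- The exceptional mass of a block from the exceptional masses of the points. -/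
lemma nc_block {Z B : Type} (hq : IsLaw q) (pt : Ω → Z) (bk : Ω → B) (hpb : Det q pt bk)
    (e : Z → ℝ) (he : ∀ x, 0 ≤ e x) (Bad : Ω → Prop)
    (h : ∀ ω, 0 < q ω → Pb q (fun ω' => pt ω' = pt ω ∧ Bad ω') ≤ e (pt ω) * law q pt (pt ω))
    (ω : Ω) :
    Pb q (fun ω' => bk ω' = bk ω ∧ Bad ω') ≤
      ∑ ω', if bk ω' = bk ω then q ω' * e (pt ω') else 0 := by
  -- fibre over the values of `pt`
  have h1 : ∀ f : Ω → ℝ, ∑ ω', f ω' =
      ∑ x ∈ univ.image pt, ∑ ω', if pt ω' = x then f ω' else 0 := by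
    intro f
    rw [Finset.sum_comm]
    refine Finset.sum_congr rfl fun ω' _ => ?_
    rw [Finset.sum_ite_eq (univ.image pt) (pt ω') (fun _ => f ω'),
      if_pos (Finset.mem_image_of_mem _ (Finset.mem_univ _))]
  obtain ⟨Q, hQ⟩ : ∃ Q : Ω → Prop, Q = fun ω' => bk ω' = bk ω ∧ Bad ω' := ⟨_, rfl⟩
  rw [← hQ]
  have hL : Pb q Q = ∑ x ∈ univ.image pt, ∑ ω',
      if pt ω' = x then (if Q ω' then q ω' else 0) else 0 := h1 (fun ω' => if Q ω' then q ω' else 0)
  have hR : (∑ ω', if bk ω' = bk ω then q ω' * e (pt ω') else 0) = ∑ x ∈ univ.image pt, ∑ ω',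
      if pt ω' = x then (if bk ω' = bk ω then q ω' * e (pt ω') else 0) else 0 :=
    h1 (fun ω' => if bk ω' = bk ω then q ω' * e (pt ω') else 0)
  have hQ1 : ∀ ω', Q ω' → bk ω' = bk ω ∧ Bad ω' := fun ω' hω' => by rw [hQ] at hω'; exact hω'
  rw [hL, hR]
  refine Finset.sum_le_sum fun x _ => ?_
  by_cases hx : ∃ ω₀, 0 < q ω₀ ∧ pt ω₀ = x ∧ bk ω₀ = bk ω
  · obtain ⟨ω₀, h2, h3, h4⟩ := hx
    have h5 : ∑ ω', (if pt ω' = x then (if Q ω' then q ω' else 0) else 0) ≤
        Pb q (fun ω' => pt ω' = pt ω₀ ∧ Bad ω') := by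
      refine Finset.sum_le_sum fun ω' _ => ?_
      by_cases h6 : pt ω' = x
      · rw [if_pos h6]
        by_cases h7 : Q ω'
        · rw [if_pos h7, if_pos ⟨by rw [h6, h3], (hQ1 ω' h7).2⟩]
        · rw [if_neg h7]
          split_ifs
          · exact hq.nonneg ω'
          · exact le_rfl
      · rw [if_neg h6]
        split_ifs
        · exact hq.nonneg ω'
        · exact le_rfl
    refine h5.trans ((h ω₀ h2).trans (le_of_eq ?_))
    unfold law
    rw [Finset.mul_sum]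
    refine Finset.sum_congr rfl fun ω' _ => ?_
    rw [h3]
    by_cases h6 : pt ω' = x
    · rw [if_pos h6, if_pos h6]
      by_cases h7 : q ω' = 0
      · rw [h7]
        simp
      · have h8 : 0 < q ω' := lt_of_le_of_ne (hq.nonneg ω') (Ne.symm h7)
        have h9 : bk ω' = bk ω := by
          rw [← h4]
          exact hpb ω' ω₀ h8 h2 (by rw [h6, h3])
        rw [if_pos h9, h6]
        ring
    · rw [if_neg h6, if_neg h6, mul_zero]
  · have h2 : ∀ ω', (if pt ω' = x then (if Q ω' then q ω' else 0) else 0) = 0 := by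
      intro ω'
      by_cases h6 : pt ω' = x
      · rw [if_pos h6]
        by_cases h7 : Q ω'
        · rw [if_pos h7]
          by_contra h8
          exact hx ⟨ω', lt_of_le_of_ne (hq.nonneg ω') (Ne.symm h8), h6, (hQ1 ω' h7).1⟩
        · rw [if_neg h7]
      · rw [if_neg h6]
    rw [Finset.sum_congr rfl fun ω' _ => h2 ω', Finset.sum_const_zero]
    refine Finset.sum_nonneg fun ω' _ => ?_
    split_ifs
    · exact mul_nonneg (hq.nonneg ω') (he _)
    · exact le_rfl
    · exact le_rfl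

end

end Pool.BFL.Cnl
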