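import Pool.Agent.H90.BFL.CnlC

/-!
# Rounding of a polynomial in a cell

The coefficients of `P (y + 2 ^ (-s) ·)` in units `2 ^ (-q)`, rounded; reconstruction of the
polynomial from the rounded coefficients.
-/

set_option autoImplicit false

namespace Pool.BFL.Clo

open Finset Real Pool.BFL.Cnl
open Pool.Agent.H36.KBX (bx mem_bx support_bx eval_bound coef_bound coeff_pderiv_bound)

/-- The scaled coefficients of `P` at `y`. -/
noncomputable def rc {n : ℕ} (P : Pl n) (y : Fin n → ℝ) (s q : ℕ) (α : Fin n →₀ ℕ) : ℝ :=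
  2 ^ q * (sc P y (1 / 2 ^ s) 1).coeff α

lemma sc_sub {n : ℕ} (G H : Pl n) (y : Fin n → ℝ) (ρ μ : ℝ) :
    sc G y ρ μ - sc H y ρ μ = sc (G - H) y ρ μ := by
  unfold sc
  rw [map_sub, mul_sub]

/-- Growth of a polynomial. -/
lemma grow' (n K : ℕ) : ∃ C : ℝ, 0 ≤ C ∧ ∀ (P : Pl n) (a y : Fin n → ℝ) (r ρ δ : ℝ),
    P.totalDegree ≤ K → 0 ≤ r → 1 ≤ ρ →
    (∀ b : Fin n → ℝ, (∀ i, |b i - a i| ≤ r) → |MvPolynomial.eval b P| ≤ δ) →
    (∀ i, |y i - a i| ≤ ρ * r) → |MvPolynomial.eval y P| ≤ C * ρ ^ K * δ := by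
  obtain ⟨C, hC0, hC⟩ := tayl_small n K
  refine ⟨C, hC0, ?_⟩
  intro P a y r ρ δ hP hr hρ hδ hy
  have h := hC (K + 1) P a y r ρ δ hP hr hρ hδ hy
  rwa [tayl_self (Nat.lt_succ_of_le hP)] at h

/-- Labels which agree on a cube have almost the same scaled coefficients. -/
theorem rc_close (n K : ℕ) : ∃ C : ℝ, 0 ≤ C ∧ ∀ (G H : Pl n) (b₀ y : Fin n → ℝ) (a s q : ℕ)
    (δ : ℝ), G.totalDegree ≤ K → H.totalDegree ≤ K → s ≤ a →
    (∀ b : Fin n → ℝ, (∀ i, |b i - b₀ i| ≤ 1 / 2 ^ a) →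
      |MvPolynomial.eval b G - MvPolynomial.eval b H| ≤ δ) →
    (∀ i, |b₀ i - y i| ≤ 1 / 2 ^ s) → ∀ α,
    |rc G y s q α - rc H y s q α| ≤ C * 2 ^ (K * (a - s)) * (2 ^ q * δ) := by
  obtain ⟨C₁, hC₁0, hC₁⟩ := grow' n K
  obtain ⟨C₂, hC₂0, hC₂⟩ := coef_bound n K
  refine ⟨C₂ * (C₁ * 2 ^ K), by positivity, ?_⟩
  intro G H b₀ y a s q δ hG hH hsa hGH hy α
  have hd : (G - H).totalDegree ≤ K :=
    (MvPolynomial.totalDegree_sub _ _).trans (max_le hG hH)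
  have e1 : (1 : ℝ) / 2 ^ s = 2 ^ (a - s) * (1 / 2 ^ a) := by
    have h2 : (2 : ℝ) ^ a = 2 ^ (a - s) * 2 ^ s := by
      rw [← pow_add, Nat.sub_add_cancel hsa]
    rw [h2]
    field_simp
  have h1 : ∀ v : Fin n → ℝ, (∀ i, |v i| ≤ 1) →
      |MvPolynomial.eval v (sc (G - H) y (1 / 2 ^ s) 1)| ≤ C₁ * (2 * 2 ^ (a - s)) ^ K * δ := by
    intro v hv
    rw [sc_eval, one_mul]
    refine hC₁ (G - H) b₀ _ (1 / 2 ^ a) (2 * 2 ^ (a - s)) δ hd (by positivity) ?_ ?_ ?_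
    · have : (1 : ℝ) ≤ 2 ^ (a - s) := one_le_pow₀ (by norm_num)
      linarith
    · intro b hb
      rw [map_sub]
      exact hGH b hb
    · intro i
      have h2 : |y i + 1 / 2 ^ s * v i - b₀ i| ≤ |1 / 2 ^ s * v i| + |b₀ i - y i| := by
        have e2 : y i + 1 / 2 ^ s * v i - b₀ i = 1 / 2 ^ s * v i - (b₀ i - y i) := by ring
        rw [e2]
        exact abs_sub _ _
      have h3 : |1 / (2 : ℝ) ^ s * v i| ≤ 1 / 2 ^ s := by
        rw [abs_mul, abs_of_pos (show (0 : ℝ) < 1 / 2 ^ s by positivity)]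
        calc 1 / (2 : ℝ) ^ s * |v i| ≤ 1 / 2 ^ s * 1 :=
              mul_le_mul_of_nonneg_left (hv i) (by positivity)
          _ = _ := mul_one _
      calc |y i + 1 / 2 ^ s * v i - b₀ i| ≤ 2 * (1 / 2 ^ s) := by linarith [hy i]
        _ = 2 * 2 ^ (a - s) * (1 / 2 ^ a) := by rw [e1]; ring
  have h2 := hC₂ _ _ (sc_degree hd y (1 / 2 ^ s) 1) h1 α
  unfold rc
  rw [← mul_sub, ← MvPolynomial.coeff_sub, sc_sub, abs_mul,
    abs_of_pos (show (0 : ℝ) < 2 ^ q by positivity)]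
  refine (mul_le_mul_of_nonneg_left h2 (by positivity)).trans (le_of_eq ?_)
  rw [mul_pow, ← pow_mul, mul_comm (a - s) K]
  ring

open Classical in
/-- The polynomial with the given scaled coefficients. -/
noncomputable def rb {n : ℕ} (K : ℕ) (N : (Fin n →₀ ℕ) → ℤ) (θ : ℝ) (y : Fin n → ℝ)
    (s q : ℕ) : Pl n :=
  sc (∑ α ∈ (bx n K).filter (fun α => α.degree ≤ K),
    MvPolynomial.monomial α (((N α : ℝ) - θ) / 2 ^ q)) (fun i => -(2 ^ s * y i)) (2 ^ s) 1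

/-- The polynomial of the rounded coefficients in the scaled variable. -/
noncomputable def rb₀ {n : ℕ} (K : ℕ) (N : (Fin n →₀ ℕ) → ℤ) (θ : ℝ) (q : ℕ) : Pl n := by
  classical
  exact ∑ α ∈ (bx n K).filter (fun α => α.degree ≤ K),
    MvPolynomial.monomial α (((N α : ℝ) - θ) / 2 ^ q)

lemma rb₀_degree {n K : ℕ} (N : (Fin n →₀ ℕ) → ℤ) (θ : ℝ) (q : ℕ) :
    (rb₀ K N θ q).totalDegree ≤ K := by
  classical
  unfold rb₀
  refine MvPolynomial.totalDegree_finsetSum_le fun α hα => ?_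
  rw [Finset.mem_filter] at hα
  exact (MvPolynomial.totalDegree_monomial_le α _).trans hα.2

lemma rb₀_coeff {n K : ℕ} (N : (Fin n →₀ ℕ) → ℤ) (θ : ℝ) (q : ℕ) (α : Fin n →₀ ℕ)
    (hα : α.degree ≤ K) : (rb₀ K N θ q).coeff α = ((N α : ℝ) - θ) / 2 ^ q := by
  classical
  unfold rb₀
  rw [MvPolynomial.coeff_sum]
  have h1 : α ∈ (bx n K).filter (fun α => α.degree ≤ K) := by
    rw [Finset.mem_filter, mem_bx]
    exact ⟨fun i => (Finsupp.le_degree i α).trans hα, hα⟩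
  rw [Finset.sum_eq_single α (fun l' _ hl' => by rw [MvPolynomial.coeff_monomial, if_neg hl'])
    (fun h => absurd h1 h), MvPolynomial.coeff_monomial, if_pos rfl]

lemma rb_degree {n K : ℕ} (N : (Fin n →₀ ℕ) → ℤ) (θ : ℝ) (y : Fin n → ℝ) (s q : ℕ) :
    (rb K N θ y s q).totalDegree ≤ K :=
  sc_degree (rb₀_degree N θ q) _ _ _

/-- Scaled coefficients are close to the rounded ones. -/
lemma rb_CB {n K : ℕ} {G : Pl n} (hG : G.totalDegree ≤ K) (N : (Fin n →₀ ℕ) → ℤ) (θ : ℝ)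
    (y : Fin n → ℝ) (s q : ℕ) (hN : ∀ α, ⌊rc G y s q α + θ⌋ = N α) :
    CB (sc G y (1 / 2 ^ s) 1 - rb₀ K N θ q) (1 / 2 ^ q) := by
  intro α
  rw [MvPolynomial.coeff_sub]
  have hq : (0 : ℝ) < 2 ^ q := by positivity
  by_cases hα : α.degree ≤ K
  · rw [rb₀_coeff N θ q α hα, ← hN α]
    have h1 := Int.floor_le (rc G y s q α + θ)
    have h2 := Int.lt_floor_add_one (rc G y s q α + θ)
    have e1 : (sc G y (1 / 2 ^ s) 1).coeff α = rc G y s q α / 2 ^ q := by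
      unfold rc
      field_simp
    rw [e1, ← sub_div, abs_div, abs_of_pos hq]
    refine div_le_div_of_nonneg_right ?_ hq.le
    rw [abs_le]
    constructor <;> linarith
  · have h1 : (sc G y (1 / 2 ^ s) 1).coeff α = 0 := by
      refine MvPolynomial.coeff_eq_zero_of_totalDegree_lt ?_
      have h2 := sc_degree hG y (1 / 2 ^ s) 1
      have h3 : (∑ i ∈ α.support, α i) = α.degree := rfl
      rw [h3]
      omega
    have h2 : (rb₀ K N θ q).coeff α = 0 := by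
      refine MvPolynomial.coeff_eq_zero_of_totalDegree_lt ?_
      have h2 := rb₀_degree (K := K) N θ q
      have h3 : (∑ i ∈ α.support, α i) = α.degree := rfl
      rw [h3]
      omega
    rw [h1, h2, sub_self, abs_zero]
    positivity

lemma rb_eval {n K : ℕ} (N : (Fin n →₀ ℕ) → ℤ) (θ : ℝ) (y b : Fin n → ℝ) (s q : ℕ) :
    MvPolynomial.eval b (rb K N θ y s q) =
      MvPolynomial.eval (fun i => 2 ^ s * (b i - y i)) (rb₀ K N θ q) := by
  have h : rb K N θ y s q = sc (rb₀ K N θ q) (fun i => -(2 ^ s * y i)) (2 ^ s) 1 := rfl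
  rw [h, sc_eval, one_mul]
  congr 2
  funext i
  ring

/-- **Reconstruction**, values. -/
theorem rb_near (n K : ℕ) (R : ℝ) (hR : 1 ≤ R) : ∃ C : ℝ, 0 ≤ C ∧ ∀ (G : Pl n)
    (N : (Fin n →₀ ℕ) → ℤ) (θ : ℝ) (y b : Fin n → ℝ) (s q : ℕ), G.totalDegree ≤ K →
    (∀ α, ⌊rc G y s q α + θ⌋ = N α) → (∀ i, |b i - y i| ≤ R / 2 ^ s) →
    |MvPolynomial.eval b G - MvPolynomial.eval b (rb K N θ y s q)| ≤ C / 2 ^ q := by
  refine ⟨(bx n K).card * R ^ (n * K), by positivity, ?_⟩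
  intro G N θ y b s q hG hN hb
  have hs : (0 : ℝ) < 2 ^ s := by positivity
  have h1 := eval_bound (D := K) _ ((MvPolynomial.totalDegree_sub _ _).trans
    (max_le (sc_degree hG y (1 / 2 ^ s) 1) (rb₀_degree N θ q))) (1 / 2 ^ q) R hR
    (rb_CB hG N θ y s q hN) (fun i => 2 ^ s * (b i - y i)) fun i => by
      rw [abs_mul, abs_of_pos hs]
      calc (2 : ℝ) ^ s * |b i - y i| ≤ 2 ^ s * (R / 2 ^ s) :=
            mul_le_mul_of_nonneg_left (hb i) hs.le
        _ = R := by field_simp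
  rw [map_sub, sc_eval, one_mul] at h1
  have e1 : (fun i => y i + 1 / 2 ^ s * (2 ^ s * (b i - y i))) = b := by
    funext i
    field_simp
    ring
  rw [e1] at h1
  rw [rb_eval]
  refine h1.trans (le_of_eq ?_)
  ring

/-- **Reconstruction**, gradients. -/
theorem rb_grad (n K : ℕ) (R : ℝ) (hR : 1 ≤ R) : ∃ C : ℝ, 0 ≤ C ∧ ∀ (G : Pl n)
    (N : (Fin n →₀ ℕ) → ℤ) (θ : ℝ) (y b : Fin n → ℝ) (s q : ℕ), G.totalDegree ≤ K →
    (∀ α, ⌊rc G y s q α + θ⌋ = N α) → (∀ i, |b i - y i| ≤ R / 2 ^ s) → ∀ i,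
    |MvPolynomial.eval b (MvPolynomial.pderiv i G) -
      MvPolynomial.eval b (MvPolynomial.pderiv i (rb K N θ y s q))| ≤ C * 2 ^ s / 2 ^ q := by
  refine ⟨(bx n K).card * ((K + 1) * R ^ (n * K)), by positivity, ?_⟩
  intro G N θ y b s q hG hN hb i
  have hs : (0 : ℝ) < 2 ^ s := by positivity
  have hd := (MvPolynomial.totalDegree_sub _ _).trans
    (max_le (sc_degree hG y (1 / 2 ^ s) 1) (rb₀_degree (K := K) N θ q))
  have h0 := coeff_pderiv_bound _ hd _ (rb_CB hG N θ y s q hN) i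
  have h1 := eval_bound (D := K) _ ((Pool.Agent.H50.PW.totalDegree_pderiv_le _ i).trans hd) _ R hR
    h0 (fun i => 2 ^ s * (b i - y i)) fun i => by
      rw [abs_mul, abs_of_pos hs]
      calc (2 : ℝ) ^ s * |b i - y i| ≤ 2 ^ s * (R / 2 ^ s) :=
            mul_le_mul_of_nonneg_left (hb i) hs.le
        _ = R := by field_simp
  rw [map_sub, map_sub, sc_pderiv, one_mul] at h1
  have e1 : (fun i => y i + 1 / 2 ^ s * (2 ^ s * (b i - y i))) = b := by
    funext i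
    field_simp
    ring
  rw [e1] at h1
  have e2 : MvPolynomial.eval b (MvPolynomial.pderiv i (rb K N θ y s q)) =
      2 ^ s * MvPolynomial.eval (fun i => 2 ^ s * (b i - y i))
        (MvPolynomial.pderiv i (rb₀ K N θ q)) := by
    have h : rb K N θ y s q = sc (rb₀ K N θ q) (fun i => -(2 ^ s * y i)) (2 ^ s) 1 := rfl
    rw [h, sc_pderiv, one_mul]
    congr 3
    funext i
    ring
  have e3 : MvPolynomial.eval b (MvPolynomial.pderiv i G) -
      MvPolynomial.eval b (MvPolynomial.pderiv i (rb K N θ y s q)) =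
      2 ^ s * (1 / 2 ^ s * MvPolynomial.eval b (MvPolynomial.pderiv i G) -
        MvPolynomial.eval (fun i => 2 ^ s * (b i - y i)) (MvPolynomial.pderiv i (rb₀ K N θ q))) := by
    rw [e2]
    field_simp
  rw [e3, abs_mul, abs_of_pos hs]
  refine (mul_le_mul_of_nonneg_left h1 hs.le).trans (le_of_eq ?_)
  ring

end Pool.BFL.Clo
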