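import Pool.Agent.H90.BFL.Leg

/-!
# Closing the jets and comparison of jets
-/

set_option autoImplicit false

namespace Pool.BFL

open Finset Polynomial
open Pool.Agent.H36.KBX (shift eval_shift totalDegree_shift bx eval_bound coeff_pderiv_bound)

lemma hasDeriv_eval {n : ℕ} (H : Pl n) (z E : Fin n → ℝ) (t : ℝ) :
    HasDerivAt (fun t : ℝ => MvPolynomial.eval (fun l => z l - t * E l) H)
      (-MvPolynomial.eval (fun l => z l - t * E l) (dD E H)) t := by
  have h1 := (ln H z (fun l => -E l)).hasDerivAt t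
  rw [ln_derivative'] at h1
  have e1 : (fun t : ℝ => (ln H z (fun l => -E l)).eval t) =
      fun t : ℝ => MvPolynomial.eval (fun l => z l - t * E l) H := by
    funext t
    rw [ln_eval]
    refine congrArg (fun y => MvPolynomial.eval y H) ?_
    funext l
    ring
  have e2 : (ln (dD (fun l => -E l) H) z (fun l => -E l)).eval t =
      -MvPolynomial.eval (fun l => z l - t * E l) (dD E H) := by
    rw [ln_eval, eval_dD, eval_dD, ← Finset.sum_neg_distrib]
    refine Finset.sum_congr rfl fun i _ => ?_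
    have e3 : (fun l => z l + -E l * t) = fun l => z l - t * E l := by
      funext l
      ring
    rw [e3]
    ring
  have h2 : HasDerivAt (fun t : ℝ => (ln H z (fun l => -E l)).eval t)
      ((ln (dD (fun l => -E l) H) z (fun l => -E l)).eval t) t := h1
  rw [e1, e2] at h2
  exact h2

/-- The integral of a derivative along a leg. -/
theorem lg_dD {n : ℕ} (H : Pl n) (y E : Fin n → ℝ) (s : ℝ) (x : Fin n → ℝ) :
    lg (dD E H) y E s x = MvPolynomial.eval (fun l => x l - y l) H -
      MvPolynomial.eval (fun l => x l - y l - s * E l) H := by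
  unfold lg
  have h := intervalIntegral.integral_eq_sub_of_hasDerivAt (a := 0) (b := s)
    (fun t _ => hasDeriv_eval H (fun l => x l - y l) E t)
    ((cont_eval (dD E H) (fun l => x l - y l) E).neg.intervalIntegrable _ _)
  rw [intervalIntegral.integral_neg] at h
  have e : MvPolynomial.eval (fun l => x l - y l - 0 * E l) H =
      MvPolynomial.eval (fun l => x l - y l) H := by
    refine congrArg (fun y => MvPolynomial.eval y H) ?_
    funext l
    ring
  rw [e] at h
  linarith

lemma lg_sub {n : ℕ} (b b' : Pl n) (y E : Fin n → ℝ) (s : ℝ) (x : Fin n → ℝ) :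
    lg b y E s x - lg b' y E s x = lg (b - b') y E s x := by
  unfold lg
  rw [← intervalIntegral.integral_sub ((cont_eval b _ E).intervalIntegrable _ _)
    ((cont_eval b' _ E).intervalIntegrable _ _)]
  refine intervalIntegral.integral_congr fun t _ => ?_
  simp only [map_sub]

lemma lg_bound {n : ℕ} {b : Pl n} {y E : Fin n → ℝ} {s : ℝ} {x : Fin n → ℝ} {C e : ℝ}
    (hs : |s| ≤ 1) (he : 0 ≤ e) (hx : ∀ i, |x i - y i| ≤ C) (hE : ∀ i, |E i| ≤ C)
    (hb : ∀ v : Fin n → ℝ, (∀ i, |v i| ≤ 2 * C) → |MvPolynomial.eval v b| ≤ e) :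
    |lg b y E s x| ≤ e := by
  have h := intervalIntegral.norm_integral_le_of_norm_le_const (a := 0) (b := s)
    (f := fun τ => MvPolynomial.eval (fun i => x i - y i - τ * E i) b) (C := e) (by
      intro t ht
      rw [Real.norm_eq_abs]
      refine hb _ fun i => ?_
      have ht1 : |t| ≤ 1 := by
        rw [Set.mem_uIoc] at ht
        rw [abs_le] at hs ⊢
        rcases ht with ht | ht
        · constructor <;> linarith [ht.1, ht.2, hs.1, hs.2]
        · constructor <;> linarith [ht.1, ht.2, hs.1, hs.2]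
      have h1 : |t * E i| ≤ C := by
        rw [abs_mul]
        have hC : 0 ≤ C := le_trans (abs_nonneg _) (hE i)
        calc |t| * |E i| ≤ 1 * C := mul_le_mul ht1 (hE i) (abs_nonneg _) zero_le_one
          _ = C := one_mul _
      calc |x i - y i - t * E i| ≤ |x i - y i| + |t * E i| := abs_sub _ _
        _ ≤ 2 * C := by linarith [hx i])
  rw [Real.norm_eq_abs, sub_zero] at h
  exact h.trans (by
    calc e * |s| ≤ e * 1 := mul_le_mul_of_nonneg_left hs he
      _ = e := mul_one e)

/-- Lipschitz bound for a polynomial with bounded coefficients. -/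
lemma eval_lip (n D : ℕ) (R : ℝ) (hR : 1 ≤ R) : ∃ C : ℝ, 0 ≤ C ∧
    ∀ (P : Pl n) (c e : ℝ) (v v' : Fin n → ℝ), P.totalDegree ≤ D → CB P c → (∀ i, |v i| ≤ R) →
      (∀ i, |v' i| ≤ R) → (∀ i, |v' i - v i| ≤ e) →
      |MvPolynomial.eval v' P - MvPolynomial.eval v P| ≤ C * e * c := by
  refine ⟨(bx n D).card * (n * (D + 1)) * (3 * R) ^ (n * D), by positivity, ?_⟩
  intro P c e v v' hP hc hv hv' he
  have hc0 : 0 ≤ c := le_trans (abs_nonneg _) (hc 0)
  -- the segment
  set E : Fin n → ℝ := fun i => v i - v' i with hE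
  have hd : ∀ t ∈ Set.Icc (0 : ℝ) 1,
      HasDerivWithinAt (fun t : ℝ => MvPolynomial.eval (fun l => v l - t * E l) P)
        (-MvPolynomial.eval (fun l => v l - t * E l) (dD E P)) (Set.Icc (0 : ℝ) 1) t :=
    fun t _ => (hasDeriv_eval P v E t).hasDerivWithinAt
  have hb : ∀ t ∈ Set.Ico (0 : ℝ) 1,
      ‖-MvPolynomial.eval (fun l => v l - t * E l) (dD E P)‖ ≤
        (bx n D).card * (n * e * (D + 1) * c * (3 * R) ^ (n * D)) := by
    intro t ht
    rw [norm_neg, Real.norm_eq_abs]
    refine eval_bound (dD E P) (dD_deg hP E) _ (3 * R) (by linarith)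
      (CB_dD hP hc (fun i => ?_)) _ fun i => ?_
    · rw [hE]
      show |v i - v' i| ≤ e
      rw [abs_sub_comm]
      exact he i
    · have h1 : |t * E i| ≤ 2 * R := by
        rw [abs_mul, abs_of_nonneg ht.1]
        have h2 : |E i| ≤ 2 * R := by
          calc |v i - v' i| ≤ |v i| + |v' i| := abs_sub _ _
            _ ≤ 2 * R := by linarith [hv i, hv' i]
        calc t * |E i| ≤ 1 * (2 * R) := mul_le_mul ht.2.le h2 (abs_nonneg _) zero_le_one
          _ = 2 * R := one_mul _
      calc |v i - t * E i| ≤ |v i| + |t * E i| := abs_sub _ _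
        _ ≤ 3 * R := by linarith [hv i]
  have h := norm_image_sub_le_of_norm_deriv_le_segment' hd hb 1 (Set.right_mem_Icc.2 zero_le_one)
  rw [Real.norm_eq_abs] at h
  have e1 : (fun l => v l - 1 * E l) = v' := by
    funext l
    simp only [hE]
    ring
  have e0 : (fun l => v l - 0 * E l) = v := by
    funext l
    ring
  rw [e1, e0] at h
  refine h.trans (le_of_eq ?_)
  ring

/-- **Closing.** If the `b` of the leg is the derivative of the form `H`, then the Taylor
polynomials completed with `H` agree. -/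
theorem closing (n j : ℕ) (C₀ : ℝ) (hC₀ : 1 ≤ C₀) : ∃ C : ℝ, 1 ≤ C ∧
    ∀ (T T' b H H' : Pl n) (x y y' E : Fin n → ℝ) (s d e d₂ r : ℝ),
      (∀ i, |x i| ≤ C₀) → (∀ i, |y i| ≤ C₀) → (∀ i, |y' i| ≤ C₀) → (∀ i, |E i| ≤ C₀) →
      |s| ≤ 1 → 0 ≤ e → 0 ≤ d₂ → H.IsHomogeneous j → H'.IsHomogeneous j → CB H r →
      CB (H' - H) e →
      |MvPolynomial.eval x T' - MvPolynomial.eval x T - lg b y E s x| ≤ d →
      (∀ v : Fin n → ℝ, (∀ i, |v i| ≤ 4 * C₀) →
        |MvPolynomial.eval v b - MvPolynomial.eval v (dD E H)| ≤ e) →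
      (∀ i, |y' i - y i - s * E i| ≤ d₂) →
      |MvPolynomial.eval x T' + MvPolynomial.eval (fun i => x i - y' i) H' -
        (MvPolynomial.eval x T + MvPolynomial.eval (fun i => x i - y i) H)| ≤
        d + C * (e + r * d₂) := by
  obtain ⟨C, hC0, hC⟩ := eval_lip n j (3 * C₀) (by linarith)
  set K : ℝ := (bx n j).card * (2 * C₀) ^ (n * j) with hK
  have hK0 : 0 ≤ K := by positivity
  refine ⟨C + (1 + K), by linarith, ?_⟩
  intro T T' b H H' x y y' E s d e d₂ r hx hy hy' hE hs he hd2 hH hH' hr hHH hT hb hy2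
  have hr0 : 0 ≤ r := le_trans (abs_nonneg _) (hr 0)
  -- the error of the leg
  have h1 : |lg b y E s x - lg (dD E H) y E s x| ≤ e := by
    rw [lg_sub]
    refine lg_bound (C := 2 * C₀) hs he (fun i => ?_) (fun i => by linarith [hE i]) fun v hv => ?_
    · calc |x i - y i| ≤ |x i| + |y i| := abs_sub _ _
        _ ≤ 2 * C₀ := by linarith [hx i, hy i]
    · rw [map_sub]
      refine hb v fun i => ?_
      have := hv i
      linarith
  -- the forms
  have h2 : |MvPolynomial.eval (fun i => x i - y' i) (H' - H)| ≤ K * e := by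
    have h3 : (H' - H).totalDegree ≤ j := by
      refine (MvPolynomial.totalDegree_sub _ _).trans ?_
      exact max_le hH'.totalDegree_le hH.totalDegree_le
    have h4 := eval_bound (H' - H) h3 e (2 * C₀) (by linarith) hHH (fun i => x i - y' i) fun i => by
      calc |x i - y' i| ≤ |x i| + |y' i| := abs_sub _ _
        _ ≤ 2 * C₀ := by linarith [hx i, hy' i]
    refine h4.trans (le_of_eq ?_)
    rw [hK]
    ring
  have h3 : |MvPolynomial.eval (fun i => x i - y' i) H -
      MvPolynomial.eval (fun i => x i - y i - s * E i) H| ≤ C * d₂ * r := by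
    refine hC H r d₂ _ _ hH.totalDegree_le hr (fun i => ?_) (fun i => ?_) fun i => ?_
    · have h5 : |s * E i| ≤ C₀ := by
        rw [abs_mul]
        calc |s| * |E i| ≤ 1 * C₀ := mul_le_mul hs (hE i) (abs_nonneg _) zero_le_one
          _ = C₀ := one_mul _
      calc |x i - y i - s * E i| ≤ |x i - y i| + |s * E i| := abs_sub _ _
        _ ≤ |x i| + |y i| + |s * E i| := by linarith [abs_sub (x i) (y i)]
        _ ≤ 3 * C₀ := by linarith [hx i, hy i, h5]
    · calc |x i - y' i| ≤ |x i| + |y' i| := abs_sub _ _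
        _ ≤ 3 * C₀ := by linarith [hx i, hy' i]
    · have h6 := hy2 i
      have e1 : x i - y' i - (x i - y i - s * E i) = -(y' i - y i - s * E i) := by ring
      rw [e1, abs_neg]
      exact h6
  have h4 := lg_dD H y E s x
  rw [map_sub] at h2
  rw [abs_le] at hT h1 h2 h3 ⊢
  have h5 : C * (e + r * d₂) + (1 + K) * (e + r * d₂) = C * d₂ * r + e + K * e +
      (C * e + (1 + K) * (r * d₂)) := by ring
  have h6 : 0 ≤ C * e + (1 + K) * (r * d₂) := by positivity
  have h7 : (C + (1 + K)) * (e + r * d₂) = C * (e + r * d₂) + (1 + K) * (e + r * d₂) := by ring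
  constructor
  · linarith [hT.1, h1.1, h2.1, h3.1]
  · linarith [hT.2, h1.2, h2.2, h3.2]

/-! ### Comparison of jets -/

lemma ln_scale {n : ℕ} (P : Pl n) (a v : Fin n → ℝ) (c : ℝ) (i : ℕ) :
    (ln P a (fun l => c * v l)).coeff i = (ln P a v).coeff i * c ^ i := by
  have h : ln P a (fun l => c * v l) = (ln P a v).comp (Polynomial.C c * Polynomial.X) := by
    apply Polynomial.funext
    intro τ
    rw [Polynomial.eval_comp, ln_eval, ln_eval]
    refine congrArg (fun y => MvPolynomial.eval y P) ?_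
    funext l
    simp
    ring
  rw [h, Polynomial.comp_C_mul_X_coeff]

/-- A polynomial which is small on a ball has small Taylor polynomials. -/
theorem tayl_small (n K : ℕ) : ∃ C : ℝ, 0 ≤ C ∧ ∀ (j : ℕ) (P : Pl n) (a y : Fin n → ℝ)
    (r ρ δ : ℝ), P.totalDegree ≤ K → 0 ≤ r → 1 ≤ ρ →
      (∀ b : Fin n → ℝ, (∀ i, |b i - a i| ≤ r) → |MvPolynomial.eval b P| ≤ δ) →
      (∀ i, |y i - a i| ≤ ρ * r) → |MvPolynomial.eval y (tayl j P a)| ≤ C * ρ ^ K * δ := by
  obtain ⟨C, hC0, hC⟩ := Pool.KAL.TAY.coef_bound K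
  refine ⟨(K + 1) * C, by positivity, ?_⟩
  intro j P a y r ρ δ hP hr hρ hδ hy
  have hρ0 : 0 < ρ := by linarith
  have hδ0 : 0 ≤ δ := le_trans (abs_nonneg _) (hδ a fun i => by
    rw [sub_self, abs_zero]
    exact hr)
  set v : Fin n → ℝ := fun l => (y l - a l) / ρ with hv
  have hv1 : ∀ i, |v i| ≤ r := by
    intro i
    show |(y i - a i) / ρ| ≤ r
    rw [abs_div, abs_of_pos hρ0, div_le_iff₀ hρ0]
    linarith [hy i, mul_comm ρ r]
  have h1 : (fun l => y l - a l) = fun l => ρ * v l := by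
    funext l
    show y l - a l = ρ * ((y l - a l) / ρ)
    field_simp
  have h2 : ∀ t : ℝ, 0 ≤ t → t ≤ 1 → |(ln P a v).eval t| ≤ δ := by
    intro t h0 h1
    rw [ln_eval]
    refine hδ _ fun i => ?_
    have e : a i + v i * t - a i = v i * t := by ring
    rw [e, abs_mul, abs_of_nonneg h0]
    calc |v i| * t ≤ r * 1 := mul_le_mul (hv1 i) h1 h0 hr
      _ = r := mul_one r
  have h3 : ∀ i, |(ln P a (fun l => y l - a l)).coeff i| ≤ C * δ * ρ ^ K := by
    intro i
    rw [h1, ln_scale]
    by_cases hi : i ≤ K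
    · rw [abs_mul, abs_of_pos (pow_pos hρ0 i)]
      refine mul_le_mul (hC _ δ (ln_natDegree hP a v) h2 i hi)
        (pow_le_pow_right₀ hρ hi) (pow_pos hρ0 i).le (by positivity)
    · have h4 : (ln P a v).natDegree ≤ K := ln_natDegree hP a v
      rw [Polynomial.coeff_eq_zero_of_natDegree_lt (by omega), zero_mul, abs_zero]
      positivity
  rw [tayl_eval]
  have h5 : ∑ i ∈ range j, (ln P a (fun l => y l - a l)).coeff i =
      ∑ i ∈ range (min j (K + 1)), (ln P a (fun l => y l - a l)).coeff i := by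
    symm
    refine Finset.sum_subset (Finset.range_subset_range.mpr (min_le_left _ _)) fun i hi hi2 => ?_
    rw [Finset.mem_range] at hi hi2
    have h4 : (ln P a (fun l => y l - a l)).natDegree ≤ K := ln_natDegree hP a _
    exact Polynomial.coeff_eq_zero_of_natDegree_lt (by
      have : ¬ i < min j (K + 1) := hi2
      rw [lt_min_iff] at this
      omega)
  rw [h5]
  refine (Finset.abs_sum_le_sum_abs _ _).trans ?_
  refine (Finset.sum_le_card_nsmul _ _ _ fun i _ => h3 i).trans ?_
  rw [Finset.card_range, nsmul_eq_mul]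
  have h6 : ((min j (K + 1) : ℕ) : ℝ) ≤ K + 1 := by
    exact_mod_cast min_le_right j (K + 1)
  calc ((min j (K + 1) : ℕ) : ℝ) * (C * δ * ρ ^ K) ≤ (K + 1) * (C * δ * ρ ^ K) :=
        mul_le_mul_of_nonneg_right h6 (by positivity)
    _ = (K + 1) * C * ρ ^ K * δ := by ring

/-- **Labels which agree on a ball have the same jets.** -/
theorem tayl_close (n K : ℕ) : ∃ C : ℝ, 0 ≤ C ∧ ∀ (j : ℕ) (G H : Pl n) (a y : Fin n → ℝ)
    (r ρ δ : ℝ), G.totalDegree ≤ K → H.totalDegree ≤ K → 0 ≤ r → 1 ≤ ρ →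
      (∀ b : Fin n → ℝ, (∀ i, |b i - a i| ≤ r) →
        |MvPolynomial.eval b G - MvPolynomial.eval b H| ≤ δ) →
      (∀ i, |y i - a i| ≤ ρ * r) →
      |MvPolynomial.eval y (tayl j G a) - MvPolynomial.eval y (tayl j H a)| ≤
        C * ρ ^ K * δ := by
  obtain ⟨C, hC0, hC⟩ := tayl_small n K
  refine ⟨C, hC0, ?_⟩
  intro j G H a y r ρ δ hG hH hr hρ hδ hy
  rw [← tayl_sub]
  refine hC j (G - H) a y r ρ δ ?_ hr hρ (fun b hb => ?_) hy
  · exact (MvPolynomial.totalDegree_sub _ _).trans (max_le hG hH)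
  · rw [map_sub]
    exact hδ b hb

/-- **Change of the base point.** If the components of order `≥ j` are at most `B` then the Taylor
polynomial of degree `< j` is Lipschitz in the base point. -/
theorem tayl_lip (n D j : ℕ) (C₀ : ℝ) (hC₀ : 1 ≤ C₀) : ∃ C : ℝ, 0 ≤ C ∧
    ∀ (P : Pl n) (a a' y : Fin n → ℝ) (e B : ℝ), P.totalDegree ≤ D → 0 ≤ B → 0 ≤ e →
      (∀ α, j ≤ α.degree → |P.coeff α| ≤ B) → (∀ i, |a i| ≤ C₀) → (∀ i, |a' i| ≤ C₀) →
      (∀ i, |y i| ≤ C₀) → (∀ i, |a' i - a i| ≤ e) →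
      |MvPolynomial.eval y (tayl j P a') - MvPolynomial.eval y (tayl j P a)| ≤ C * e * B := by
  rcases Nat.eq_zero_or_pos j with h0 | h0
  · subst h0
    refine ⟨0, le_rfl, ?_⟩
    intro P a a' y e B _ _ _ _ _ _ _ _
    rw [tayl_eval, tayl_eval, Finset.sum_range_zero, Finset.sum_range_zero]
    simp
  obtain ⟨j, rfl⟩ : ∃ k, j = k + 1 := ⟨j - 1, by omega⟩
  obtain ⟨C, hC0, hC⟩ := coeff_dD_small n D (4 * C₀) (by linarith)
  refine ⟨C, hC0, ?_⟩
  intro P a a' y e B hP hB he hc ha ha' hy haa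
  have h1 := tayl_leg (j := j) P a (fun l => a' l - a l) y 1
  have e1 : (fun l => a l + 1 * (a' l - a l)) = a' := by
    funext l
    ring
  rw [e1] at h1
  rw [h1]
  have h := intervalIntegral.norm_integral_le_of_norm_le_const (a := (0 : ℝ)) (b := 1)
    (f := fun t => (ln (dD (fun l => a' l - a l) P) (fun l => a l + t * (a' l - a l))
      (fun l => y l - a l - t * (a' l - a l))).coeff j) (C := C * e * B) (by
      intro t ht
      rw [Set.uIoc_of_le zero_le_one] at ht
      have ht1 : |t| ≤ 1 := by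
        rw [abs_le]
        constructor <;> linarith [ht.1, ht.2]
      have htE : ∀ i, |t * (a' i - a i)| ≤ 2 * C₀ := by
        intro i
        have h2 : |a' i - a i| ≤ 2 * C₀ := by
          calc |a' i - a i| ≤ |a' i| + |a i| := abs_sub _ _
            _ ≤ 2 * C₀ := by linarith [ha i, ha' i]
        rw [abs_mul]
        calc |t| * |a' i - a i| ≤ 1 * (2 * C₀) :=
              mul_le_mul ht1 h2 (abs_nonneg _) zero_le_one
          _ = 2 * C₀ := one_mul _
      rw [Real.norm_eq_abs]
      refine hC j P B e _ _ _ hP hB (fun α hα => hc α (by omega)) haa (fun i => ?_) fun i => ?_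
      · calc |a i + t * (a' i - a i)| ≤ |a i| + |t * (a' i - a i)| := abs_add_le _ _
          _ ≤ 4 * C₀ := by linarith [ha i, htE i]
      · calc |y i - a i - t * (a' i - a i)| ≤ |y i - a i| + |t * (a' i - a i)| := abs_sub _ _
          _ ≤ |y i| + |a i| + |t * (a' i - a i)| := by linarith [abs_sub (y i) (a i)]
          _ ≤ 4 * C₀ := by linarith [ha i, hy i, htE i])
  rw [Real.norm_eq_abs] at h
  refine h.trans (le_of_eq ?_)
  simp

end Pool.BFL
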