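import Pool.Agent.H19.BFL.Stmts3
import Pool.Agent.H4.BFL.JTE
import Pool.Agent.H90.BFL.Close

/-!
# Row CNL: polynomial lemmas
-/

set_option autoImplicit false

namespace Pool.BFL.Cnl

open Finset Polynomial
open Pool.Agent.H36.KBX (bx eval_bound coef_bound)

/-! ### Taylor polynomials -/

lemma sh_sub {n : ℕ} (y : Fin n → ℝ) (F G : Pl n) : sh y (F - G) = sh y F - sh y G := by
  unfold sh
  rw [map_sub]

lemma jt_sub {n : ℕ} (i : ℕ) (F G : Pl n) (y : Fin n → ℝ) :
    jt i (F - G) y = jt i F y - jt i G y := by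
  unfold jt
  rw [sh_sub, map_sub]

lemma jt_homog {n : ℕ} (i : ℕ) (F : Pl n) (y : Fin n → ℝ) : (jt i F y).IsHomogeneous i :=
  MvPolynomial.homogeneousComponent_isHomogeneous i _

lemma jt_eval {n : ℕ} (i : ℕ) (F : Pl n) (y z : Fin n → ℝ) :
    MvPolynomial.eval z (jt i F y) = (ln F y z).coeff i := by
  unfold jt
  rw [eval_hom]
  congr 1
  apply Polynomial.funext
  intro τ
  rw [ln_eval, ln_eval, eval_sh]
  refine congrArg (fun y => MvPolynomial.eval y F) ?_
  funext l
  ring

lemma tay_eval {n : ℕ} (j : ℕ) (F : Pl n) (y x : Fin n → ℝ) :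
    MvPolynomial.eval x (tay j F y) =
      ∑ i ∈ range j, MvPolynomial.eval (fun l => x l - y l) (jt i F y) := by
  unfold tay
  rw [map_sum]
  refine Finset.sum_congr rfl fun i _ => ?_
  rw [eval_sh]
  rfl

lemma tay_eq {n : ℕ} (j : ℕ) (F : Pl n) (y x : Fin n → ℝ) :
    MvPolynomial.eval x (tay j F y) = MvPolynomial.eval x (tayl j F y) := by
  rw [tay_eval, tayl_eval]
  exact Finset.sum_congr rfl fun i _ => jt_eval i F y _

lemma tay_degree {n j : ℕ} (hj : 1 ≤ j) (F : Pl n) (y : Fin n → ℝ) :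
    (tay j F y).totalDegree < j := by
  unfold tay
  refine lt_of_le_of_lt (MvPolynomial.totalDegree_finsetSum_le (d := j - 1) fun i hi => ?_)
    (by omega)
  refine degree_sh _ _ ?_
  refine (jt_homog i F y).totalDegree_le.trans ?_
  rw [Finset.mem_range] at hi
  omega

/-- A polynomial of degree `< j` is its own Taylor polynomial. -/
lemma tayl_self {n j : ℕ} {P : Pl n} (hP : P.totalDegree < j) (a x : Fin n → ℝ) :
    MvPolynomial.eval x (tayl j P a) = MvPolynomial.eval x P := by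
  rw [tayl_eval]
  have hd : (ln P a (fun l => x l - a l)).natDegree < j := (ln_natDegree le_rfl _ _).trans_lt hP
  have h1 : (ln P a (fun l => x l - a l)).eval 1 = MvPolynomial.eval x P := by
    rw [ln_eval]
    refine congrArg (fun y => MvPolynomial.eval y P) ?_
    funext l
    ring
  rw [← h1, Polynomial.eval_eq_sum_range' hd]
  refine Finset.sum_congr rfl fun i _ => ?_
  rw [one_pow, mul_one]

lemma sh_sh {n : ℕ} (y : Fin n → ℝ) (P : Pl n) : sh y (sh (fun l => -y l) P) = P := by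
  apply MvPolynomial.funext
  intro v
  rw [eval_sh, eval_sh]
  refine congrArg (fun y => MvPolynomial.eval y P) ?_
  funext l
  ring

lemma jt_tay {n : ℕ} (i j : ℕ) (F : Pl n) (y : Fin n → ℝ) :
    jt i (tay j F y) y = if i < j then jt i F y else 0 := by
  have h1 : sh y (tay j F y) = ∑ k ∈ range j, jt k F y := by
    unfold tay
    unfold sh
    rw [map_sum]
    refine Finset.sum_congr rfl fun k _ => ?_
    exact sh_sh y (jt k F y)
  have h2 : jt i (tay j F y) y = MvPolynomial.homogeneousComponent i (∑ k ∈ range j, jt k F y) := by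
    rw [← h1]
    rfl
  rw [h2, map_sum]
  have h3 : ∀ k ∈ range j, MvPolynomial.homogeneousComponent i (jt k F y) =
      if k = i then jt i F y else 0 := by
    intro k _
    rw [MvPolynomial.homogeneousComponent_of_mem
      ((MvPolynomial.mem_homogeneousSubmodule _ _).2 (jt_homog k F y))]
    by_cases h : k = i
    · rw [if_pos h.symm, if_pos h, h]
    · rw [if_neg (Ne.symm h), if_neg h]
  rw [Finset.sum_congr rfl h3, Finset.sum_ite_eq' (range j) i (fun _ => jt i F y)]
  simp only [Finset.mem_range]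

/-- Values of a form. -/
lemma homog_le {n i K : ℕ} {φ : Pl n} (h : φ.IsHomogeneous i) (hi : i ≤ K) {c t : ℝ}
    (ht : 0 ≤ t) (hc : CB φ c) (v : Fin n → ℝ) (hv : ∀ l, |v l| ≤ t) :
    |MvPolynomial.eval v φ| ≤ (bx n K).card * (c * t ^ i) := by
  have hc0 : 0 ≤ c := le_trans (abs_nonneg _) (hc 0)
  have hunit : ∀ u : Fin n → ℝ, (∀ l, |u l| ≤ 1) →
      |MvPolynomial.eval u φ| ≤ (bx n K).card * c := by
    intro u hu
    have h1 := eval_bound φ (h.totalDegree_le.trans hi) c 1 le_rfl hc u hu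
    rwa [one_pow, mul_one] at h1
  rcases eq_or_lt_of_le ht with h0 | h0
  · have hv0 : v = fun l => 0 * v l := by
      funext l
      have := hv l
      rw [← h0] at this
      have h2 : v l = 0 := abs_eq_zero.1 (le_antisymm this (abs_nonneg _))
      rw [h2, zero_mul]
    rw [hv0, eval_smul_homog h, ← h0, abs_mul, abs_of_nonneg (pow_nonneg le_rfl i)]
    rcases Nat.eq_zero_or_pos i with hi0 | hi0
    · subst hi0
      rw [pow_zero, one_mul, mul_one]
      have h1 := MvPolynomial.totalDegree_eq_zero_iff_eq_C.1 (Nat.le_zero.1 h.totalDegree_le)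
      rw [h1, MvPolynomial.eval_C]
      have h2 := hunit (fun _ => 0) (fun l => by simp)
      rw [h1, MvPolynomial.eval_C] at h2
      exact h2
    · rw [zero_pow hi0.ne', zero_mul, mul_zero, mul_zero]
  · have h1 : v = fun l => t * (v l / t) := by
      funext l
      field_simp
    have h2 := hunit (fun l => v l / t) fun l => by
      rw [abs_div, abs_of_pos h0, div_le_one h0]
      exact hv l
    rw [h1, eval_smul_homog h, abs_mul, abs_of_pos (pow_pos h0 i)]
    calc t ^ i * |MvPolynomial.eval (fun l => v l / t) φ| ≤ t ^ i * ((bx n K).card * c) :=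
          mul_le_mul_of_nonneg_left h2 (pow_pos h0 i).le
      _ = _ := by ring

/-- A polynomial which is small on a ball has small Taylor polynomials (with the right power). -/
theorem tayl_small' (n K : ℕ) : ∃ C : ℝ, 0 ≤ C ∧ ∀ (j : ℕ) (P : Pl n) (a y : Fin n → ℝ)
    (r ρ δ : ℝ), P.totalDegree ≤ K → 1 ≤ j → j ≤ K + 1 → 0 ≤ r → 1 ≤ ρ →
      (∀ b : Fin n → ℝ, (∀ i, |b i - a i| ≤ r) → |MvPolynomial.eval b P| ≤ δ) →
      (∀ i, |y i - a i| ≤ ρ * r) →
      |MvPolynomial.eval y (tayl j P a)| ≤ C * ρ ^ (j - 1) * δ := by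
  obtain ⟨C, hC0, hC⟩ := Pool.KAL.TAY.coef_bound K
  refine ⟨(K + 1) * C, by positivity, ?_⟩
  intro j P a y r ρ δ hP hj hjK hr hρ hδ hy
  have hρ0 : 0 < ρ := by linarith
  have hδ0 : 0 ≤ δ := le_trans (abs_nonneg _) (hδ a fun i => by
    rw [sub_self, abs_zero]
    exact hr)
  set v : Fin n → ℝ := fun l => (y l - a l) / ρ with hv
  have hv1 : ∀ i, |v i| ≤ r := by
    intro i
    show |(y i - a i) / ρ| ≤ r
    rw [abs_div, abs_of_pos hρ0, div_le_iff₀ hρ0]
    linarith [hy i, mul_comm ρ r]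
  have h1 : (fun l => y l - a l) = fun l => ρ * v l := by
    funext l
    show y l - a l = ρ * ((y l - a l) / ρ)
    field_simp
  have h2 : ∀ t : ℝ, 0 ≤ t → t ≤ 1 → |(ln P a v).eval t| ≤ δ := by
    intro t h0 h1
    rw [ln_eval]
    refine hδ _ fun i => ?_
    have e : a i + v i * t - a i = v i * t := by ring
    rw [e, abs_mul, abs_of_nonneg h0]
    calc |v i| * t ≤ r * 1 := mul_le_mul (hv1 i) h1 h0 hr
      _ = r := mul_one r
  have h3 : ∀ i ∈ range j, |(ln P a (fun l => y l - a l)).coeff i| ≤ C * δ * ρ ^ (j - 1) := by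
    intro i hi
    rw [Finset.mem_range] at hi
    rw [h1, ln_scale, abs_mul, abs_of_pos (pow_pos hρ0 i)]
    refine mul_le_mul (hC _ δ (ln_natDegree hP a v) h2 i (by omega))
      (pow_le_pow_right₀ hρ (by omega)) (pow_pos hρ0 i).le (by positivity)
  rw [tayl_eval]
  refine (Finset.abs_sum_le_sum_abs _ _).trans ?_
  refine (Finset.sum_le_card_nsmul _ _ _ h3).trans ?_
  rw [Finset.card_range, nsmul_eq_mul]
  have h6 : (j : ℝ) ≤ K + 1 := by exact_mod_cast hjK
  calc (j : ℝ) * (C * δ * ρ ^ (j - 1)) ≤ (K + 1) * (C * δ * ρ ^ (j - 1)) :=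
        mul_le_mul_of_nonneg_right h6 (by positivity)
    _ = (K + 1) * C * ρ ^ (j - 1) * δ := by ring

/-- **Change of the base point.** -/
theorem tay_near (n K : ℕ) : ∃ C : ℝ, 0 ≤ C ∧ ∀ (j : ℕ) (G : Pl n) (y y' x : Fin n → ℝ)
    (r ρ S : ℝ), G.totalDegree ≤ K → 1 ≤ j → j ≤ K + 1 → 0 < r → 1 ≤ ρ → 0 ≤ S →
      (∀ i ≤ K, j ≤ i → CB (jt i G y) (S / r ^ i)) → (∀ i, |y' i - y i| ≤ r) →
      (∀ i, |x i - y' i| ≤ ρ * r) →
      |MvPolynomial.eval x (tay j G y') - MvPolynomial.eval x (tay j G y)| ≤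
        C * ρ ^ (j - 1) * S := by
  obtain ⟨C₁, hC₁0, hC₁⟩ := tayl_small' n K
  obtain ⟨C₂, hC₂1, hC₂⟩ := jte_thm n K
  refine ⟨C₁ * (C₂ * 2 ^ K), by positivity, ?_⟩
  intro j G y y' x r ρ S hG hj hjK hr hρ hS hjt hy hx
  set H : Pl n := G - tay j G y with hH
  have hHd : H.totalDegree ≤ K := by
    refine (MvPolynomial.totalDegree_sub _ _).trans (max_le hG ?_)
    have := tay_degree hj G y
    omega
  have h2r : (0 : ℝ) < 2 * r := by linarith
  have hb : ∀ b : Fin n → ℝ, (∀ i, |b i - y' i| ≤ r) →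
      |MvPolynomial.eval b H| ≤ C₂ * (2 ^ K * S) := by
    intro b hb
    refine hC₂ H y (2 * r) (2 ^ K * S) hHd h2r (by positivity) (fun i hi => ?_) b fun l => ?_
    · rw [hH, jt_sub, jt_tay]
      by_cases h : i < j
      · rw [if_pos h, sub_self]
        intro k
        rw [MvPolynomial.coeff_zero, abs_zero]
        positivity
      · rw [if_neg h, sub_zero]
        intro k
        refine (hjt i hi (by omega) k).trans ?_
        rw [mul_pow, div_le_div_iff₀ (pow_pos hr i) (by positivity)]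
        have h3 : (2 : ℝ) ^ i ≤ 2 ^ K := pow_le_pow_right₀ (by norm_num) hi
        have h4 : S * ((2 : ℝ) ^ i * r ^ i) ≤ S * (2 ^ K * r ^ i) :=
          mul_le_mul_of_nonneg_left (mul_le_mul_of_nonneg_right h3 (pow_pos hr i).le) hS
        refine h4.trans (le_of_eq ?_)
        ring
    · calc |b l - y l| ≤ |b l - y' l| + |y' l - y l| := abs_sub_le _ _ _
        _ ≤ 2 * r := by linarith [hb l, hy l]
  have h1 := hC₁ j H y' x r ρ (C₂ * (2 ^ K * S)) hHd hj hjK hr.le hρ hb hx
  have h2 : MvPolynomial.eval x (tayl j H y') =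
      MvPolynomial.eval x (tay j G y') - MvPolynomial.eval x (tay j G y) := by
    rw [hH, tayl_sub, tayl_self (tay_degree hj G y), tay_eq j G y' x]
  rw [h2] at h1
  refine h1.trans (le_of_eq ?_)
  ring

/-! ### Scaling -/

/-- The polynomial `μ P (y₀ + ρ ·)`. -/
noncomputable def sc {n : ℕ} (P : Pl n) (y₀ : Fin n → ℝ) (ρ μ : ℝ) : Pl n :=
  MvPolynomial.C μ * MvPolynomial.aeval
    (fun i => MvPolynomial.C (y₀ i) + MvPolynomial.C ρ * MvPolynomial.X i) P

lemma sc_eval {n : ℕ} (P : Pl n) (y₀ : Fin n → ℝ) (ρ μ : ℝ) (x : Fin n → ℝ) :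
    MvPolynomial.eval x (sc P y₀ ρ μ) = μ * MvPolynomial.eval (fun i => y₀ i + ρ * x i) P := by
  unfold sc
  rw [map_mul, MvPolynomial.eval_C]
  congr 1
  induction P using MvPolynomial.induction_on with
  | C a =>
    rw [MvPolynomial.aeval_C]
    simp
  | add p q hp hq => rw [map_add, map_add, map_add, hp, hq]
  | mul_X p i hp => rw [map_mul, map_mul, map_mul, hp]; simp

lemma sc_degree {n K : ℕ} {P : Pl n} (hP : P.totalDegree ≤ K) (y₀ : Fin n → ℝ) (ρ μ : ℝ) :
    (sc P y₀ ρ μ).totalDegree ≤ K := by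
  unfold sc
  refine (MvPolynomial.totalDegree_mul _ _).trans ?_
  rw [MvPolynomial.totalDegree_C, Nat.zero_add]
  have h := Pool.KS3.SML.totalDegree_bind_le
    (fun i : Fin n => (MvPolynomial.C (y₀ i) + MvPolynomial.C ρ * MvPolynomial.X i : Pl n)) 1
    (fun i => by
      refine (MvPolynomial.totalDegree_add _ _).trans (max_le ?_ ?_)
      · rw [MvPolynomial.totalDegree_C]
        exact Nat.zero_le _
      · refine (MvPolynomial.totalDegree_mul _ _).trans ?_
        rw [MvPolynomial.totalDegree_C, Nat.zero_add]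
        exact (MvPolynomial.totalDegree_X (R := ℝ) i).le) P
  rw [one_mul] at h
  exact h.trans hP

/-- Scaling of a leg. -/
lemma lg_scale {n j : ℕ} {b : Pl n} (hb : b.IsHomogeneous (j - 1)) (hj : 1 ≤ j)
    (y₀ y E x : Fin n → ℝ) (ρ s : ℝ) :
    lg b (fun i => y₀ i + ρ * y i) E (ρ * s) (fun i => y₀ i + ρ * x i) =
      ρ ^ j * lg b y E s x := by
  unfold lg
  have h1 := intervalIntegral.mul_integral_comp_mul_left (a := 0) (b := s) (c := ρ)
    (f := fun τ => MvPolynomial.eval (fun i => y₀ i + ρ * x i - (y₀ i + ρ * y i) - τ * E i) b)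
  rw [mul_zero] at h1
  rw [← h1]
  have h2 : ∀ τ : ℝ, MvPolynomial.eval
      (fun i => y₀ i + ρ * x i - (y₀ i + ρ * y i) - ρ * τ * E i) b =
      ρ ^ (j - 1) * MvPolynomial.eval (fun i => x i - y i - τ * E i) b := by
    intro τ
    rw [← eval_smul_homog hb]
    refine congrArg (fun y => MvPolynomial.eval y b) ?_
    funext i
    ring
  rw [intervalIntegral.integral_congr (g := fun τ => ρ ^ (j - 1) *
    MvPolynomial.eval (fun i => x i - y i - τ * E i) b) fun τ _ => h2 τ,
    intervalIntegral.integral_const_mul, ← mul_assoc]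
  congr 1
  rw [← pow_succ']
  congr 1
  omega

lemma lg_C_mul {n : ℕ} (c : ℝ) (b : Pl n) (y E x : Fin n → ℝ) (s : ℝ) :
    lg (MvPolynomial.C c * b) y E s x = c * lg b y E s x := by
  unfold lg
  rw [← intervalIntegral.integral_const_mul]
  refine intervalIntegral.integral_congr fun τ _ => ?_
  simp only [map_mul, MvPolynomial.eval_C]

/-- Change of the length of a leg. -/
lemma lg_len {n : ℕ} {b : Pl n} {y E : Fin n → ℝ} {s s' : ℝ} {x : Fin n → ℝ} {C e : ℝ}
    (hs : |s| ≤ 1) (hs' : |s'| ≤ 1) (hx : ∀ i, |x i - y i| ≤ C) (hE : ∀ i, |E i| ≤ C)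
    (hb : ∀ v : Fin n → ℝ, (∀ i, |v i| ≤ 2 * C) → |MvPolynomial.eval v b| ≤ e) :
    |lg b y E s x - lg b y E s' x| ≤ e * |s - s'| := by
  unfold lg
  have hi : ∀ a c : ℝ, IntervalIntegrable
      (fun τ => MvPolynomial.eval (fun i => x i - y i - τ * E i) b) MeasureTheory.volume a c :=
    fun a c => (cont_eval b (fun i => x i - y i) E).intervalIntegrable _ _
  rw [intervalIntegral.integral_interval_sub_left (hi 0 s) (hi 0 s')]
  have h := intervalIntegral.norm_integral_le_of_norm_le_const (a := s') (b := s)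
    (f := fun τ => MvPolynomial.eval (fun i => x i - y i - τ * E i) b) (C := e) (by
      intro t ht
      rw [Real.norm_eq_abs]
      refine hb _ fun i => ?_
      have ht1 : |t| ≤ 1 := by
        rw [Set.mem_uIoc] at ht
        rw [abs_le] at hs hs' ⊢
        rcases ht with ht | ht
        · constructor <;> linarith [ht.1, ht.2, hs.1, hs.2, hs'.1, hs'.2]
        · constructor <;> linarith [ht.1, ht.2, hs.1, hs.2, hs'.1, hs'.2]
      have h1 : |t * E i| ≤ C := by
        rw [abs_mul]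
        have hC : 0 ≤ C := le_trans (abs_nonneg _) (hE i)
        calc |t| * |E i| ≤ 1 * C := mul_le_mul ht1 (hE i) (abs_nonneg _) zero_le_one
          _ = C := one_mul _
      calc |x i - y i - t * E i| ≤ |x i - y i| + |t * E i| := abs_sub _ _
        _ ≤ 2 * C := by linarith [hx i])
  rwa [Real.norm_eq_abs] at h

end Pool.BFL.Cnl
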