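import Pool.Agent.H90.BFL.CnlA
import Pool.Agent.H25.BFL.LJT
import Pool.Agent.H40.BFL.MKO
import Pool.Agent.H80.BFL.TRA

/-!
# Row CNL: gradients, balls, tubes
-/

set_option autoImplicit false

namespace Pool.BFL.Cnl

open Finset Polynomial
open Pool.Agent.H36.KBX (bx eval_bound coef_bound coeff_pderiv_bound)

/-- Chain rule. -/
lemma pderiv_aff {n : ℕ} (P : Pl n) (y : Fin n → ℝ) (r : ℝ) (i : Fin n) :
    MvPolynomial.pderiv i (MvPolynomial.aeval
      (fun l => MvPolynomial.C (y l) + MvPolynomial.C r * MvPolynomial.X l : Fin n → Pl n) P) =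
      MvPolynomial.C r * MvPolynomial.aeval
        (fun l => MvPolynomial.C (y l) + MvPolynomial.C r * MvPolynomial.X l : Fin n → Pl n)
        (MvPolynomial.pderiv i P) := by
  classical
  induction P using MvPolynomial.induction_on with
  | C a =>
    rw [MvPolynomial.aeval_C, MvPolynomial.pderiv_C, map_zero, mul_zero]
    exact MvPolynomial.pderiv_C
  | add p q hp hq => rw [map_add, map_add, map_add, map_add, hp, hq, mul_add]
  | mul_X p l hp =>
    have h1 : MvPolynomial.pderiv i (MvPolynomial.C (y l) + MvPolynomial.C r * MvPolynomial.X l :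
        Pl n) = MvPolynomial.C r * MvPolynomial.pderiv i (MvPolynomial.X l) := by
      rw [map_add, MvPolynomial.pderiv_C, zero_add, MvPolynomial.pderiv_C_mul]
    have h2 : MvPolynomial.aeval
        (fun l => MvPolynomial.C (y l) + MvPolynomial.C r * MvPolynomial.X l : Fin n → Pl n)
        (MvPolynomial.pderiv i (MvPolynomial.X l : Pl n)) =
        MvPolynomial.pderiv i (MvPolynomial.X l : Pl n) := by
      by_cases h : l = i
      · subst h
        rw [MvPolynomial.pderiv_X_self, map_one]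
      · rw [MvPolynomial.pderiv_X_of_ne h, map_zero]
    rw [map_mul, MvPolynomial.aeval_X, MvPolynomial.pderiv_mul, hp, h1, MvPolynomial.pderiv_mul,
      map_add, map_mul, map_mul, MvPolynomial.aeval_X, h2]
    ring

lemma sc_pderiv {n : ℕ} (P : Pl n) (y v : Fin n → ℝ) (r μ : ℝ) (i : Fin n) :
    MvPolynomial.eval v (MvPolynomial.pderiv i (sc P y r μ)) =
      μ * (r * MvPolynomial.eval (fun l => y l + r * v l) (MvPolynomial.pderiv i P)) := by
  unfold sc
  rw [MvPolynomial.pderiv_C_mul, pderiv_aff, map_mul, MvPolynomial.eval_C, map_mul,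
    MvPolynomial.eval_C]
  have h := sc_eval (MvPolynomial.pderiv i P) y r 1 v
  unfold sc at h
  rw [map_mul, MvPolynomial.eval_C, one_mul, one_mul] at h
  rw [h]

/-- Variation of the values on a smaller ball. -/
theorem vrv (n K : ℕ) : ∃ C : ℝ, 0 ≤ C ∧ ∀ (P : Pl n) (y b : Fin n → ℝ) (r S ε : ℝ),
    P.totalDegree ≤ K → 0 < r → ε ≤ 1 →
    (∀ b : Fin n → ℝ, (∀ i, |b i - y i| ≤ r) → |MvPolynomial.eval b P| ≤ S) →
    (∀ i, |b i - y i| ≤ ε * r) →
    |MvPolynomial.eval b P - MvPolynomial.eval y P| ≤ C * ε * S := by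
  obtain ⟨C₁, hC₁0, hC₁⟩ := coef_bound n K
  obtain ⟨C₂, hC₂0, hC₂⟩ := eval_lip n K 1 le_rfl
  refine ⟨C₂ * C₁, by positivity, ?_⟩
  intro P y b r S ε hP hr hε hS hb
  have h1 : CB (sc P y r 1) (C₁ * S) := hC₁ (sc P y r 1) S (sc_degree hP y r 1) fun v hv => by
    rw [sc_eval, one_mul]
    refine hS _ fun i => ?_
    rw [add_sub_cancel_left, abs_mul, abs_of_pos hr]
    calc r * |v i| ≤ r * 1 := mul_le_mul_of_nonneg_left (hv i) hr.le
      _ = r := mul_one r
  have h2 := hC₂ (sc P y r 1) (C₁ * S) ε (fun _ => 0) (fun l => (b l - y l) / r)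
    (sc_degree hP y r 1) h1 (fun i => by rw [abs_zero]; exact zero_le_one) (fun i => by
      rw [abs_div, abs_of_pos hr, div_le_one hr]
      refine (hb i).trans ?_
      calc ε * r ≤ 1 * r := mul_le_mul_of_nonneg_right hε hr.le
        _ = r := one_mul r) fun i => by
      rw [sub_zero, abs_div, abs_of_pos hr, div_le_iff₀ hr]
      exact hb i
  rw [sc_eval, sc_eval, one_mul, one_mul] at h2
  have e1 : (fun l => y l + r * ((b l - y l) / r)) = b := by
    funext l
    field_simp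
    ring
  have e2 : (fun l => y l + r * (0 : ℝ)) = y := by
    funext l
    ring
  rw [e1, e2] at h2
  refine h2.trans (le_of_eq ?_)
  ring

/-- Variation of the gradient on a smaller ball. -/
theorem grv (n K : ℕ) : ∃ C : ℝ, 0 ≤ C ∧ ∀ (P : Pl n) (y b : Fin n → ℝ) (r S ε : ℝ),
    P.totalDegree ≤ K → 0 < r → ε ≤ 1 →
    (∀ b : Fin n → ℝ, (∀ i, |b i - y i| ≤ r) → |MvPolynomial.eval b P| ≤ S) →
    (∀ i, |b i - y i| ≤ ε * r) → ∀ i,
    |MvPolynomial.eval b (MvPolynomial.pderiv i P) -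
      MvPolynomial.eval y (MvPolynomial.pderiv i P)| ≤ C * ε * S / r := by
  obtain ⟨C₁, hC₁0, hC₁⟩ := coef_bound n K
  obtain ⟨C₂, hC₂0, hC₂⟩ := eval_lip n K 1 le_rfl
  refine ⟨C₂ * (C₁ * (K + 1)), by positivity, ?_⟩
  intro P y b r S ε hP hr hε hS hb i
  have h1 : CB (sc P y r 1) (C₁ * S) := hC₁ (sc P y r 1) S (sc_degree hP y r 1) fun v hv => by
    rw [sc_eval, one_mul]
    refine hS _ fun i => ?_
    rw [add_sub_cancel_left, abs_mul, abs_of_pos hr]
    calc r * |v i| ≤ r * 1 := mul_le_mul_of_nonneg_left (hv i) hr.le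
      _ = r := mul_one r
  have h1' : CB (MvPolynomial.pderiv i (sc P y r 1)) (C₁ * S * (K + 1)) :=
    coeff_pderiv_bound _ (sc_degree hP y r 1) _ h1 i
  have h2 := hC₂ (MvPolynomial.pderiv i (sc P y r 1)) (C₁ * S * (K + 1)) ε (fun _ => 0)
    (fun l => (b l - y l) / r)
    ((Pool.Agent.H50.PW.totalDegree_pderiv_le _ i).trans (sc_degree hP y r 1)) h1'
    (fun i => by rw [abs_zero]; exact zero_le_one) (fun i => by
      rw [abs_div, abs_of_pos hr, div_le_one hr]
      refine (hb i).trans ?_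
      calc ε * r ≤ 1 * r := mul_le_mul_of_nonneg_right hε hr.le
        _ = r := one_mul r) fun i => by
      rw [sub_zero, abs_div, abs_of_pos hr, div_le_iff₀ hr]
      exact hb i
  rw [sc_pderiv, sc_pderiv, one_mul, one_mul] at h2
  have e1 : (fun l => y l + r * ((b l - y l) / r)) = b := by
    funext l
    field_simp
    ring
  have e2 : (fun l => y l + r * (0 : ℝ)) = y := by
    funext l
    ring
  rw [e1, e2, ← mul_sub, abs_mul, abs_of_pos hr] at h2
  rw [le_div_iff₀ hr, mul_comm]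
  refine h2.trans (le_of_eq ?_)
  ring

/-- Taylor polynomial on a ball. -/
theorem tay_ball (n K : ℕ) : ∃ C : ℝ, 0 ≤ C ∧ ∀ (j : ℕ) (G : Pl n) (a b : Fin n → ℝ) (r S : ℝ),
    j ≤ K + 1 → 0 < r → 0 ≤ S → (∀ i < j, CB (jt i G a) (S / r ^ i)) →
    (∀ i, |b i - a i| ≤ 2 * r) → |MvPolynomial.eval b (tay j G a)| ≤ C * S := by
  refine ⟨(K + 1) * ((bx n K).card * 2 ^ K), by positivity, ?_⟩
  intro j G a b r S hjK hr hS hjt hb
  rw [tay_eval]
  have h3 : ∀ i ∈ range j, |MvPolynomial.eval (fun l => b l - a l) (jt i G a)| ≤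
      (bx n K).card * 2 ^ K * S := by
    intro i hi
    rw [Finset.mem_range] at hi
    refine (homog_le (K := K) (jt_homog i G a) (by omega) (by linarith) (hjt i hi) _ hb).trans ?_
    have h4 : (2 * r) ^ i = 2 ^ i * r ^ i := mul_pow _ _ _
    have h5 : S / r ^ i * (2 * r) ^ i = S * 2 ^ i := by
      rw [h4]
      field_simp
    rw [h5]
    have h6 : (2 : ℝ) ^ i ≤ 2 ^ K := pow_le_pow_right₀ (by norm_num) (by omega)
    calc ((bx n K).card : ℝ) * (S * 2 ^ i) ≤ (bx n K).card * (S * 2 ^ K) :=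
          mul_le_mul_of_nonneg_left (mul_le_mul_of_nonneg_left h6 hS) (by positivity)
      _ = _ := by ring
  refine (Finset.abs_sum_le_sum_abs _ _).trans ?_
  refine (Finset.sum_le_card_nsmul _ _ _ h3).trans ?_
  rw [Finset.card_range, nsmul_eq_mul]
  have h6 : (j : ℝ) ≤ K + 1 := by exact_mod_cast hjK
  calc (j : ℝ) * ((bx n K).card * 2 ^ K * S) ≤ (K + 1) * ((bx n K).card * 2 ^ K * S) :=
        mul_le_mul_of_nonneg_right h6 (by positivity)
    _ = _ := by ring

/-- Lipschitz bound of the scaled Taylor polynomial. -/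
theorem sc_tay_lip (n K : ℕ) (R : ℝ) (hR : 1 ≤ R) : ∃ C : ℝ, 0 ≤ C ∧
    ∀ (j : ℕ) (G : Pl n) (y₀ a : Fin n → ℝ) (y y' : Fin n → ℝ) (ρ μ S e : ℝ),
    j ≤ K + 1 → 0 < ρ → 0 ≤ μ → 0 ≤ S → 0 ≤ e → (∀ i < j, CB (jt i G (fun l => y₀ l + ρ * a l))
      (S / ρ ^ i)) → (∀ i, |a i| ≤ R) →
    (∀ i, |y i| ≤ R) → (∀ i, |y' i| ≤ R) → (∀ i, |y i - y' i| ≤ e) →
    |MvPolynomial.eval y (sc (tay j G (fun l => y₀ l + ρ * a l)) y₀ ρ μ) -
      MvPolynomial.eval y' (sc (tay j G (fun l => y₀ l + ρ * a l)) y₀ ρ μ)| ≤ C * e * (μ * S) := by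
  obtain ⟨C, hC0, hC⟩ := eval_lip n K (2 * R) (by linarith)
  refine ⟨(K + 1) * C, by positivity, ?_⟩
  intro j G y₀ a y y' ρ μ S e hjK hρ hμ hS he hjt ha hy hy' hyy
  rw [sc_eval, sc_eval, tay_eval, tay_eval, ← mul_sub, ← Finset.sum_sub_distrib, abs_mul,
    abs_of_nonneg hμ]
  have e1 : ∀ y : Fin n → ℝ, (fun l => y₀ l + ρ * y l - (y₀ l + ρ * a l)) =
      fun l => ρ * (y l - a l) := by
    intro y
    funext l
    ring
  have h3 : ∀ i ∈ range j,
      |MvPolynomial.eval (fun l => y₀ l + ρ * y l - (y₀ l + ρ * a l))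
          (jt i G (fun l => y₀ l + ρ * a l)) -
        MvPolynomial.eval (fun l => y₀ l + ρ * y' l - (y₀ l + ρ * a l))
          (jt i G (fun l => y₀ l + ρ * a l))| ≤ C * e * S := by
    intro i hi
    rw [Finset.mem_range] at hi
    rw [e1 y, e1 y', eval_smul_homog (jt_homog i G _), eval_smul_homog (jt_homog i G _),
      ← mul_sub, abs_mul, abs_of_pos (pow_pos hρ i)]
    have h4 := hC (jt i G (fun l => y₀ l + ρ * a l)) (S / ρ ^ i) e (fun l => y' l - a l)
      (fun l => y l - a l) ((jt_homog i G _).totalDegree_le.trans (by omega)) (hjt i hi)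
      (fun l => by
        calc |y' l - a l| ≤ |y' l| + |a l| := abs_sub _ _
          _ ≤ 2 * R := by linarith [hy' l, ha l])
      (fun l => by
        calc |y l - a l| ≤ |y l| + |a l| := abs_sub _ _
          _ ≤ 2 * R := by linarith [hy l, ha l]) fun l => by
        have e2 : y l - a l - (y' l - a l) = y l - y' l := by ring
        rw [e2]
        exact hyy l
    calc ρ ^ i * _ ≤ ρ ^ i * (C * e * (S / ρ ^ i)) := mul_le_mul_of_nonneg_left h4 (by positivity)
      _ = C * e * S := by field_simp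
  have h5 := (Finset.abs_sum_le_sum_abs _ _).trans (Finset.sum_le_card_nsmul _ _ _ h3)
  rw [Finset.card_range, nsmul_eq_mul] at h5
  have h6 : (j : ℝ) ≤ K + 1 := by exact_mod_cast hjK
  calc μ * _ ≤ μ * (j * (C * e * S)) := mul_le_mul_of_nonneg_left h5 hμ
    _ ≤ μ * ((K + 1) * (C * e * S)) :=
        mul_le_mul_of_nonneg_left (mul_le_mul_of_nonneg_right h6 (by positivity)) hμ
    _ = (K + 1) * C * e * (μ * S) := by ring

/-- Variation of a jet along a line. -/
theorem jt_var (n K : ℕ) : ∃ C : ℝ, 0 ≤ C ∧ ∀ (j : ℕ) (F : Pl n) (y E : Fin n → ℝ) (S : ℝ),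
    F.totalDegree ≤ K → (∀ t ∈ Set.Icc (0 : ℝ) 1, CB (jt j F (fun l => y l + t * E l)) S) →
    ∀ t ∈ Set.Icc (0 : ℝ) 1, ∀ t' ∈ Set.Icc (0 : ℝ) 1,
      CB (jt j F (fun l => y l + t * E l) - jt j F (fun l => y l + t' * E l)) (C * S * |t - t'|) := by
  obtain ⟨C, hC1, hC⟩ := Pool.Agent.H40.BFL.mko_thm K
  refine ⟨C, by linarith, ?_⟩
  intro j F y E S hF hS t ht t' ht' k
  obtain ⟨q, hq, hqe, -⟩ := Pool.Agent.H25.BFL.ljt_thm n K j F y E k hF
  have h1 : ∀ s ∈ Set.Icc (0 : ℝ) (0 + 1), |q.eval s| ≤ S := by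
    intro s hs
    rw [zero_add] at hs
    rw [hqe]
    exact hS s hs k
  have h2 := hC q 0 1 S hq one_pos h1
  rw [zero_add, div_one] at h2
  rw [MvPolynomial.coeff_sub, ← hqe, ← hqe]
  have h3 := (convex_Icc (0 : ℝ) 1).norm_image_sub_le_of_norm_hasDerivWithin_le
    (f := fun s => q.eval s) (f' := fun s => q.derivative.eval s) (C := C * S)
    (fun s _ => (q.hasDerivAt s).hasDerivWithinAt) (fun s hs => by
      rw [Real.norm_eq_abs]
      exact h2 s hs) ht' ht
  rwa [Real.norm_eq_abs, Real.norm_eq_abs] at h3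

end Pool.BFL.Cnl
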