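import Pool.Agent.H90.BFL.CnlB
import Pool.Agent.H90.BFL.CnlC

/-!
# Row CNL: the context
-/

set_option autoImplicit false

namespace Pool.BFL.Cnl

open Finset Real
open Pool.Agent.H49.Ent Pool.Agent.H32.Dense Pool.STK Pool.KS3

lemma two_pow_exp (N : ℕ) : (2 : ℝ) ^ N = Real.exp (N * Real.log 2) := by
  rw [Real.exp_nat_mul, Real.exp_log (by norm_num)]

lemma log_two_le : Real.log 2 ≤ 1 := by
  have := Real.log_two_lt_d9
  linarith

lemma log_two_nn : 0 ≤ Real.log 2 := Real.log_nonneg (by norm_num)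

/-- Comparison of powers of two. -/
lemma pow_le_exp {a b : ℕ} {x : ℝ} (h : (a : ℝ) ≤ b + x) (hx : 0 ≤ x) :
    (2 : ℝ) ^ a ≤ Real.exp x * 2 ^ b := by
  rw [two_pow_exp, two_pow_exp, ← Real.exp_add]
  refine Real.exp_le_exp.2 ?_
  have h1 : (a : ℝ) * Real.log 2 ≤ (b + x) * Real.log 2 :=
    mul_le_mul_of_nonneg_right h log_two_nn
  have h2 : x * Real.log 2 ≤ x * 1 := mul_le_mul_of_nonneg_left log_two_le hx
  linarith

/-! ### Times and cells -/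

lemma tm_frac {J v : ℕ} (hv : v ≤ J) (T : ℕ) :
    ∃ f : ℝ, 0 ≤ f ∧ f < 1 ∧ (T : ℝ) / 2 ^ J = (((T / 2 ^ (J - v) : ℕ) : ℝ) + f) / 2 ^ v := by
  have h1 : (2 : ℝ) ^ J = 2 ^ (J - v) * 2 ^ v := by
    rw [← pow_add, Nat.sub_add_cancel hv]
  have h2 := Nat.div_add_mod T (2 ^ (J - v))
  have h3 := Nat.mod_lt T (show 0 < 2 ^ (J - v) by positivity)
  refine ⟨((T % 2 ^ (J - v) : ℕ) : ℝ) / 2 ^ (J - v), by positivity, ?_, ?_⟩
  · rw [div_lt_one (by positivity)]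
    exact_mod_cast h3
  · have h4 : (T : ℝ) = 2 ^ (J - v) * ((T / 2 ^ (J - v) : ℕ) : ℝ) + ((T % 2 ^ (J - v) : ℕ) : ℝ) := by
      exact_mod_cast h2.symm
    rw [h1]
    field_simp
    linarith

lemma tm_coarse {J u v T T' : ℕ} (huv : u ≤ v) (hv : v ≤ J)
    (h : T / 2 ^ (J - u) = T' / 2 ^ (J - u)) :
    |((T' / 2 ^ (J - v) : ℕ) : ℤ) - ((T / 2 ^ (J - v) : ℕ) : ℤ)| ≤ 2 ^ (v - u) := by
  have e : J - u = (J - v) + (v - u) := by omega
  rw [e, pow_add, ← Nat.div_div_eq_div_mul, ← Nat.div_div_eq_div_mul] at h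
  set x := T / 2 ^ (J - v) with hx
  set y := T' / 2 ^ (J - v) with hy
  set N := 2 ^ (v - u) with hN
  have hNp : 0 < N := by rw [hN]; positivity
  have h1 := Nat.div_add_mod x N
  have h2 := Nat.div_add_mod y N
  have h3 := Nat.mod_lt x hNp
  have h4 := Nat.mod_lt y hNp
  have h5 : ((2 : ℤ) ^ (v - u)) = (N : ℤ) := by rw [hN]; push_cast; rfl
  rw [h5, abs_le]
  rw [h] at h1
  generalize N * (y / N) = P at *
  constructor <;> omega

lemma tm_same {J v T T' : ℕ} (hv : v ≤ J) (h : T / 2 ^ (J - v) = T' / 2 ^ (J - v)) :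
    |(T' : ℝ) / 2 ^ J - (T : ℝ) / 2 ^ J| ≤ 1 / 2 ^ v := by
  obtain ⟨f, h0, h1, h2⟩ := tm_frac hv T
  obtain ⟨f', h0', h1', h2'⟩ := tm_frac hv T'
  rw [h2, h2', ← h, ← sub_div, abs_div, abs_of_pos (show (0 : ℝ) < 2 ^ v by positivity)]
  refine div_le_div_of_nonneg_right ?_ (by positivity)
  rw [abs_le]
  constructor <;> linarith

lemma tm_near {J e m T T' : ℕ} (hv : e + m ≤ J) :
    |(2 : ℝ) ^ e * ((T' : ℝ) / 2 ^ J - (T : ℝ) / 2 ^ J) -
      ((((T' / 2 ^ (J - (e + m)) : ℕ) : ℤ) - ((T / 2 ^ (J - (e + m)) : ℕ) : ℤ) : ℤ) : ℝ) / 2 ^ m| ≤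
      1 / 2 ^ m := by
  obtain ⟨f, h0, h1, h2⟩ := tm_frac hv T
  obtain ⟨f', h0', h1', h2'⟩ := tm_frac hv T'
  rw [h2, h2']
  generalize T' / 2 ^ (J - (e + m)) = a'
  generalize T / 2 ^ (J - (e + m)) = a
  have e1 : (2 : ℝ) ^ e * (((a' : ℝ) + f') / 2 ^ (e + m) - ((a : ℝ) + f) / 2 ^ (e + m)) -
      (((a' : ℤ) - (a : ℤ) : ℤ) : ℝ) / 2 ^ m = (f' - f) / 2 ^ m := by
    rw [pow_add]
    push_cast
    field_simp
    ring
  rw [e1, abs_div, abs_of_pos (show (0 : ℝ) < 2 ^ m by positivity)]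
  refine div_le_div_of_nonneg_right ?_ (by positivity)
  rw [abs_le]
  constructor <;> linarith

lemma floor_coarse {u v : ℕ} (huv : u ≤ v) {x y : ℝ} (h : ⌊(2 : ℝ) ^ v * x⌋ = ⌊(2 : ℝ) ^ v * y⌋) :
    ⌊(2 : ℝ) ^ u * x⌋ = ⌊(2 : ℝ) ^ u * y⌋ := by
  have h1 : ∀ x : ℝ, ⌊(2 : ℝ) ^ u * x⌋ = ⌊(2 : ℝ) ^ v * x⌋ / ((2 ^ (v - u) : ℕ) : ℤ) := by
    intro x
    rw [← Int.floor_div_natCast]
    congr 1
    have h2 : (2 : ℝ) ^ v = 2 ^ (v - u) * 2 ^ u := by
      rw [← pow_add, Nat.sub_add_cancel huv]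
    rw [h2]
    push_cast
    field_simp
  rw [h1, h1, h]

lemma floor_near {v : ℕ} {x y : ℝ} (h : ⌊(2 : ℝ) ^ v * x⌋ = ⌊(2 : ℝ) ^ v * y⌋) :
    |y - x| ≤ 1 / 2 ^ v := by
  have h1 := Int.floor_le ((2 : ℝ) ^ v * x)
  have h2 := Int.lt_floor_add_one ((2 : ℝ) ^ v * x)
  have h3 := Int.floor_le ((2 : ℝ) ^ v * y)
  have h4 := Int.lt_floor_add_one ((2 : ℝ) ^ v * y)
  rw [← h] at h3 h4
  have hp : (0 : ℝ) < 2 ^ v := by positivity
  rw [le_div_iff₀ hp]
  have h5 : |y - x| * 2 ^ v = |2 ^ v * y - 2 ^ v * x| := by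
    rw [← mul_sub, abs_mul, abs_of_pos hp]
    ring
  rw [h5, abs_le]
  constructor <;> linarith

/-! ### The context -/

/-- The context: `u = (U - 1) z` digits to the unit of length of the core, `m` digits from it to the
cells of the blocks. -/
structure Cx {n : ℕ} (D : Dat n) (K J r w₀ z M k j U B u m : ℕ) (κ C₁ : ℝ) (q : D.Ω → ℝ)
    (Q : D.Λ × ℕ → Pl n) : Prop where
  ok : D.Ok K J r w₀ z M κ q
  hj : 1 ≤ j
  jK : j ≤ K
  kB : k + B ≤ M
  UB : U ≤ B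
  hu : u + z = U * z
  hm : u + m = B * z
  um : (j + 1) * u ≤ m
  κ0 : 0 ≤ κ
  κ1 : κ ≤ 1 / 2
  C1 : 0 ≤ C₁
  hom : D.Hom z B k j C₁
  degQ : ∀ x, (Q x).totalDegree ≤ K

namespace Cx

variable {n : ℕ} {D : Dat n} {K J r w₀ z M k j U B u m : ℕ} {κ C₁ : ℝ} {q : D.Ω → ℝ}
  {Q : D.Λ × ℕ → Pl n}

lemma vU (h : Cx D K J r w₀ z M k j U B u m κ C₁ q Q) :
    w₀ + (k + U) * z = w₀ + k * z + u + z := by
  have := h.hu
  rw [add_mul]
  omega

lemma vB (h : Cx D K J r w₀ z M k j U B u m κ C₁ q Q) :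
    w₀ + (k + B) * z = w₀ + k * z + u + m := by
  have := h.hm
  rw [add_mul]
  omega

lemma vr (h : Cx D K J r w₀ z M k j U B u m κ C₁ q Q) : w₀ + (k + B) * z ≤ r := by
  refine le_trans ?_ h.ok.top
  have := Nat.mul_le_mul_right z (show k + B ≤ M + 1 by have := h.kB; omega)
  omega

lemma zm (h : Cx D K J r w₀ z M k j U B u m κ C₁ q Q) : z ≤ m := by
  have h1 := h.hu
  have h2 := h.hm
  have h3 := Nat.mul_le_mul_right z h.UB
  omega

lemma nn (h : Cx D K J r w₀ z M k j U B u m κ C₁ q Q) (ω : D.Ω) : 0 ≤ q ω := h.ok.isLaw.nonneg ω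

/-- The chain of the labels. -/
lemma cc (h : Cx D K J r w₀ z M k j U B u m κ C₁ q Q) (i : ℕ) : ∀ d, i + d ≤ M →
    Det q (D.c (i + d)) (D.c i) := by
  intro d
  induction d with
  | zero => intro _ ω ω' _ _ h; exact h
  | succ d ih =>
    intro hd ω ω' h1 h2 h3
    exact ih (by omega) ω ω' h1 h2 (h.ok.c_c (i + d) (by omega) ω ω' h1 h2 h3)

lemma cBk (h : Cx D K J r w₀ z M k j U B u m κ C₁ q Q) : Det q (D.c (k + B)) (D.c k) :=
  h.cc k B h.kB

lemma cUk (h : Cx D K J r w₀ z M k j U B u m κ C₁ q Q) : Det q (D.c (k + U)) (D.c k) :=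
  h.cc k U (by have := h.kB; have := h.UB; omega)

lemma cBU (h : Cx D K J r w₀ z M k j U B u m κ C₁ q Q) : Det q (D.c (k + B)) (D.c (k + U)) := by
  have h1 := h.cc (k + U) (B - U) (by have := h.kB; have := h.UB; omega)
  rwa [show k + U + (B - U) = k + B by have := h.UB; omega] at h1

lemma expz (h : Cx D K J r w₀ z M k j U B u m κ C₁ q Q) : Real.exp (κ * z) ≤ 2 ^ z := by
  rw [two_pow_exp]
  refine Real.exp_le_exp.2 ?_
  rw [mul_comm]
  refine mul_le_mul_of_nonneg_left ?_ (Nat.cast_nonneg z)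
  have := Real.log_two_gt_d9
  linarith [h.κ1]

/-- Points of the ball of level `k + U`. -/
lemma Y_le (h : Cx D K J r w₀ z M k j U B u m κ C₁ q Q) {ω : D.Ω} (hω : 0 < q ω) (i : Fin n) :
    |(2 : ℝ) ^ (w₀ + k * z + u) * (D.Y J ω i - D.y₀ (k + U) (D.c (k + U) ω) i)| ≤ 1 := by
  have h1 := h.ok.y₀_near (k + U) (by have := h.kB; have := h.UB; omega) ω hω i
  rw [h.vU] at h1
  have h2 := h1.trans (div_le_div_of_nonneg_right h.expz (by positivity))
  rw [abs_mul, abs_of_pos (show (0 : ℝ) < 2 ^ (w₀ + k * z + u) by positivity)]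
  calc (2 : ℝ) ^ (w₀ + k * z + u) * _ ≤ 2 ^ (w₀ + k * z + u) *
        (2 ^ z / 2 ^ (w₀ + k * z + u + z)) := mul_le_mul_of_nonneg_left h2 (by positivity)
    _ = 1 := by
      rw [pow_add _ (w₀ + k * z + u) z]
      field_simp

/-- Points with the same cell. -/
lemma Y_cell {v : ℕ} {ω ω' : D.Ω} (h : D.cell J v ω = D.cell J v ω') (i : Fin n) :
    |D.Y J ω' i - D.Y J ω i| ≤ 1 / 2 ^ v := floor_near (congrFun h i)

lemma cell_coarse {v v' : ℕ} (hv : v ≤ v') {ω ω' : D.Ω} (h : D.cell J v' ω = D.cell J v' ω') :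
    D.cell J v ω = D.cell J v ω' := by
  funext i
  exact floor_coarse hv (congrFun h i)

/-- The homogeneous scale. -/
lemma gB (h : Cx D K J r w₀ z M k j U B u m κ C₁ q Q) :
    (2 : ℝ) ^ (D.g k + j * (B * z)) ≤ Real.exp (C₁ * z) * 2 ^ D.g (k + B) := by
  refine pow_le_exp ?_ (mul_nonneg h.C1 (Nat.cast_nonneg z))
  have h1 := h.hom B le_rfl
  rw [abs_le] at h1
  push_cast
  linarith [h1.1]

lemma gU (h : Cx D K J r w₀ z M k j U B u m κ C₁ q Q) :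
    (2 : ℝ) ^ D.g (k + U) ≤ Real.exp (C₁ * z) * 2 ^ (D.g k + j * (U * z)) := by
  refine pow_le_exp ?_ (mul_nonneg h.C1 (Nat.cast_nonneg z))
  have h1 := h.hom U h.UB
  rw [abs_le] at h1
  push_cast
  linarith [h1.2]

/-! ### Entropies -/

/-- The block. -/
noncomputable def blk (D : Dat n) (J v k' : ℕ) (ω : D.Ω) : D.Γ × (Fin n → ℤ) :=
  (D.c k' ω, D.cell J v ω)

lemma cell_ent (h : Cx D K J r w₀ z M k j U B u m κ C₁ q Q) :
    CH q (D.cell J (w₀ + (k + B) * z)) (D.c (k + B)) ≤ n * (κ * z + 2) := by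
  have h1 := CH_le_vec h.nn h.ok.isLaw.sum_one (D.cell J (w₀ + (k + B) * z)) (D.c (k + B))
    (fun _ => 2 * Real.exp (κ * z) + 1) (fun ω ω' hω hω' hc i => by
      have h2 := h.ok.y₀_near (k + B) h.kB ω hω i
      have h3 := h.ok.y₀_near (k + B) h.kB ω' hω' i
      rw [← hc] at h3
      have hp : (0 : ℝ) < 2 ^ (w₀ + (k + B) * z) := by positivity
      have h4 := Int.floor_le ((2 : ℝ) ^ (w₀ + (k + B) * z) * D.Y J ω i)
      have h5 := Int.lt_floor_add_one ((2 : ℝ) ^ (w₀ + (k + B) * z) * D.Y J ω i)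
      have h6 := Int.floor_le ((2 : ℝ) ^ (w₀ + (k + B) * z) * D.Y J ω' i)
      have h7 := Int.lt_floor_add_one ((2 : ℝ) ^ (w₀ + (k + B) * z) * D.Y J ω' i)
      have h8 : |(2 : ℝ) ^ (w₀ + (k + B) * z) * D.Y J ω i -
          2 ^ (w₀ + (k + B) * z) * D.Y J ω' i| ≤ 2 * Real.exp (κ * z) := by
        rw [← mul_sub, abs_mul, abs_of_pos hp]
        have h9 : |D.Y J ω i - D.Y J ω' i| ≤
            2 * (Real.exp (κ * z) / 2 ^ (w₀ + (k + B) * z)) := by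
          have h10 := abs_sub_le (D.Y J ω i) (D.y₀ (k + B) (D.c (k + B) ω) i) (D.Y J ω' i)
          rw [abs_sub_comm (D.y₀ (k + B) (D.c (k + B) ω) i)] at h10
          linarith
        calc (2 : ℝ) ^ (w₀ + (k + B) * z) * |D.Y J ω i - D.Y J ω' i| ≤
              2 ^ (w₀ + (k + B) * z) * (2 * (Real.exp (κ * z) / 2 ^ (w₀ + (k + B) * z))) :=
              mul_le_mul_of_nonneg_left h9 hp.le
          _ = 2 * Real.exp (κ * z) := by field_simp
      unfold Dat.cell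
      push_cast
      rw [abs_le] at h8 ⊢
      constructor <;> linarith [h8.1, h8.2])
  refine h1.trans ?_
  refine mul_le_mul_of_nonneg_left ?_ (Nat.cast_nonneg n)
  unfold Ex
  rw [← Finset.sum_mul, h.ok.isLaw.sum_one, one_mul]
  have h2 : 2 * (2 * Real.exp (κ * z) + 1) + 1 ≤ 7 * Real.exp (κ * z) := by
    have h3 : 1 ≤ Real.exp (κ * z) := Real.one_le_exp (mul_nonneg h.κ0 (Nat.cast_nonneg z))
    linarith
  refine (Real.log_le_log (by positivity) h2).trans ?_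
  rw [Real.log_mul (by norm_num) (Real.exp_pos _).ne', Real.log_exp]
  have h4 : Real.log 7 ≤ 2 := by
    rw [Real.log_le_iff_le_exp (by norm_num)]
    have h5 := Real.exp_one_gt_d9
    have h6 : Real.exp 2 = Real.exp 1 * Real.exp 1 := by
      rw [← Real.exp_add]
      norm_num
    rw [h6]
    nlinarith
  linarith

/-- Independence of the variable `V` and of the block. -/
lemma indep (h : Cx D K J r w₀ z M k j U B u m κ C₁ q Q) {𝒱 : Type} (V : D.Ω → 𝒱) {d : ℝ}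
    (hd : CH q V (D.c (k + U)) - CH q V (D.c (k + B)) ≤ d) :
    CH q V (D.c (k + U)) - CH q V (tg q (blk D J (w₀ + (k + B) * z) (k + B))) ≤
      d + n * (κ * z + 2) := by
  have h1 := CH_le_add h.nn V (D.cell J (w₀ + (k + B) * z)) (D.c (k + B))
  have h2 : CH q V (fun ω => (D.cell J (w₀ + (k + B) * z) ω, D.c (k + B) ω)) =
      CH q V (tg q (blk D J (w₀ + (k + B) * z) (k + B))) := by
    refine CH_congr h.nn (fun ω ω' _ _ hh => (Prod.ext_iff.1 hh).1)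
      (fun ω ω' _ _ hh => (Prod.ext_iff.1 hh).1) ?_ ?_
    · intro ω ω' hω hω' hh
      have h3 := Prod.ext_iff.1 hh
      exact det_tg _ ω ω' hω hω' (Prod.ext h3.2 h3.1)
    · intro ω ω' hω hω' hh
      have h3 := det_tg' (blk D J (w₀ + (k + B) * z) (k + B)) ω ω' hω hω' hh
      have h4 := Prod.ext_iff.1 h3
      exact Prod.ext h4.2 h4.1
  rw [h2] at h1
  linarith [h.cell_ent]

/-- Fullness of the time. -/
lemma timeFull (h : Cx D K J r w₀ z M k j U B u m κ C₁ q Q) :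
    m * Real.log 2 - (z + κ * z) ≤
      CH q (fun ω => ((D.T ω / 2 ^ (J - (w₀ + (k + B) * z)) : ℕ) : ℤ))
        (tg q (D.wn J (w₀ + (k + U) * z))) := by
  have h0 : w₀ + (k + U) * z ≤ w₀ + (k + B) * z := by
    have := Nat.mul_le_mul_right z (show k + U ≤ k + B by have := h.UB; omega)
    omega
  have h1 := time_full h.ok.isLaw (J := J) D.T D.ln h0 (h.vr.trans h.ok.r_le) h.ok.T_lt h.ok.time
  have h2 : CH q (fun ω => D.T ω / 2 ^ (J - (w₀ + (k + B) * z)))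
      (fun ω => (D.ln ω, D.T ω / 2 ^ (J - (w₀ + (k + U) * z)))) =
      CH q (fun ω => ((D.T ω / 2 ^ (J - (w₀ + (k + B) * z)) : ℕ) : ℤ))
        (tg q (D.wn J (w₀ + (k + U) * z))) := by
    refine CH_congr h.nn ?_ ?_ (det_tg _) (det_tg' _)
    · intro ω ω' _ _ hh
      have h3 := (Prod.ext_iff.1 hh).1
      show ((_ : ℕ) : ℤ) = ((_ : ℕ) : ℤ)
      exact congrArg _ h3
    · intro ω ω' _ _ hh
      exact Int.ofNat.inj (Prod.ext_iff.1 hh).1
  rw [h2] at h1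
  refine le_trans ?_ h1
  have h3 : ((w₀ + (k + B) * z : ℕ) : ℝ) - ((w₀ + (k + U) * z : ℕ) : ℝ) = m - z := by
    rw [h.vU, h.vB]
    push_cast
    ring
  rw [h3]
  have h4 : (z : ℝ) * Real.log 2 ≤ z * 1 :=
    mul_le_mul_of_nonneg_left log_two_le (Nat.cast_nonneg z)
  linarith

/-- Span of the directions. -/
lemma span (h : Cx D K J r w₀ z M k j U B u m κ C₁ q Q) {θ : ℝ} (hθ : κ * z ≤ θ) :
    ∃ e : (D.Γ × (Fin n → ℤ)) ⊕ D.Ω → ℝ, (∀ x, 0 ≤ e x) ∧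
      Ex q (fun ω => e (tg q (blk D J (w₀ + (k + B) * z) (k + B)) ω)) ≤ κ ∧
      ∀ ω, 0 < q ω → ∀ v : Fin n → ℝ, (∃ i, 1 ≤ |v i|) →
        Pb q (fun ω' => tg q (blk D J (w₀ + (k + B) * z) (k + B)) ω' =
            tg q (blk D J (w₀ + (k + B) * z) (k + B)) ω ∧
          |∑ i, v i * D.E (D.ln ω') i| ≤ Real.exp (-θ)) ≤
          e (tg q (blk D J (w₀ + (k + B) * z) (k + B)) ω) *
            law q (tg q (blk D J (w₀ + (k + B) * z) (k + B)))
              (tg q (blk D J (w₀ + (k + B) * z) (k + B)) ω) := by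
  classical
  obtain ⟨e, he0, he1, he2⟩ := h.ok.nc
  set bk := tg q (blk D J (w₀ + (k + B) * z) (k + B)) with hbk
  set f : (D.Γ × (Fin n → ℤ)) ⊕ D.Ω → ℝ :=
    fun x => ∑ ω', if bk ω' = x then q ω' * e (D.pt ω') else 0 with hf
  have hf0 : ∀ x, 0 ≤ f x := fun x => Finset.sum_nonneg fun ω' _ => by
    split_ifs
    · exact mul_nonneg (h.nn ω') (he0 _)
    · exact le_rfl
  refine ⟨fun x => f x / law q bk x, fun x => div_nonneg (hf0 x) (law_nonneg h.nn _ _), ?_, ?_⟩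
  · refine le_trans ?_ he1
    have h1 := sum_mul_eq_sum_image q bk (fun x => f x / law q bk x)
    unfold Ex
    rw [h1]
    have h2 : ∀ x ∈ univ.image bk, law q bk x * (f x / law q bk x) ≤ f x := by
      intro x _
      rcases eq_or_lt_of_le (law_nonneg h.nn bk x) with h3 | h3
      · rw [← h3, zero_mul]
        exact hf0 x
      · rw [mul_div_cancel₀ _ h3.ne']
    refine (Finset.sum_le_sum h2).trans (le_of_eq ?_)
    rw [hf, Finset.sum_comm]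
    refine Finset.sum_congr rfl fun ω' _ => ?_
    rw [Finset.sum_ite_eq (univ.image bk) (bk ω') (fun _ => q ω' * e (D.pt ω')),
      if_pos (Finset.mem_image_of_mem _ (Finset.mem_univ _))]
  · intro ω hω v hv
    have hpb : Det q D.pt bk := by
      intro ω₁ ω₂ h1 h2 h3
      refine det_tg _ ω₁ ω₂ h1 h2 (Prod.ext (h.ok.c_pt (k + B) h.kB ω₁ ω₂ h1 h2 h3) ?_)
      exact cell_coarse h.vr (h.ok.pt_Y ω₁ ω₂ h1 h2 h3)
    have h1 := nc_block h.ok.isLaw D.pt bk hpb e he0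
      (fun ω' => |∑ i, v i * D.E (D.ln ω') i| ≤ Real.exp (-(κ * z))) (fun ω' hω' =>
        he2 ω' hω' v hv) ω
    have h2 : Pb q (fun ω' => bk ω' = bk ω ∧ |∑ i, v i * D.E (D.ln ω') i| ≤ Real.exp (-θ)) ≤
        Pb q (fun ω' => bk ω' = bk ω ∧ |∑ i, v i * D.E (D.ln ω') i| ≤ Real.exp (-(κ * z))) :=
      Pb_mono h.ok.isLaw fun ω' _ h' => ⟨h'.1, h'.2.trans (Real.exp_le_exp.2 (by linarith))⟩
    refine h2.trans (h1.trans (le_of_eq ?_))
    show _ = f (bk ω) / law q bk (bk ω) * law q bk (bk ω)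
    rw [div_mul_cancel₀ _ (law_pos h.nn bk hω).ne', hf]
    refine Finset.sum_congr rfl fun ω' _ => ?_
    by_cases h5 : bk ω' = bk ω
    · rw [if_pos h5, if_pos h5]
    · rw [if_neg h5, if_neg h5]

end Cx

end Pool.BFL.Cnl
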