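import Pool.Agent.H90.BFL.CnlD

/-!
# Row CNL: the Taylor polynomials of the blocks
-/

set_option autoImplicit false

namespace Pool.BFL.Cnl

open Finset Real
open Pool.Agent.H49.Ent Pool.Agent.H32.Dense Pool.STK Pool.KS3
open Pool.Agent.H36.KBX (bx eval_bound coef_bound coeff_pderiv_bound)

lemma tay_pt {n j : ℕ} (hj : 1 ≤ j) (G : Pl n) (y : Fin n → ℝ) :
    MvPolynomial.eval y (tay j G y) = MvPolynomial.eval y G := by
  rw [tay_eval]
  have e0 : (fun l => y l - y l) = fun _ => (0 : ℝ) := by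
    funext l
    ring
  have h1 : ∀ i, MvPolynomial.eval (fun l => y l - y l) (jt i G y) =
      if i = 0 then MvPolynomial.eval y G else 0 := by
    intro i
    rw [jt_eval, e0]
    have h2 : ln G y (fun _ => (0 : ℝ)) = Polynomial.C (MvPolynomial.eval y G) := by
      apply Polynomial.funext
      intro τ
      rw [ln_eval, Polynomial.eval_C]
      refine congrArg (fun y => MvPolynomial.eval y G) ?_
      funext l
      ring
    rw [h2, Polynomial.coeff_C]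
  rw [Finset.sum_congr rfl fun i _ => h1 i, Finset.sum_ite_eq' (range j) 0 (fun _ => _),
    if_pos (Finset.mem_range.2 (by omega))]

/-- The difference of the two sheets. -/
noncomputable def dF {n : ℕ} (D : Dat n) (k B : ℕ) (ω : D.Ω) : Pl n :=
  D.F (k + B) (D.c (k + B) ω) - D.F k (D.c k ω)

/-- The Taylor polynomial at a point. -/
noncomputable def TA {n : ℕ} (D : Dat n) (J k B j : ℕ) (ω : D.Ω) : Pl n :=
  tay j (dF D k B ω) (D.Y J ω)

/-- The scaled Taylor polynomial. -/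
noncomputable def TT {n : ℕ} (D : Dat n) (J k B U j e g : ℕ) (ω : D.Ω) : Pl n :=
  sc (TA D J k B j ω) (D.y₀ (k + U) (D.c (k + U) ω)) (1 / 2 ^ e) (2 ^ g)

/-- The scaled position. -/
noncomputable def Yc {n : ℕ} (D : Dat n) (J k U e : ℕ) (ω : D.Ω) (i : Fin n) : ℝ :=
  2 ^ e * (D.Y J ω i - D.y₀ (k + U) (D.c (k + U) ω) i)

lemma Yc_back {n : ℕ} (D : Dat n) (J k U e : ℕ) (ω : D.Ω) :
    (fun l => D.y₀ (k + U) (D.c (k + U) ω) l + 1 / 2 ^ e * Yc D J k U e ω l) = D.Y J ω := by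
  funext l
  unfold Yc
  field_simp
  ring

namespace Cx

variable {n : ℕ} {D : Dat n} {K J r w₀ z M k j U B u m : ℕ} {κ C₁ : ℝ} {q : D.Ω → ℝ}
  {Q : D.Λ × ℕ → Pl n}

lemma dF_deg (h : Cx D K J r w₀ z M k j U B u m κ C₁ q Q) (ω : D.Ω) :
    (dF D k B ω).totalDegree ≤ K :=
  (MvPolynomial.totalDegree_sub _ _).trans (max_le (h.ok.F_deg _ _) (h.ok.F_deg _ _))

lemma dF_blk (h : Cx D K J r w₀ z M k j U B u m κ C₁ q Q) {ω ω' : D.Ω} (hω : 0 < q ω)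
    (hω' : 0 < q ω') (hc : D.c (k + B) ω = D.c (k + B) ω') : dF D k B ω = dF D k B ω' := by
  unfold dF
  rw [hc, h.cBk ω ω' hω hω' hc]

/-- High jets. -/
lemma jt_hi (h : Cx D K J r w₀ z M k j U B u m κ C₁ q Q) {C₂ : ℝ} {ω : D.Ω}
    (hG : D.JGd K J w₀ z B k j C₂ Q ω) {i : ℕ} (hi : i ≤ K) (hji : j ≤ i) :
    CB (jt i (dF D k B ω) (D.Y J ω)) (Real.exp (C₂ * z) / 2 ^ (D.g k + j * (B * z)) /
      (1 / 2 ^ (w₀ + k * z + u + m)) ^ i) := by
  intro l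
  refine (hG.b1 B le_rfl i hi l).trans (le_of_eq ?_)
  have h1 : (2 : ℝ) ^ (i * (w₀ + k * z) + (i - j) * (B * z)) * 2 ^ (j * (B * z)) =
      2 ^ ((w₀ + k * z + u + m) * i) := by
    rw [← pow_add]
    congr 1
    obtain ⟨d, rfl⟩ := Nat.exists_eq_add_of_le hji
    rw [Nat.add_sub_cancel_left, ← h.hm]
    ring
  rw [one_div, inv_pow, div_inv_eq_mul, ← pow_mul, ← h1, pow_add _ (D.g k)]
  field_simp

/-- Low jets. -/
lemma jt_lo (h : Cx D K J r w₀ z M k j U B u m κ C₁ q Q) {C₂ : ℝ} {ω : D.Ω}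
    (hG : D.JGd K J w₀ z B k j C₂ Q ω) {i v : ℕ} (hi : i < j) (hv : w₀ + k * z ≤ v) :
    CB (jt i (dF D k B ω) (D.Y J ω)) (Real.exp (C₂ * z) / 2 ^ D.g k / (1 / 2 ^ v) ^ i) := by
  intro l
  refine (hG.b1 B le_rfl i (by have := h.jK; omega) l).trans ?_
  rw [Nat.sub_eq_zero_of_le hi.le, Nat.zero_mul, Nat.add_zero, one_div, inv_pow, div_inv_eq_mul,
    ← pow_mul]
  have h1 : (2 : ℝ) ^ (i * (w₀ + k * z)) ≤ 2 ^ (v * i) :=
    pow_le_pow_right₀ (by norm_num) (by rw [mul_comm]; exact Nat.mul_le_mul_right i hv)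
  calc Real.exp (C₂ * z) * 2 ^ (i * (w₀ + k * z)) / 2 ^ D.g k ≤
        Real.exp (C₂ * z) * 2 ^ (v * i) / 2 ^ D.g k :=
        div_le_div_of_nonneg_right (mul_le_mul_of_nonneg_left h1 (Real.exp_pos _).le)
          (by positivity)
    _ = _ := by ring

/-- The exponents of the change of the base point. -/
lemma num1 (h : Cx D K J r w₀ z M k j U B u m κ C₁ q Q) (x : ℝ) :
    (2 : ℝ) ^ (D.g k + j * u) * ((2 ^ m) ^ (j - 1) * (x / 2 ^ (D.g k + j * (B * z)))) =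
      x / 2 ^ m := by
  have h1 : (2 : ℝ) ^ (D.g k + j * (B * z)) = 2 ^ (D.g k + j * u) * ((2 ^ m) ^ (j - 1) * 2 ^ m) := by
    rw [← pow_succ, ← pow_mul, ← pow_add]
    congr 1
    rw [Nat.sub_add_cancel h.hj, ← h.hm]
    ring
  rw [h1]
  field_simp

/-- Change of the point of the block. -/
theorem rep_near (n K : ℕ) (R₀ : ℝ) (hR : 1 ≤ R₀) : ∃ C : ℝ, 0 ≤ C ∧
    ∀ {D : Dat n} {J r w₀ z M k j U B u m : ℕ} {κ C₁ : ℝ} {q : D.Ω → ℝ}
      {Q : D.Λ × ℕ → Pl n}, Cx D K J r w₀ z M k j U B u m κ C₁ q Q → ∀ (C₂ : ℝ) (R ω : D.Ω)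
      (x : Fin n → ℝ), D.JGd K J w₀ z B k j C₂ Q R →
      (∀ i, |D.Y J ω i - D.Y J R i| ≤ 1 / 2 ^ (w₀ + k * z + u + m)) →
      (∀ i, |x i - D.Y J ω i| ≤ R₀ / 2 ^ (w₀ + k * z + u)) →
      2 ^ (D.g k + j * u) * |MvPolynomial.eval x (tay j (dF D k B R) (D.Y J ω)) -
        MvPolynomial.eval x (TA D J k B j R)| ≤ C * (Real.exp (C₂ * z) / 2 ^ m) := by
  obtain ⟨C, hC0, hC⟩ := tay_near n K
  refine ⟨C * R₀ ^ K, by positivity, ?_⟩
  intro D J r w₀ z M k j U B u m κ C₁ q Q h C₂ R ω x hG hY hx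
  have hm1 : (1 : ℝ) ≤ 2 ^ m := one_le_pow₀ (by norm_num)
  have h1 := hC j (dF D k B R) (D.Y J R) (D.Y J ω) x (1 / 2 ^ (w₀ + k * z + u + m)) (R₀ * 2 ^ m)
    (Real.exp (C₂ * z) / 2 ^ (D.g k + j * (B * z))) (h.dF_deg R) h.hj
    (by have := h.jK; omega) (by positivity) (by nlinarith) (by positivity)
    (fun i hi hji => h.jt_hi hG hi hji) hY (fun i => by
      refine (hx i).trans (le_of_eq ?_)
      rw [pow_add _ (w₀ + k * z + u) m]
      field_simp)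
  refine (mul_le_mul_of_nonneg_left h1 (by positivity)).trans ?_
  rw [mul_pow]
  have h2 := h.num1 (Real.exp (C₂ * z))
  calc (2 : ℝ) ^ (D.g k + j * u) * (C * (R₀ ^ (j - 1) * (2 ^ m) ^ (j - 1)) *
        (Real.exp (C₂ * z) / 2 ^ (D.g k + j * (B * z)))) =
      C * R₀ ^ (j - 1) * ((2 : ℝ) ^ (D.g k + j * u) * ((2 ^ m) ^ (j - 1) *
        (Real.exp (C₂ * z) / 2 ^ (D.g k + j * (B * z))))) := by ring
    _ = C * R₀ ^ (j - 1) * (Real.exp (C₂ * z) / 2 ^ m) := by rw [h2]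
    _ ≤ C * R₀ ^ K * (Real.exp (C₂ * z) / 2 ^ m) := by
      have h3 : R₀ ^ (j - 1) ≤ R₀ ^ K :=
        pow_le_pow_right₀ hR (by have := h.jK; omega)
      exact mul_le_mul_of_nonneg_right (mul_le_mul_of_nonneg_left h3 hC0) (by positivity)

/-- The height over the Taylor polynomial. -/
theorem hgt_near (n K : ℕ) : ∃ C : ℝ, 0 ≤ C ∧
    ∀ {D : Dat n} {J r w₀ z M k j U B u m : ℕ} {κ C₁ : ℝ} {q : D.Ω → ℝ}
      {Q : D.Λ × ℕ → Pl n}, Cx D K J r w₀ z M k j U B u m κ C₁ q Q → ∀ (C₂ : ℝ) (R ω : D.Ω),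
      0 ≤ C₂ → D.JGd K J w₀ z B k j C₂ Q R → 0 < q ω → dF D k B R = dF D k B ω →
      (∀ i, |D.Y J ω i - D.Y J R i| ≤ 1 / 2 ^ (w₀ + k * z + u + m)) →
      2 ^ (D.g k + j * u) * |D.rh J k ω - MvPolynomial.eval (D.Y J ω) (TA D J k B j R)| ≤
        C * (Real.exp ((C₁ + C₂ + 1) * z) / 2 ^ m) := by
  obtain ⟨C, hC0, hC⟩ := rep_near n K 1 le_rfl
  refine ⟨C + 1, by positivity, ?_⟩
  intro D J r w₀ z M k j U B u m κ C₁ q Q h C₂ R ω hC2 hG hω hdF hY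
  have h1 := hC h C₂ R ω (D.Y J ω) hG hY (fun i => by
    rw [sub_self, abs_zero]
    positivity)
  rw [tay_pt h.hj] at h1
  have h2 : |D.rh J k ω - MvPolynomial.eval (D.Y J ω) (dF D k B R)| ≤
      Real.exp (κ * z) / 2 ^ D.g (k + B) := by
    have h3 := h.ok.F_hgt (k + B) h.kB ω hω
    have e1 : D.rh J k ω - MvPolynomial.eval (D.Y J ω) (dF D k B R) = D.rh J (k + B) ω := by
      rw [hdF]
      unfold dF Dat.rh
      rw [map_sub]
      ring
    rwa [e1]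
  have h4 : 2 ^ (D.g k + j * u) * (Real.exp (κ * z) / 2 ^ D.g (k + B)) ≤
      Real.exp ((C₁ + 1) * z) / 2 ^ m := by
    have h5 := h.gB
    rw [← mul_div_assoc, div_le_div_iff₀ (by positivity) (by positivity)]
    have h6 : (2 : ℝ) ^ (D.g k + j * u) * 2 ^ m ≤ 2 ^ (D.g k + j * (B * z)) := by
      rw [← pow_add]
      refine pow_le_pow_right₀ (by norm_num) ?_
      rw [← h.hm, Nat.mul_add]
      have := Nat.mul_le_mul_right m h.hj
      omega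
    have h7 : Real.exp (κ * z) ≤ Real.exp (1 * z) :=
      Real.exp_le_exp.2 (mul_le_mul_of_nonneg_right (by linarith [h.κ1]) (Nat.cast_nonneg z))
    have h8 : Real.exp ((C₁ + 1) * z) = Real.exp (C₁ * z) * Real.exp (1 * z) := by
      rw [← Real.exp_add, add_mul]
    rw [h8]
    calc (2 : ℝ) ^ (D.g k + j * u) * Real.exp (κ * z) * 2 ^ m =
          Real.exp (κ * z) * ((2 : ℝ) ^ (D.g k + j * u) * 2 ^ m) := by ring
      _ ≤ Real.exp (1 * z) * (Real.exp (C₁ * z) * 2 ^ D.g (k + B)) :=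
          mul_le_mul h7 (h6.trans h5) (by positivity) (by positivity)
      _ = _ := by ring
  have h9 : Real.exp ((C₁ + 1) * z) ≤ Real.exp ((C₁ + C₂ + 1) * z) :=
    Real.exp_le_exp.2 (mul_le_mul_of_nonneg_right (by linarith) (Nat.cast_nonneg z))
  have h10 : Real.exp (C₂ * z) ≤ Real.exp ((C₁ + C₂ + 1) * z) :=
    Real.exp_le_exp.2 (mul_le_mul_of_nonneg_right (by linarith [h.C1]) (Nat.cast_nonneg z))
  have h11 : |D.rh J k ω - MvPolynomial.eval (D.Y J ω) (TA D J k B j R)| ≤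
      |D.rh J k ω - MvPolynomial.eval (D.Y J ω) (dF D k B R)| +
      |MvPolynomial.eval (D.Y J ω) (dF D k B R) - MvPolynomial.eval (D.Y J ω) (TA D J k B j R)| :=
    abs_sub_le _ _ _
  have hm0 : (0 : ℝ) < 2 ^ m := by positivity
  calc 2 ^ (D.g k + j * u) * |D.rh J k ω - MvPolynomial.eval (D.Y J ω) (TA D J k B j R)| ≤
      2 ^ (D.g k + j * u) * (|D.rh J k ω - MvPolynomial.eval (D.Y J ω) (dF D k B R)| +
      |MvPolynomial.eval (D.Y J ω) (dF D k B R) -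
        MvPolynomial.eval (D.Y J ω) (TA D J k B j R)|) :=
        mul_le_mul_of_nonneg_left h11 (by positivity)
    _ ≤ 2 ^ (D.g k + j * u) * (Real.exp (κ * z) / 2 ^ D.g (k + B)) +
        C * (Real.exp (C₂ * z) / 2 ^ m) := by
        rw [mul_add]
        exact add_le_add (mul_le_mul_of_nonneg_left h2 (by positivity)) h1
    _ ≤ Real.exp ((C₁ + C₂ + 1) * z) / 2 ^ m + C * (Real.exp ((C₁ + C₂ + 1) * z) / 2 ^ m) :=
        add_le_add (h4.trans (div_le_div_of_nonneg_right h9 hm0.le))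
          (mul_le_mul_of_nonneg_left (div_le_div_of_nonneg_right h10 hm0.le) hC0)
    _ = _ := by ring

/-- The scaled Taylor polynomial is Lipschitz. -/
theorem TT_lip (n K : ℕ) (R₀ : ℝ) (hR : 1 ≤ R₀) : ∃ C : ℝ, 0 ≤ C ∧
    ∀ {D : Dat n} {J r w₀ z M k j U B u m : ℕ} {κ C₁ : ℝ} {q : D.Ω → ℝ}
      {Q : D.Λ × ℕ → Pl n}, Cx D K J r w₀ z M k j U B u m κ C₁ q Q → ∀ (C₂ : ℝ) (R : D.Ω),
      0 < q R → D.JGd K J w₀ z B k j C₂ Q R → ∀ y y' : Fin n → ℝ, (∀ i, |y i| ≤ R₀) →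
      (∀ i, |y' i| ≤ R₀) → (∀ i, |y i - y' i| ≤ R₀ / 2 ^ m) →
      |MvPolynomial.eval y (TT D J k B U j (w₀ + k * z + u) (D.g k + j * u) R) -
        MvPolynomial.eval y' (TT D J k B U j (w₀ + k * z + u) (D.g k + j * u) R)| ≤
        C * (Real.exp (C₂ * z) / 2 ^ u) := by
  obtain ⟨C, hC0, hC⟩ := sc_tay_lip n K R₀ hR
  refine ⟨C * R₀, by positivity, ?_⟩
  intro D J r w₀ z M k j U B u m κ C₁ q Q h C₂ R hR0 hG y y' hy hy' hyy
  have h1 := hC j (dF D k B R) (D.y₀ (k + U) (D.c (k + U) R)) (Yc D J k U (w₀ + k * z + u) R) y y'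
    (1 / 2 ^ (w₀ + k * z + u)) (2 ^ (D.g k + j * u)) (Real.exp (C₂ * z) / 2 ^ D.g k) (R₀ / 2 ^ m)
    (by have := h.jK; omega) (by positivity) (by positivity) (by positivity) (by positivity)
    (fun i hi => by
      rw [Yc_back]
      exact h.jt_lo hG hi (by omega)) (fun i => (h.Y_le hR0 i).trans hR) hy hy' hyy
  rw [Yc_back] at h1
  refine h1.trans ?_
  have h2 : (2 : ℝ) ^ (D.g k + j * u) * (Real.exp (C₂ * z) / 2 ^ D.g k) =
      Real.exp (C₂ * z) * 2 ^ (j * u) := by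
    rw [pow_add]
    field_simp
  rw [h2]
  have h3 : (2 : ℝ) ^ (j * u) * 2 ^ u ≤ 2 ^ m := by
    rw [← pow_add]
    refine pow_le_pow_right₀ (by norm_num) ?_
    have := h.um
    linarith [add_mul j 1 u]
  have h4 : (2 : ℝ) ^ (j * u) / 2 ^ m ≤ 1 / 2 ^ u := by
    rw [div_le_div_iff₀ (by positivity) (by positivity), one_mul]
    exact h3
  calc C * (R₀ / 2 ^ m) * (Real.exp (C₂ * z) * 2 ^ (j * u)) =
      C * R₀ * Real.exp (C₂ * z) * (2 ^ (j * u) / 2 ^ m) := by ring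
    _ ≤ C * R₀ * Real.exp (C₂ * z) * (1 / 2 ^ u) :=
      mul_le_mul_of_nonneg_left h4 (by positivity)
    _ = _ := by ring

end Cx

end Pool.BFL.Cnl
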