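import Pool.Agent.H90.BFL.CnlE

/-!
# Row CNL: transport
-/

set_option autoImplicit false

namespace Pool.BFL.Cnl

open Finset Real
open Pool.Agent.H49.Ent Pool.Agent.H32.Dense Pool.STK Pool.KS3
open Pool.Agent.H36.KBX (bx eval_bound coef_bound coeff_pderiv_bound)

/-- The position at a relative time. -/
lemma Yt_eq {n : ℕ} {D : Dat n} {J v : ℕ} {ω : D.Ω} {t τ : ℝ}
    (ht : ((D.T ω / 2 ^ (J - v) : ℕ) : ℝ) + τ = 2 ^ v * ((D.T ω : ℝ) / 2 ^ J + t)) :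
    D.Yt J v ω τ = fun l => D.Y J ω l + t * D.E (D.ln ω) l := by
  funext l
  unfold Dat.Yt Dat.Y
  rw [ht]
  field_simp
  ring

/-- Times in the window. -/
lemma rel_time {J v T : ℕ} (hv : v ≤ J) :
    ∃ τ : ℝ, 0 ≤ τ ∧ τ ≤ 1 ∧ ((T / 2 ^ (J - v) : ℕ) : ℝ) + τ = 2 ^ v * ((T : ℝ) / 2 ^ J) := by
  obtain ⟨f, h0, h1, h2⟩ := tm_frac hv T
  refine ⟨f, h0, h1.le, ?_⟩
  rw [h2]
  field_simp

namespace Cx

variable {n : ℕ} {D : Dat n} {K J r w₀ z M k j U B u m : ℕ} {κ C₁ : ℝ} {q : D.Ω → ℝ}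
  {Q : D.Λ × ℕ → Pl n}

/-- The polynomial of the tube over the sheet of level `k`. -/
noncomputable def dQ {n : ℕ} (D : Dat n) (J k v : ℕ) (Q : D.Λ × ℕ → Pl n) (ω : D.Ω) : Pl n :=
  Q (D.wn J v ω) - D.F k (D.c k ω)

lemma dQ_deg (h : Cx D K J r w₀ z M k j U B u m κ C₁ q Q) (ω : D.Ω) :
    (dQ D J k (w₀ + k * z) Q ω).totalDegree ≤ K :=
  (MvPolynomial.totalDegree_sub _ _).trans (max_le (h.degQ _) (h.ok.F_deg _ _))

lemma wn_coarse {v v' : ℕ} (hv : v ≤ v') (hJ : v' ≤ J) {ω ω' : D.Ω}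
    (h : D.wn J v' ω = D.wn J v' ω') : D.wn J v ω = D.wn J v ω' := by
  have h1 := Prod.ext_iff.1 h
  refine Prod.ext h1.1 ?_
  have e : J - v = (J - v') + (v' - v) := by omega
  show D.T ω / 2 ^ (J - v) = D.T ω' / 2 ^ (J - v)
  rw [e, pow_add, ← Nat.div_div_eq_div_mul, ← Nat.div_div_eq_div_mul]
  have h2 : D.T ω / 2 ^ (J - v') = D.T ω' / 2 ^ (J - v') := h1.2
  rw [h2]

/-- **Transport**, absolute form, for two points of the same window. -/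
theorem trans_abs (n K : ℕ) (R₀ : ℝ) (hR : 1 ≤ R₀) : ∃ C : ℝ, 0 ≤ C ∧
    ∀ {D : Dat n} {J r w₀ z M k j U B u m : ℕ} {κ C₁ : ℝ} {q : D.Ω → ℝ}
      {Q : D.Λ × ℕ → Pl n}, Cx D K J r w₀ z M k j U B u m κ C₁ q Q → ∀ (C₂ : ℝ) (ω ω' : D.Ω)
      (x : Fin n → ℝ), 0 ≤ C₂ → 0 < q ω → 0 < q ω' →
      D.wn J (w₀ + k * z + u + z) ω = D.wn J (w₀ + k * z + u + z) ω' →
      D.JGd K J w₀ z B k j C₂ Q ω → D.JGd K J w₀ z B k j C₂ Q ω' →
      (∀ i, |x i - D.Y J ω i| ≤ R₀ / 2 ^ (w₀ + k * z + u)) →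
      2 ^ (D.g k + j * u) * |MvPolynomial.eval x (TA D J k B j ω') -
        MvPolynomial.eval x (TA D J k B j ω) - lg (D.tb J w₀ z j k Q ω) (D.Y J ω)
          (D.E (D.ln ω)) ((D.T ω' : ℝ) / 2 ^ J - (D.T ω : ℝ) / 2 ^ J) x| ≤
        C * (Real.exp ((C₁ + C₂) * z) / 2 ^ u) := by
  choose Ct hCt1 hCt using fun j : {j : ℕ // 1 ≤ j} => Pool.BFL.Tra.tra_thm n K j R₀ j.2 hR
  obtain ⟨Cv, hCv0, hCv⟩ := jt_var n K
  obtain ⟨S, hS⟩ : ∃ S : ℝ, S = ∑ i ∈ range (K + 1), if hi : 1 ≤ i then Ct ⟨i, hi⟩ else 0 :=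
    ⟨_, rfl⟩
  have hCtS : ∀ i (hi : 1 ≤ i), i ≤ K → Ct ⟨i, hi⟩ ≤ S := by
    intro i hi hiK
    rw [hS]
    have h1 := Finset.single_le_sum (f := fun i => if hi : 1 ≤ i then Ct ⟨i, hi⟩ else 0)
      (s := range (K + 1)) (fun i _ => by
        show 0 ≤ if hi : 1 ≤ i then Ct ⟨i, hi⟩ else 0
        split_ifs with h
        · linarith [hCt1 ⟨i, h⟩]
        · exact le_rfl) (Finset.mem_range.2 (show i < K + 1 by omega))
    refine le_trans (le_of_eq ?_) h1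
    show _ = if hi : 1 ≤ i then Ct ⟨i, hi⟩ else 0
    rw [dif_pos hi]
  have hS0 : 0 ≤ S := by
    rw [hS]
    refine Finset.sum_nonneg fun i _ => ?_
    split_ifs with h
    · linarith [hCt1 ⟨i, h⟩]
    · exact le_rfl
  refine ⟨S * (1 + Cv), by positivity, ?_⟩
  intro D J r w₀ z M k j U B u m κ C₁ q Q h C₂ ω ω' x hC2 hω hω' hwn hG hG' hx
  have hvJ : w₀ + k * z + u + z ≤ J := by
    have h1 := h.vr.trans h.ok.r_le
    rw [h.vB] at h1
    have := h.zm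
    omega
  have hwn0 : D.wn J (w₀ + k * z) ω = D.wn J (w₀ + k * z) ω' := wn_coarse (by omega) hvJ hwn
  have hln : D.ln ω = D.ln ω' := (Prod.ext_iff.1 hwn).1
  have hck : D.c k ω = D.c k ω' := by
    refine h.cUk ω ω' hω hω' (h.ok.c_wn (k + U) (by have := h.kB; have := h.UB; omega) ω ω' hω hω'
      ?_)
    rw [h.vU]
    exact hwn
  have hdQ : dQ D J k (w₀ + k * z) Q ω' = dQ D J k (w₀ + k * z) Q ω := by
    unfold dQ
    rw [hwn0, hck]
  have hN : D.T ω / 2 ^ (J - (w₀ + k * z)) = D.T ω' / 2 ^ (J - (w₀ + k * z)) :=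
    (Prod.ext_iff.1 hwn0).2
  set s : ℝ := (D.T ω' : ℝ) / 2 ^ J - (D.T ω : ℝ) / 2 ^ J with hs
  have hsle : |s| ≤ 1 / 2 ^ (w₀ + k * z + u + z) := tm_same hvJ (Prod.ext_iff.1 hwn).2
  have hY' : (fun l => D.Y J ω l + s * D.E (D.ln ω) l) = D.Y J ω' := by
    funext l
    unfold Dat.Y
    rw [← hln, hs]
    ring
  -- the errors
  set δ : ℝ := Real.exp (C₂ * z) * 2 ^ ((j - 1) * m) / 2 ^ D.g (k + B) with hδ
  set Dd : ℝ := Cv * (Real.exp (C₂ * z) * 2 ^ (j * (w₀ + k * z)) / 2 ^ D.g k) /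
    2 ^ (u + z) with hDd
  have hb2 : ∀ ω₁ : D.Ω, D.JGd K J w₀ z B k j C₂ Q ω₁ → ∀ i < j,
      CB (jt i (dQ D J k (w₀ + k * z) Q ω₁ - dF D k B ω₁) (D.Y J ω₁))
        (δ / (1 / 2 ^ (w₀ + k * z + u)) ^ i) := by
    intro ω₁ hG₁ i hi l
    have e1 : dQ D J k (w₀ + k * z) Q ω₁ - dF D k B ω₁ =
        Q (D.wn J (w₀ + k * z) ω₁) - D.F (k + B) (D.c (k + B) ω₁) := by
      unfold dQ dF
      ring
    rw [e1]
    refine (hG₁.b2 i (by have := h.jK; omega) l).trans ?_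
    rw [one_div, inv_pow, div_inv_eq_mul, ← pow_mul, h.vB, hδ]
    have h2 : (2 : ℝ) ^ (i * (w₀ + k * z + u + m)) ≤
        2 ^ ((j - 1) * m) * 2 ^ ((w₀ + k * z + u) * i) := by
      rw [← pow_add]
      refine pow_le_pow_right₀ (by norm_num) ?_
      have h3 : i * m ≤ (j - 1) * m := Nat.mul_le_mul_right m (by omega)
      calc i * (w₀ + k * z + u + m) = i * m + (w₀ + k * z + u) * i := by ring
        _ ≤ _ := by omega
    calc Real.exp (C₂ * z) * 2 ^ (i * (w₀ + k * z + u + m)) / 2 ^ D.g (k + B) ≤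
        Real.exp (C₂ * z) * (2 ^ ((j - 1) * m) * 2 ^ ((w₀ + k * z + u) * i)) /
          2 ^ D.g (k + B) :=
          div_le_div_of_nonneg_right (mul_le_mul_of_nonneg_left h2 (Real.exp_pos _).le)
            (by positivity)
      _ = _ := by ring
  -- the line
  have hb3 : ∀ t ∈ Set.uIcc 0 s, CB (jt j (dQ D J k (w₀ + k * z) Q ω)
      (fun l => D.Y J ω l + t * D.E (D.ln ω) l) - jt j (dQ D J k (w₀ + k * z) Q ω) (D.Y J ω)) Dd := by
    intro t ht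
    obtain ⟨τ, h0, h1, h2⟩ := rel_time (J := J) (v := w₀ + k * z) (T := D.T ω) (by omega)
    obtain ⟨τ', h0', h1', h2'⟩ := rel_time (J := J) (v := w₀ + k * z) (T := D.T ω') (by omega)
    rw [← hN] at h2'
    set N : ℝ := ((D.T ω / 2 ^ (J - (w₀ + k * z)) : ℕ) : ℝ) with hNd
    have hp : (0 : ℝ) < 2 ^ (w₀ + k * z) := by positivity
    have hs2 : 2 ^ (w₀ + k * z) * s = τ' - τ := by
      rw [hs, mul_sub, ← h2, ← h2']
      ring
    set τ₁ : ℝ := τ + 2 ^ (w₀ + k * z) * t with hτ₁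
    have hτ₁m : τ₁ ∈ Set.Icc (0 : ℝ) 1 := by
      rw [Set.mem_uIcc] at ht
      rw [Set.mem_Icc, hτ₁]
      rcases ht with ht | ht
      · have h3 : 2 ^ (w₀ + k * z) * t ≤ 2 ^ (w₀ + k * z) * s :=
          mul_le_mul_of_nonneg_left ht.2 hp.le
        have h4 : 0 ≤ 2 ^ (w₀ + k * z) * t := mul_nonneg hp.le ht.1
        constructor <;> linarith
      · have h3 : 2 ^ (w₀ + k * z) * s ≤ 2 ^ (w₀ + k * z) * t :=
          mul_le_mul_of_nonneg_left ht.1 hp.le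
        have h4 : 2 ^ (w₀ + k * z) * t ≤ 0 := mul_nonpos_of_nonneg_of_nonpos hp.le ht.2
        constructor <;> linarith
    have hτm : τ ∈ Set.Icc (0 : ℝ) 1 := ⟨h0, h1⟩
    have hYt : ∀ τ₂ : ℝ, (fun l => (D.A (D.ln ω) l + N / 2 ^ (w₀ + k * z) * D.E (D.ln ω) l) +
        τ₂ * (D.E (D.ln ω) l / 2 ^ (w₀ + k * z))) = D.Yt J (w₀ + k * z) ω τ₂ := by
      intro τ₂
      funext l
      unfold Dat.Yt
      rw [← hNd]
      ring
    have h5 := hCv j (dQ D J k (w₀ + k * z) Q ω)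
      (fun l => D.A (D.ln ω) l + N / 2 ^ (w₀ + k * z) * D.E (D.ln ω) l)
      (fun l => D.E (D.ln ω) l / 2 ^ (w₀ + k * z))
      (Real.exp (C₂ * z) * 2 ^ (j * (w₀ + k * z)) / 2 ^ D.g k) (h.dQ_deg ω) (fun t ht => by
        rw [hYt]
        exact hG.b3 t ht j le_rfl) τ₁ hτ₁m τ hτm
    rw [hYt, hYt, Yt_eq (t := t) (by rw [hτ₁, mul_add, ← h2]; ring), Yt_eq (t := 0) (by
      rw [add_zero, ← h2])] at h5
    have e2 : (fun l => D.Y J ω l + 0 * D.E (D.ln ω) l) = D.Y J ω := by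
      funext l
      ring
    rw [e2] at h5
    intro l
    refine (h5 l).trans ?_
    have h6 : |τ₁ - τ| ≤ 1 / 2 ^ (u + z) := by
      have e3 : τ₁ - τ = 2 ^ (w₀ + k * z) * t := by rw [hτ₁]; ring
      rw [e3, abs_mul, abs_of_pos hp]
      have h7 : |t| ≤ |s| := by
        rw [Set.mem_uIcc] at ht
        rcases ht with ht | ht
        · rw [abs_of_nonneg ht.1]
          exact ht.2.trans (le_abs_self s)
        · rw [abs_of_nonpos ht.2]
          exact (neg_le_neg ht.1).trans (neg_le_abs s)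
      calc (2 : ℝ) ^ (w₀ + k * z) * |t| ≤ 2 ^ (w₀ + k * z) * (1 / 2 ^ (w₀ + k * z + u + z)) :=
            mul_le_mul_of_nonneg_left (h7.trans hsle) hp.le
        _ = 1 / 2 ^ (u + z) := by
          rw [add_assoc (w₀ + k * z) u z, pow_add _ (w₀ + k * z) (u + z)]
          field_simp
    calc Cv * (Real.exp (C₂ * z) * 2 ^ (j * (w₀ + k * z)) / 2 ^ D.g k) * |τ₁ - τ| ≤
        Cv * (Real.exp (C₂ * z) * 2 ^ (j * (w₀ + k * z)) / 2 ^ D.g k) * (1 / 2 ^ (u + z)) :=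
          mul_le_mul_of_nonneg_left h6 (by positivity)
      _ = Dd := by rw [hDd]; ring
  have h1 := hCt ⟨j, h.hj⟩ (dQ D J k (w₀ + k * z) Q ω) (dF D k B ω) (dF D k B ω') (D.Y J ω)
    (D.E (D.ln ω)) s (1 / 2 ^ (w₀ + k * z + u)) δ Dd (h.dQ_deg ω) (by positivity)
    (hsle.trans (by
      rw [div_le_div_iff₀ (by positivity) (by positivity), one_mul, one_mul]
      exact pow_le_pow_right₀ (by norm_num) (by omega))) (by positivity) (by positivity)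
    (fun i => (h.ok.E_le _ i).trans hR) (hb2 ω hG) (fun i hi => by
      rw [hY', ← hdQ]
      exact hb2 ω' hG' i hi) hb3 x (fun i => by
      refine (hx i).trans (le_of_eq ?_)
      rw [mul_one_div])
  rw [hY'] at h1
  have h2 := mul_le_mul_of_nonneg_left h1 (show (0 : ℝ) ≤ 2 ^ (D.g k + j * u) by positivity)
  refine h2.trans ?_
  -- numbers
  have hE : Real.exp ((C₁ + C₂) * z) = Real.exp (C₁ * z) * Real.exp (C₂ * z) := by
    rw [← Real.exp_add, add_mul]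
  have h3 : 2 ^ (D.g k + j * u) * δ ≤ Real.exp ((C₁ + C₂) * z) / 2 ^ u := by
    have h4 : (2 : ℝ) ^ (D.g k + j * u) * 2 ^ ((j - 1) * m) * 2 ^ u ≤
        2 ^ (D.g k + j * (B * z)) := by
      rw [← pow_add, ← pow_add]
      refine pow_le_pow_right₀ (by norm_num) ?_
      have h5 : u ≤ m := by
        have := h.um
        have := Nat.mul_le_mul_right u (show 1 ≤ j + 1 by omega)
        omega
      have h6 : (j - 1) * m + m = j * m := by
        rw [← Nat.succ_mul, Nat.succ_eq_add_one, Nat.sub_add_cancel h.hj]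
      rw [← h.hm, Nat.mul_add]
      omega
    rw [hδ, hE, ← mul_div_assoc, div_le_div_iff₀ (by positivity) (by positivity)]
    calc (2 : ℝ) ^ (D.g k + j * u) * (Real.exp (C₂ * z) * 2 ^ ((j - 1) * m)) * 2 ^ u =
        Real.exp (C₂ * z) * (2 ^ (D.g k + j * u) * 2 ^ ((j - 1) * m) * 2 ^ u) := by ring
      _ ≤ Real.exp (C₂ * z) * (Real.exp (C₁ * z) * 2 ^ D.g (k + B)) :=
          mul_le_mul_of_nonneg_left (h4.trans h.gB) (Real.exp_pos _).le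
      _ = _ := by ring
  have h4 : 2 ^ (D.g k + j * u) * (Dd * (1 / 2 ^ (w₀ + k * z + u)) ^ j) ≤
      Cv * (Real.exp ((C₁ + C₂) * z) / 2 ^ u) := by
    have e1 : 2 ^ (D.g k + j * u) * (Dd * (1 / 2 ^ (w₀ + k * z + u)) ^ j) =
        Cv * (Real.exp (C₂ * z) / 2 ^ (u + z)) := by
      rw [hDd, one_div, inv_pow, ← pow_mul]
      have h5 : (2 : ℝ) ^ ((w₀ + k * z + u) * j) = 2 ^ (j * (w₀ + k * z)) * 2 ^ (j * u) := by
        rw [← pow_add]
        congr 1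
        ring
      rw [h5, pow_add _ (D.g k)]
      field_simp
    rw [e1]
    refine mul_le_mul_of_nonneg_left ?_ hCv0
    have h5 : (2 : ℝ) ^ u ≤ 2 ^ (u + z) := pow_le_pow_right₀ (by norm_num) (by omega)
    have h6 : Real.exp (C₂ * z) ≤ Real.exp ((C₁ + C₂) * z) :=
      Real.exp_le_exp.2 (mul_le_mul_of_nonneg_right (by linarith [h.C1]) (Nat.cast_nonneg z))
    exact div_le_div₀ (Real.exp_pos _).le h6 (by positivity) h5
  have h5 := hCtS j h.hj h.jK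
  have h6 : 0 ≤ Ct ⟨j, h.hj⟩ := by linarith [hCt1 ⟨j, h.hj⟩]
  calc 2 ^ (D.g k + j * u) * (Ct ⟨j, h.hj⟩ * (δ + Dd * (1 / 2 ^ (w₀ + k * z + u)) ^ j)) =
      Ct ⟨j, h.hj⟩ * (2 ^ (D.g k + j * u) * δ +
        2 ^ (D.g k + j * u) * (Dd * (1 / 2 ^ (w₀ + k * z + u)) ^ j)) := by ring
    _ ≤ Ct ⟨j, h.hj⟩ * (Real.exp ((C₁ + C₂) * z) / 2 ^ u +
        Cv * (Real.exp ((C₁ + C₂) * z) / 2 ^ u)) :=
        mul_le_mul_of_nonneg_left (add_le_add h3 h4) h6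
    _ ≤ S * (Real.exp ((C₁ + C₂) * z) / 2 ^ u + Cv * (Real.exp ((C₁ + C₂) * z) / 2 ^ u)) :=
        mul_le_mul_of_nonneg_right h5 (by positivity)
    _ = _ := by ring

end Cx

end Pool.BFL.Cnl
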