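import Pool.Agent.H90.BFL.CnlF

/-!
# Row CNL: transport in the scaled ball
-/

set_option autoImplicit false

namespace Pool.BFL.Cnl

open Finset Real
open Pool.Agent.H49.Ent Pool.Agent.H32.Dense Pool.STK Pool.KS3
open Pool.Agent.H36.KBX (bx mem_bx eval_bound coef_bound coeff_pderiv_bound)

/-- The scaled tensor. -/
noncomputable def bc {n : ℕ} (D : Dat n) (J w₀ z j k : ℕ) (Q : D.Λ × ℕ → Pl n) (ω : D.Ω) : Pl n :=
  MvPolynomial.C (2 ^ D.g k / 2 ^ (j * (w₀ + k * z))) * D.tb J w₀ z j k Q ω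

lemma lg_add_sub {n : ℕ} (b b' : Pl n) (y E x : Fin n → ℝ) (s s' : ℝ) :
    lg b y E s x - lg b' y E s' x = lg (b - b') y E s x + (lg b' y E s x - lg b' y E s' x) := by
  rw [← lg_sub]
  ring

namespace Cx

variable {n : ℕ} {D : Dat n} {K J r w₀ z M k j U B u m : ℕ} {κ C₁ : ℝ} {q : D.Ω → ℝ}
  {Q : D.Λ × ℕ → Pl n}

lemma tb_homog (D : Dat n) (J w₀ z j k : ℕ) (Q : D.Λ × ℕ → Pl n) (ω : D.Ω) :
    (D.tb J w₀ z j k Q ω).IsHomogeneous (j - 1) :=
  dD_homog (jt_homog j _ _) _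

lemma bc_homog (D : Dat n) (J w₀ z j k : ℕ) (Q : D.Λ × ℕ → Pl n) (ω : D.Ω) :
    (bc D J w₀ z j k Q ω).IsHomogeneous (j - 1) := by
  have h := (MvPolynomial.isHomogeneous_C (Fin n)
    ((2 : ℝ) ^ D.g k / 2 ^ (j * (w₀ + k * z)))).mul (tb_homog D J w₀ z j k Q ω)
  rwa [zero_add] at h

/-- Bound of the tensor. -/
lemma tb_CB (h : Cx D K J r w₀ z M k j U B u m κ C₁ q Q) {C₂ : ℝ} {ω : D.Ω}
    (hG : D.JGd K J w₀ z B k j C₂ Q ω) :
    CB (D.tb J w₀ z j k Q ω)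
      (n * (K + 1) * (Real.exp (C₂ * z) * 2 ^ (j * (w₀ + k * z)) / 2 ^ D.g k)) := by
  have hvJ : w₀ + k * z ≤ J := by
    have h1 := h.vr.trans h.ok.r_le
    rw [h.vB] at h1
    omega
  obtain ⟨τ, h0, h1, h2⟩ := rel_time (J := J) (v := w₀ + k * z) (T := D.T ω) hvJ
  have h3 := hG.b3 τ ⟨h0, h1⟩ j le_rfl
  rw [Yt_eq (t := 0) (by rw [add_zero, ← h2])] at h3
  have e2 : (fun l => D.Y J ω l + 0 * D.E (D.ln ω) l) = D.Y J ω := by
    funext l
    ring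
  rw [e2] at h3
  have h4 := CB_dD (D := K) (P := jt j (Q (D.wn J (w₀ + k * z) ω) - D.F k (D.c k ω)) (D.Y J ω))
    ((jt_homog j _ _).totalDegree_le.trans h.jK) h3 (E := D.E (D.ln ω)) (e := 1)
    (fun i => h.ok.E_le _ i)
  intro l
  refine (h4 l).trans (le_of_eq ?_)
  ring

lemma bc_CB (h : Cx D K J r w₀ z M k j U B u m κ C₁ q Q) {C₂ : ℝ} {ω : D.Ω}
    (hG : D.JGd K J w₀ z B k j C₂ Q ω) :
    CB (bc D J w₀ z j k Q ω) (n * (K + 1) * Real.exp (C₂ * z)) := by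
  intro l
  unfold bc
  rw [MvPolynomial.coeff_C_mul, abs_mul, abs_of_nonneg (by positivity)]
  refine (mul_le_mul_of_nonneg_left (h.tb_CB hG l) (by positivity)).trans (le_of_eq ?_)
  field_simp

/-- **Transport** in the scaled ball. -/
theorem trans_core (n K : ℕ) (C₀ : ℝ) (hC₀ : 1 ≤ C₀) : ∃ C : ℝ, 0 ≤ C ∧
    ∀ {D : Dat n} {J r w₀ z M k j U B u m : ℕ} {κ C₁ : ℝ} {q : D.Ω → ℝ}
      {Q : D.Λ × ℕ → Pl n}, Cx D K J r w₀ z M k j U B u m κ C₁ q Q → ∀ (C₂ : ℝ)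
      (ω ω' R R' : D.Ω) (bv : Pl n) (x : Fin n → ℝ), 0 ≤ C₂ → 0 < q ω → 0 < q ω' → 0 < q R →
      0 < q R' → D.wn J (w₀ + (k + U) * z) ω = D.wn J (w₀ + (k + U) * z) ω' →
      D.JGd K J w₀ z B k j C₂ Q ω → D.JGd K J w₀ z B k j C₂ Q ω' →
      D.JGd K J w₀ z B k j C₂ Q R → D.JGd K J w₀ z B k j C₂ Q R' →
      blk D J (w₀ + (k + B) * z) (k + B) R = blk D J (w₀ + (k + B) * z) (k + B) ω →
      blk D J (w₀ + (k + B) * z) (k + B) R' = blk D J (w₀ + (k + B) * z) (k + B) ω' →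
      bv.totalDegree ≤ K → CB (bv - bc D J w₀ z j k Q ω) (1 / 2 ^ u) → (∀ i, |x i| ≤ C₀) →
      |MvPolynomial.eval x (TT D J k B U j (w₀ + k * z + u) (D.g k + j * u) R') -
        MvPolynomial.eval x (TT D J k B U j (w₀ + k * z + u) (D.g k + j * u) R) -
        lg bv (Yc D J k U (w₀ + k * z + u) ω) (D.E (D.ln ω))
          (((((D.T ω' / 2 ^ (J - (w₀ + (k + B) * z)) : ℕ) : ℤ) -
            ((D.T ω / 2 ^ (J - (w₀ + (k + B) * z)) : ℕ) : ℤ) : ℤ) : ℝ) / 2 ^ m) x| ≤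
        C * (Real.exp ((C₁ + C₂ + 1) * z) / 2 ^ u) := by
  obtain ⟨Ca, hCa0, hCa⟩ := rep_near n K (C₀ + 1) (by linarith only [hC₀])
  obtain ⟨Cb, hCb0, hCb⟩ := trans_abs n K (C₀ + 1) (by linarith)
  set P : ℝ := (bx n K).card * (2 * (C₀ + 1)) ^ (n * K) with hP
  have hP0 : 0 ≤ P := by positivity
  refine ⟨2 * Ca + Cb + P * (1 + n * (K + 1)), by positivity, ?_⟩
  intro D J r w₀ z M k j U B u m κ C₁ q Q h C₂ ω ω' R R' bv x hC2 hω hω' hR hR' hwn hG hG' hGR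
    hGR' hbR hbR' hbd hbv hx
  have hwn' : D.wn J (w₀ + k * z + u + z) ω = D.wn J (w₀ + k * z + u + z) ω' := by
    rw [← h.vU]
    exact hwn
  have hln : D.ln ω = D.ln ω' := (Prod.ext_iff.1 hwn).1
  have hcU : D.c (k + U) ω = D.c (k + U) ω' :=
    h.ok.c_wn (k + U) (by have := h.kB; have := h.UB; omega) ω ω' hω hω' hwn
  have hcBR : D.c (k + B) R = D.c (k + B) ω := (Prod.ext_iff.1 hbR).1
  have hcBR' : D.c (k + B) R' = D.c (k + B) ω' := (Prod.ext_iff.1 hbR').1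
  have hcUR : D.c (k + U) R = D.c (k + U) ω := h.cBU R ω hR hω hcBR
  have hcUR' : D.c (k + U) R' = D.c (k + U) ω := (h.cBU R' ω' hR' hω' hcBR').trans hcU.symm
  have hdR : dF D k B R = dF D k B ω := h.dF_blk hR hω hcBR
  have hdR' : dF D k B R' = dF D k B ω' := h.dF_blk hR' hω' hcBR'
  have hYR : ∀ i, |D.Y J ω i - D.Y J R i| ≤ 1 / 2 ^ (w₀ + k * z + u + m) := by
    rw [← h.vB]
    exact Y_cell (Prod.ext_iff.1 hbR).2
  have hYR' : ∀ i, |D.Y J ω' i - D.Y J R' i| ≤ 1 / 2 ^ (w₀ + k * z + u + m) := by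
    rw [← h.vB]
    exact Y_cell (Prod.ext_iff.1 hbR').2
  have hvJ : w₀ + k * z + u + m ≤ J := by
    have h1 := h.vr.trans h.ok.r_le
    rwa [h.vB] at h1
  have hzm := h.zm
  have hum : u ≤ m := by
    have := h.um
    have := Nat.mul_le_mul_right u (show 1 ≤ j + 1 by omega)
    omega
  -- the point
  set e := w₀ + k * z + u with he
  set X : Fin n → ℝ := fun l => D.y₀ (k + U) (D.c (k + U) ω) l + 1 / 2 ^ e * x l with hX
  have hep : (0 : ℝ) < 2 ^ e := by positivity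
  have hXω : ∀ ω₁ : D.Ω, 0 < q ω₁ → D.c (k + U) ω₁ = D.c (k + U) ω → ∀ i,
      |X i - D.Y J ω₁ i| ≤ (C₀ + 1) / 2 ^ e := by
    intro ω₁ h1 h2 i
    have h3 := h.Y_le h1 i
    rw [h2, ← he, abs_mul, abs_of_pos hep] at h3
    have h4 : |X i - D.Y J ω₁ i| ≤ |1 / 2 ^ e * x i| +
        |D.Y J ω₁ i - D.y₀ (k + U) (D.c (k + U) ω) i| := by
      have e1 : X i - D.Y J ω₁ i = 1 / 2 ^ e * x i -
          (D.Y J ω₁ i - D.y₀ (k + U) (D.c (k + U) ω) i) := by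
        rw [hX]
        ring
      rw [e1]
      exact abs_sub _ _
    rw [le_div_iff₀ hep]
    rw [abs_mul, abs_of_pos (show (0 : ℝ) < 1 / 2 ^ e by positivity)] at h4
    have h5 : |X i - D.Y J ω₁ i| * 2 ^ e ≤ (1 / 2 ^ e * |x i| +
        |D.Y J ω₁ i - D.y₀ (k + U) (D.c (k + U) ω) i|) * 2 ^ e :=
      mul_le_mul_of_nonneg_right h4 hep.le
    have h6 : (1 / 2 ^ e * |x i| + |D.Y J ω₁ i - D.y₀ (k + U) (D.c (k + U) ω) i|) * 2 ^ e =
        |x i| + 2 ^ e * |D.Y J ω₁ i - D.y₀ (k + U) (D.c (k + U) ω) i| := by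
      field_simp
    rw [h6] at h5
    linarith only [h3, h5, hx, hx i]
  -- absolute estimates
  have h1 := hCa h C₂ R ω X hGR hYR (hXω ω hω rfl)
  have h2 := hCa h C₂ R' ω' X hGR' hYR' (hXω ω' hω' hcU.symm)
  have h3 := hCb h C₂ ω ω' X hC2 hω hω' hwn' hG hG' (hXω ω hω rfl)
  rw [hdR] at h1
  rw [hdR'] at h2
  set s : ℝ := (D.T ω' : ℝ) / 2 ^ J - (D.T ω : ℝ) / 2 ^ J with hs
  have hsle : |s| ≤ 1 / 2 ^ (e + z) := tm_same (by omega) (Prod.ext_iff.1 hwn').2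
  have hs1 : |2 ^ e * s| ≤ 1 := by
    rw [abs_mul, abs_of_pos hep]
    calc (2 : ℝ) ^ e * |s| ≤ 2 ^ e * (1 / 2 ^ (e + z)) := mul_le_mul_of_nonneg_left hsle hep.le
      _ ≤ 1 := by
        rw [mul_one_div, div_le_one (by positivity)]
        exact pow_le_pow_right₀ (by norm_num) (by omega)
  set s' : ℝ := (((((D.T ω' / 2 ^ (J - (w₀ + (k + B) * z)) : ℕ) : ℤ) -
            ((D.T ω / 2 ^ (J - (w₀ + (k + B) * z)) : ℕ) : ℤ) : ℤ) : ℝ) / 2 ^ m) with hs'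
  have hs'1 : |s'| ≤ 1 := by
    have h4 := tm_coarse (J := J) (u := w₀ + (k + U) * z) (v := w₀ + (k + B) * z)
      (by rw [h.vU, h.vB]; omega) (by rw [h.vB]; exact hvJ) (Prod.ext_iff.1 hwn).2
    rw [hs', abs_div, abs_of_pos (show (0 : ℝ) < 2 ^ m by positivity), div_le_one (by positivity)]
    have h5 : (2 : ℤ) ^ (w₀ + (k + B) * z - (w₀ + (k + U) * z)) ≤ 2 ^ m := by
      refine pow_le_pow_right₀ (by norm_num) ?_
      rw [h.vU, h.vB]
      omega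
    exact_mod_cast h4.trans h5
  have hss : |2 ^ e * s - s'| ≤ 1 / 2 ^ m := by
    have h4 := tm_near (J := J) (e := e) (m := m) (T := D.T ω) (T' := D.T ω') hvJ
    rw [← hs] at h4
    rw [hs', h.vB]
    exact h4
  -- scaling
  set μ : ℝ := 2 ^ (D.g k + j * u) with hμ
  have hμ0 : 0 < μ := by positivity
  have hTT : ∀ R₁ : D.Ω, D.c (k + U) R₁ = D.c (k + U) ω →
      MvPolynomial.eval x (TT D J k B U j e (D.g k + j * u) R₁) =
        μ * MvPolynomial.eval X (TA D J k B j R₁) := by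
    intro R₁ hc
    unfold TT
    rw [sc_eval, hc]
  have hlg : μ * lg (D.tb J w₀ z j k Q ω) (D.Y J ω) (D.E (D.ln ω)) s X =
      lg (bc D J w₀ z j k Q ω) (Yc D J k U e ω) (D.E (D.ln ω)) (2 ^ e * s) x := by
    unfold bc
    rw [lg_C_mul]
    have h4 := lg_scale (tb_homog D J w₀ z j k Q ω) h.hj (D.y₀ (k + U) (D.c (k + U) ω))
      (Yc D J k U e ω) (D.E (D.ln ω)) x (1 / 2 ^ e) (2 ^ e * s)
    rw [Yc_back] at h4
    have e1 : 1 / 2 ^ e * (2 ^ e * s) = s := by field_simp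
    rw [e1] at h4
    rw [h4, ← mul_assoc]
    congr 1
    rw [hμ, he, one_div, inv_pow, ← pow_mul, pow_add _ (D.g k)]
    have e2 : (2 : ℝ) ^ ((w₀ + k * z + u) * j) = 2 ^ (j * (w₀ + k * z)) * 2 ^ (j * u) := by
      rw [← pow_add]
      congr 1
      ring
    rw [e2]
    field_simp
  -- the two errors of the leg
  have hxY : ∀ i, |x i - Yc D J k U e ω i| ≤ C₀ + 1 := by
    intro i
    have h4 := h.Y_le hω i
    calc |x i - Yc D J k U e ω i| ≤ |x i| + |Yc D J k U e ω i| := abs_sub _ _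
      _ ≤ C₀ + 1 := add_le_add (hx i) h4
  have hE1 : ∀ i, |D.E (D.ln ω) i| ≤ C₀ + 1 := fun i => (h.ok.E_le _ i).trans (by linarith only [hC₀])
  have hbcK : (bc D J w₀ z j k Q ω).totalDegree ≤ K :=
    (bc_homog D J w₀ z j k Q ω).totalDegree_le.trans (by have := h.jK; omega)
  have hl1 : |lg (bv - bc D J w₀ z j k Q ω) (Yc D J k U e ω) (D.E (D.ln ω)) s' x| ≤
      P * (1 / 2 ^ u) := by
    refine lg_bound hs'1 (by positivity) hxY hE1 fun v hv => ?_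
    refine (eval_bound (D := K) _ ((MvPolynomial.totalDegree_sub _ _).trans (max_le hbd hbcK)) _
      (2 * (C₀ + 1)) (by linarith only [hC₀]) hbv v hv).trans (le_of_eq ?_)
    rw [hP]
    ring
  have hl2 : |lg (bc D J w₀ z j k Q ω) (Yc D J k U e ω) (D.E (D.ln ω)) s' x -
      lg (bc D J w₀ z j k Q ω) (Yc D J k U e ω) (D.E (D.ln ω)) (2 ^ e * s) x| ≤
      P * (n * (K + 1) * Real.exp (C₂ * z)) * (1 / 2 ^ m) := by
    refine (lg_len hs'1 hs1 hxY hE1 (e := P * (n * (K + 1) * Real.exp (C₂ * z)))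
      fun v hv => ?_).trans ?_
    · refine (eval_bound (D := K) _ hbcK _ (2 * (C₀ + 1)) (by linarith only [hC₀]) (h.bc_CB hG) v
        hv).trans (le_of_eq ?_)
      rw [hP]
      ring
    · rw [abs_sub_comm]
      exact mul_le_mul_of_nonneg_left hss (by positivity)
  -- numbers
  have hz0 : (0 : ℝ) ≤ z := Nat.cast_nonneg z
  have hC1 := h.C1
  have n1 : Real.exp (C₂ * z) / 2 ^ m ≤ Real.exp ((C₁ + C₂ + 1) * z) / 2 ^ u :=
    div_le_div₀ (Real.exp_pos _).le (Real.exp_le_exp.2 (mul_le_mul_of_nonneg_right (by linarith only [hC1])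
      hz0)) (by positivity) (pow_le_pow_right₀ (by norm_num) hum)
  have n2 : Real.exp ((C₁ + C₂) * z) / 2 ^ u ≤ Real.exp ((C₁ + C₂ + 1) * z) / 2 ^ u :=
    div_le_div_of_nonneg_right (Real.exp_le_exp.2 (mul_le_mul_of_nonneg_right (by linarith only) hz0))
      (by positivity)
  have n3 : 1 / (2 : ℝ) ^ u ≤ Real.exp ((C₁ + C₂ + 1) * z) / 2 ^ u :=
    div_le_div_of_nonneg_right (Real.one_le_exp (mul_nonneg (by linarith only [hC2, hC1]) hz0)) (by positivity)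
  set EE : ℝ := Real.exp ((C₁ + C₂ + 1) * z) / 2 ^ u with hEE
  have hEE0 : 0 ≤ EE := by positivity
  rw [hTT R' hcUR', hTT R hcUR]
  have key : μ * MvPolynomial.eval X (TA D J k B j R') - μ * MvPolynomial.eval X (TA D J k B j R) -
      lg bv (Yc D J k U e ω) (D.E (D.ln ω)) s' x =
      μ * (MvPolynomial.eval X (TA D J k B j ω') - MvPolynomial.eval X (TA D J k B j ω) -
        lg (D.tb J w₀ z j k Q ω) (D.Y J ω) (D.E (D.ln ω)) s X) -
      μ * (MvPolynomial.eval X (tay j (dF D k B ω') (D.Y J ω')) -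
        MvPolynomial.eval X (TA D J k B j R')) +
      μ * (MvPolynomial.eval X (tay j (dF D k B ω) (D.Y J ω)) -
        MvPolynomial.eval X (TA D J k B j R)) -
      lg (bv - bc D J w₀ z j k Q ω) (Yc D J k U e ω) (D.E (D.ln ω)) s' x -
      (lg (bc D J w₀ z j k Q ω) (Yc D J k U e ω) (D.E (D.ln ω)) s' x -
        lg (bc D J w₀ z j k Q ω) (Yc D J k U e ω) (D.E (D.ln ω)) (2 ^ e * s) x) := by
    have h4 := lg_add_sub bv (bc D J w₀ z j k Q ω) (Yc D J k U e ω) (D.E (D.ln ω)) x s' (2 ^ e * s)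
    rw [mul_sub μ (_ - _) (lg (D.tb J w₀ z j k Q ω) _ _ _ _), hlg]
    have e3 : TA D J k B j ω' = tay j (dF D k B ω') (D.Y J ω') := rfl
    have e4 : TA D J k B j ω = tay j (dF D k B ω) (D.Y J ω) := rfl
    rw [e3, e4]
    linarith only [h4]
  have a1 : |μ * (MvPolynomial.eval X (TA D J k B j ω') - MvPolynomial.eval X (TA D J k B j ω) -
        lg (D.tb J w₀ z j k Q ω) (D.Y J ω) (D.E (D.ln ω)) s X)| ≤ Cb * EE := by
    rw [abs_mul, abs_of_pos hμ0]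
    exact h3.trans (mul_le_mul_of_nonneg_left n2 hCb0)
  have a2 : |μ * (MvPolynomial.eval X (tay j (dF D k B ω') (D.Y J ω')) -
        MvPolynomial.eval X (TA D J k B j R'))| ≤ Ca * EE := by
    rw [abs_mul, abs_of_pos hμ0]
    exact h2.trans (mul_le_mul_of_nonneg_left n1 hCa0)
  have a3 : |μ * (MvPolynomial.eval X (tay j (dF D k B ω) (D.Y J ω)) -
        MvPolynomial.eval X (TA D J k B j R))| ≤ Ca * EE := by
    rw [abs_mul, abs_of_pos hμ0]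
    exact h1.trans (mul_le_mul_of_nonneg_left n1 hCa0)
  have a4 := hl1.trans (mul_le_mul_of_nonneg_left n3 hP0)
  have a5 : |lg (bc D J w₀ z j k Q ω) (Yc D J k U e ω) (D.E (D.ln ω)) s' x -
      lg (bc D J w₀ z j k Q ω) (Yc D J k U e ω) (D.E (D.ln ω)) (2 ^ e * s) x| ≤
      P * (n * (K + 1)) * EE := by
    refine hl2.trans ?_
    calc P * (n * (K + 1) * Real.exp (C₂ * z)) * (1 / 2 ^ m) =
        P * (n * (K + 1)) * (Real.exp (C₂ * z) / 2 ^ m) := by ring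
      _ ≤ _ := mul_le_mul_of_nonneg_left n1 (by positivity)
  rw [key]
  have e5 : (2 * Ca + Cb + P * (1 + n * (K + 1))) * EE = Cb * EE + Ca * EE + Ca * EE + P * EE +
      P * (n * (K + 1)) * EE := by ring
  rw [e5]
  have t1 := abs_sub (μ * (MvPolynomial.eval X (TA D J k B j ω') -
    MvPolynomial.eval X (TA D J k B j ω) -
        lg (D.tb J w₀ z j k Q ω) (D.Y J ω) (D.E (D.ln ω)) s X))
      (μ * (MvPolynomial.eval X (tay j (dF D k B ω') (D.Y J ω')) -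
        MvPolynomial.eval X (TA D J k B j R')))
  rw [abs_le] at a1 a2 a3 a4 a5 ⊢
  constructor
  · linarith only [a1, a2, a3, a4, a5, a1.1, a2.2, a3.1, a4.2, a5.2]
  · linarith only [a1, a2, a3, a4, a5, a1.2, a2.1, a3.2, a4.1, a5.1]

end Cx

end Pool.BFL.Cnl
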