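import Pool.Agent.H90.BFL.CnlG

/-!
# Row CNL: the core data
-/

set_option autoImplicit false

namespace Pool.BFL.Cnl

open Finset Real
open Pool.Agent.H49.Ent Pool.Agent.H32.Dense Pool.STK Pool.KS3
open Pool.Agent.H36.KBX (bx mem_bx eval_bound coef_bound coeff_pderiv_bound)

open Classical in
/-- The direction from its digits. -/
noncomputable def EVf {n : ℕ} (N : ℕ) (v : (Fin n → ℤ) × ((Fin n →₀ ℕ) → ℤ)) (i : Fin n) : ℝ :=
  if |(v.1 i : ℝ) / 2 ^ N| ≤ 1 then (v.1 i : ℝ) / 2 ^ N else 0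

open Classical in
/-- The tensor from its digits. -/
noncomputable def bVf {n : ℕ} (K j N : ℕ) (X : ℝ) (v : (Fin n → ℤ) × ((Fin n →₀ ℕ) → ℤ)) : Pl n :=
  ∑ l ∈ (bx n K).filter (fun l => l.degree = j - 1), MvPolynomial.monomial l
    (if |(v.2 l : ℝ) / 2 ^ N| ≤ X then (v.2 l : ℝ) / 2 ^ N else 0)

lemma EVf_le {n : ℕ} (N : ℕ) (v : (Fin n → ℤ) × ((Fin n →₀ ℕ) → ℤ)) (i : Fin n) :
    |EVf N v i| ≤ 1 := by
  unfold EVf
  split_ifs with h
  · exact h
  · rw [abs_zero]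
    exact zero_le_one

lemma EVf_near {n : ℕ} (N : ℕ) (v : (Fin n → ℤ) × ((Fin n →₀ ℕ) → ℤ)) (E : Fin n → ℝ)
    (hE : ∀ i, |E i| ≤ 1) (hv : ∀ i, v.1 i = ⌊(2 : ℝ) ^ N * E i⌋) (i : Fin n) :
    |EVf N v i - E i| ≤ 1 / 2 ^ N := by
  have hp : (0 : ℝ) < 2 ^ N := by positivity
  have h1 := Int.floor_le ((2 : ℝ) ^ N * E i)
  have h2 := Int.lt_floor_add_one ((2 : ℝ) ^ N * E i)
  rw [← hv i] at h1 h2
  have h3 := hE i
  rw [abs_le] at h3
  have h4 : -(2 : ℝ) ^ N ≤ v.1 i := by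
    have h5 : -((2 : ℤ) ^ N) ≤ v.1 i := by
      rw [hv i, Int.le_floor]
      push_cast
      have := mul_le_mul_of_nonneg_left h3.1 hp.le
      linarith only [this]
    exact_mod_cast h5
  have h5 : (v.1 i : ℝ) ≤ 2 ^ N := by
    have := mul_le_mul_of_nonneg_left h3.2 hp.le
    linarith
  unfold EVf
  rw [if_pos (by
    rw [abs_div, abs_of_pos hp, div_le_one hp, abs_le]
    exact ⟨h4, h5⟩)]
  have h6 : (v.1 i : ℝ) / 2 ^ N - E i = ((v.1 i : ℝ) - 2 ^ N * E i) / 2 ^ N := by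
    field_simp
  rw [h6, abs_div, abs_of_pos hp]
  refine div_le_div_of_nonneg_right ?_ hp.le
  rw [abs_le]
  constructor <;> linarith

lemma bVf_hom {n : ℕ} (K j N : ℕ) (X : ℝ) (v : (Fin n → ℤ) × ((Fin n →₀ ℕ) → ℤ)) :
    (bVf K j N X v).IsHomogeneous (j - 1) := by
  classical
  unfold bVf
  refine MvPolynomial.IsHomogeneous.sum _ _ _ fun l hl => ?_
  rw [Finset.mem_filter] at hl
  exact MvPolynomial.isHomogeneous_monomial _ hl.2

lemma bVf_coeff {n : ℕ} (K j N : ℕ) (X : ℝ) (v : (Fin n → ℤ) × ((Fin n →₀ ℕ) → ℤ))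
    (hjK : j - 1 ≤ K) (l : Fin n →₀ ℕ) (hl : l.degree = j - 1) :
    (bVf K j N X v).coeff l =
      if |(v.2 l : ℝ) / 2 ^ N| ≤ X then (v.2 l : ℝ) / 2 ^ N else 0 := by
  classical
  unfold bVf
  rw [MvPolynomial.coeff_sum]
  have h1 : l ∈ (bx n K).filter (fun l => l.degree = j - 1) := by
    rw [Finset.mem_filter, mem_bx]
    exact ⟨fun i => (Finsupp.le_degree i l).trans (hl.le.trans hjK), hl⟩
  rw [Finset.sum_eq_single l (fun l' _ hl' => by rw [MvPolynomial.coeff_monomial, if_neg hl'])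
    (fun h => absurd h1 h), MvPolynomial.coeff_monomial, if_pos rfl]

lemma bVf_CB {n : ℕ} (K j N : ℕ) {X : ℝ} (hX : 0 ≤ X) (hjK : j - 1 ≤ K)
    (v : (Fin n → ℤ) × ((Fin n →₀ ℕ) → ℤ)) : CB (bVf K j N X v) X := by
  intro l
  by_cases hl : l.degree = j - 1
  · rw [bVf_coeff K j N X v hjK l hl]
    split_ifs with h
    · exact h
    · rw [abs_zero]
      exact hX
  · have h1 := (bVf_hom K j N X v).coeff_eq_zero (d := l) hl
    rw [h1, abs_zero]
    exact hX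

lemma bVf_near {n : ℕ} (K j N : ℕ) {X : ℝ} (hjK : j - 1 ≤ K)
    (v : (Fin n → ℤ) × ((Fin n →₀ ℕ) → ℤ)) (b : Pl n) (hb : b.IsHomogeneous (j - 1))
    (hX : ∀ l, |b.coeff l| + 1 ≤ X) (hv : ∀ l, v.2 l = ⌊(2 : ℝ) ^ N * b.coeff l⌋) :
    CB (bVf K j N X v - b) (1 / 2 ^ N) := by
  intro l
  rw [MvPolynomial.coeff_sub]
  by_cases hl : l.degree = j - 1
  · rw [bVf_coeff K j N X v hjK l hl]
    have hp : (0 : ℝ) < 2 ^ N := by positivity
    have hp1 : (1 : ℝ) ≤ 2 ^ N := one_le_pow₀ (by norm_num)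
    have h1 := Int.floor_le ((2 : ℝ) ^ N * b.coeff l)
    have h2 := Int.lt_floor_add_one ((2 : ℝ) ^ N * b.coeff l)
    rw [← hv l] at h1 h2
    have h3 : |(v.2 l : ℝ) / 2 ^ N - b.coeff l| ≤ 1 / 2 ^ N := by
      have h6 : (v.2 l : ℝ) / 2 ^ N - b.coeff l = ((v.2 l : ℝ) - 2 ^ N * b.coeff l) / 2 ^ N := by
        field_simp
      rw [h6, abs_div, abs_of_pos hp]
      refine div_le_div_of_nonneg_right ?_ hp.le
      rw [abs_le]
      constructor <;> linarith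
    have h4 : |(v.2 l : ℝ) / 2 ^ N| ≤ X := by
      have h5 := abs_sub_abs_le_abs_sub ((v.2 l : ℝ) / 2 ^ N) (b.coeff l)
      have h6 : 1 / (2 : ℝ) ^ N ≤ 1 := by rw [div_le_one hp]; exact hp1
      linarith only [h3, h5, h6, hX, hX l]
    rw [if_pos h4]
    exact h3
  · rw [(bVf_hom K j N X v).coeff_eq_zero (d := l) hl, hb.coeff_eq_zero (d := l) hl, sub_zero,
      abs_zero]
    positivity

open Classical in
/-- The scaled position on the support. -/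
noncomputable def YC {n : ℕ} (D : Dat n) (J k U e : ℕ) (q : D.Ω → ℝ) (ω : D.Ω) (i : Fin n) : ℝ :=
  if 0 < q ω then Yc D J k U e ω i else 0

open Classical in
/-- The cell relative to the centre. -/
noncomputable def ycf {n : ℕ} (D : Dat n) (J k U v : ℕ) (q : D.Ω → ℝ) (ω : D.Ω) (i : Fin n) : ℤ :=
  if 0 < q ω then D.cell J v ω i - ⌊(2 : ℝ) ^ v * D.y₀ (k + U) (D.c (k + U) ω) i⌋ else 0

lemma YC_pos {n : ℕ} {D : Dat n} {J k U e : ℕ} {q : D.Ω → ℝ} {ω : D.Ω} (h : 0 < q ω) :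
    YC D J k U e q ω = Yc D J k U e ω := by
  funext i
  unfold YC
  rw [if_pos h]

namespace Cx

variable {n : ℕ} {D : Dat n} {K J r w₀ z M k j U B u m : ℕ} {κ C₁ : ℝ} {q : D.Ω → ℝ}
  {Q : D.Λ × ℕ → Pl n}

/-- The digits of the tensor at a good sample. -/
lemma V_near (h : Cx D K J r w₀ z M k j U B u m κ C₁ q Q) {C₂ C₅ θ : ℝ} {ω : D.Ω}
    (hG : D.JGd K J w₀ z B k j C₂ Q ω) (hC : n * (K + 1) * Real.exp (C₂ * z) ≤ Real.exp (C₅ * z))
    (hθ : Real.exp (C₅ * z) + 1 ≤ Real.exp θ) :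
    CB (bVf K j (U * z) (Real.exp θ) (D.V J w₀ z j B U k C₅ Q ω) - bc D J w₀ z j k Q ω)
      (1 / 2 ^ u) := by
  have h1 := h.tb_CB hG
  have h2 := h.bc_CB hG
  have h3 : CB (bVf K j (U * z) (Real.exp θ) (D.V J w₀ z j B U k C₅ Q ω) - bc D J w₀ z j k Q ω)
      (1 / 2 ^ (U * z)) := by
    refine bVf_near K j (U * z) (by have := h.jK; omega) _ _ (bc_homog D J w₀ z j k Q ω)
      (fun l => by linarith only [hC, hθ, h2, h2 l]) fun l => ?_
    show tf _ _ _ = _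
    unfold tf
    rw [if_pos]
    · congr 1
      unfold bc
      rw [MvPolynomial.coeff_C_mul, pow_add _ (D.g k) (U * z)]
      ring
    · refine (h1 l).trans ?_
      have h4 := mul_le_mul_of_nonneg_right hC
        (show (0 : ℝ) ≤ 2 ^ (j * (w₀ + k * z)) / 2 ^ D.g k by positivity)
      calc n * (K + 1) * (Real.exp (C₂ * z) * 2 ^ (j * (w₀ + k * z)) / 2 ^ D.g k) =
          n * (K + 1) * Real.exp (C₂ * z) * (2 ^ (j * (w₀ + k * z)) / 2 ^ D.g k) := by ring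
        _ ≤ _ := h4
        _ = _ := by ring
  intro l
  refine (h3 l).trans ?_
  rw [div_le_div_iff₀ (by positivity) (by positivity), one_mul, one_mul]
  exact pow_le_pow_right₀ (by norm_num) (by have := h.hu; omega)

/-- The number of the heights. -/
lemma count (h : Cx D K J r w₀ z M k j U B u m κ C₁ q Q) {c d θ : ℝ} (hd : d ≤ θ)
    (hcnt : ∀ P₁ P₂ : ℕ, D.g k + j * ((U - 1) * z) ≤ P₁ → P₁ ≤ P₂ →
      P₂ ≤ D.g k + (j + 1) * (U * z) →
      D.Cnt J k (k + U) (w₀ + (k + B) * z) q c d P₁ P₂) (P₁ P₂ : ℕ) (h12 : P₁ ≤ P₂) (h2 : P₂ ≤ u)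
    (ω : D.Ω) (hω : 0 < q ω) :
    (Set.ncard {x : ℤ | ∃ ω', 0 < q ω' ∧ D.c (k + U) ω' = D.c (k + U) ω ∧
      ycf D J k U (w₀ + (k + B) * z) q ω' = ycf D J k U (w₀ + (k + B) * z) q ω ∧
      ⌊(2 : ℝ) ^ P₁ * (2 ^ (D.g k + j * u) * D.rh J k ω')⌋ =
        ⌊(2 : ℝ) ^ P₁ * (2 ^ (D.g k + j * u) * D.rh J k ω)⌋ ∧
      x = ⌊(2 : ℝ) ^ P₂ * (2 ^ (D.g k + j * u) * D.rh J k ω')⌋} : ℝ) ≤
      Real.exp ((1 - c) * ((P₂ : ℝ) - P₁) * Real.log 2 + θ) := by
  have hU1 : (U - 1) * z = u := by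
    rw [Nat.sub_mul, one_mul, ← h.hu, Nat.add_sub_cancel]
  have h3 := hcnt (P₁ + (D.g k + j * u)) (P₂ + (D.g k + j * u)) (by rw [hU1]; omega) (by omega)
    (by
      have h4 : (j + 1) * u ≤ (j + 1) * (U * z) := Nat.mul_le_mul_left _ (by have := h.hu; omega)
      have h5 : (j + 1) * u = j * u + u := by ring
      omega) ω hω
  have hset : {x : ℤ | ∃ ω', 0 < q ω' ∧ D.c (k + U) ω' = D.c (k + U) ω ∧
      ycf D J k U (w₀ + (k + B) * z) q ω' = ycf D J k U (w₀ + (k + B) * z) q ω ∧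
      ⌊(2 : ℝ) ^ P₁ * (2 ^ (D.g k + j * u) * D.rh J k ω')⌋ =
        ⌊(2 : ℝ) ^ P₁ * (2 ^ (D.g k + j * u) * D.rh J k ω)⌋ ∧
      x = ⌊(2 : ℝ) ^ P₂ * (2 ^ (D.g k + j * u) * D.rh J k ω')⌋} =
      {x : ℤ | ∃ ω', 0 < q ω' ∧ D.c (k + U) ω' = D.c (k + U) ω ∧
        D.cell J (w₀ + (k + B) * z) ω' = D.cell J (w₀ + (k + B) * z) ω ∧
        ⌊(2 : ℝ) ^ (P₁ + (D.g k + j * u)) * D.rh J k ω'⌋ =
          ⌊(2 : ℝ) ^ (P₁ + (D.g k + j * u)) * D.rh J k ω⌋ ∧
        x = ⌊(2 : ℝ) ^ (P₂ + (D.g k + j * u)) * D.rh J k ω'⌋} := by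
    ext x
    simp only [Set.mem_ofPred_eq]
    have e1 : ∀ (P : ℕ) (y : ℝ), (2 : ℝ) ^ P * (2 ^ (D.g k + j * u) * y) =
        2 ^ (P + (D.g k + j * u)) * y := by
      intro P y
      rw [pow_add _ P, mul_assoc]
    constructor
    · rintro ⟨ω', a1, a2, a3, a4, a5⟩
      refine ⟨ω', a1, a2, ?_, ?_, ?_⟩
      · funext i
        have a6 := congrFun a3 i
        unfold ycf at a6
        rw [if_pos a1, if_pos hω, a2] at a6
        omega
      · rw [← e1, ← e1]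
        exact a4
      · rw [← e1]
        exact a5
    · rintro ⟨ω', a1, a2, a3, a4, a5⟩
      refine ⟨ω', a1, a2, ?_, ?_, ?_⟩
      · funext i
        unfold ycf
        rw [if_pos a1, if_pos hω, a2, a3]
      · rw [e1, e1]
        exact a4
      · rw [e1]
        exact a5
  rw [hset]
  refine h3.trans (Real.exp_le_exp.2 ?_)
  push_cast
  have e2 : (P₂ : ℝ) + (D.g k + j * u) - (P₁ + (D.g k + j * u)) = P₂ - P₁ := by ring
  rw [e2]
  linarith only [hd]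

/-- **The core data.** -/
theorem core_ok (n K : ℕ) (C₀ : ℝ) (hC₀ : 1 ≤ C₀) : ∃ C : ℝ, 0 ≤ C ∧
    ∀ {D : Dat n} {J r w₀ z M k j U B u m : ℕ} {κ C₁ : ℝ} {q : D.Ω → ℝ}
      {Q : D.Λ × ℕ → Pl n}, Cx D K J r w₀ z M k j U B u m κ C₁ q Q → ∀ (C₂ C₅ θ η c d : ℝ)
      (T : (D.Γ × (Fin n → ℤ)) ⊕ D.Ω → Pl n), 0 ≤ C₂ →
      (∀ x, (∃ R, 0 < q R ∧ D.JGd K J w₀ z B k j C₂ Q R ∧
          tg q (blk D J (w₀ + (k + B) * z) (k + B)) R = x ∧
          T x = TT D J k B U j (w₀ + k * z + u) (D.g k + j * u) R) ∨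
        ((∀ R, 0 < q R → D.JGd K J w₀ z B k j C₂ Q R →
          tg q (blk D J (w₀ + (k + B) * z) (k + B)) R ≠ x) ∧ T x = 0)) →
      Pb q (fun ω => ¬ D.JGd K J w₀ z B k j C₂ Q ω) ≤ η / 2 →
      C * Real.exp ((C₁ + C₂ + 1) * z) ≤ Real.exp θ →
      n * (K + 1) * Real.exp (C₂ * z) ≤ Real.exp (C₅ * z) → Real.exp (C₅ * z) + 1 ≤ Real.exp θ →
      z + κ * z ≤ θ →
      CH q (D.V J w₀ z j B U k C₅ Q) (D.c (k + U)) -
        CH q (D.V J w₀ z j B U k C₅ Q) (D.c (k + B)) ≤ d →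
      d + n * (κ * z + 2) ≤ θ → κ ≤ η →
      (∀ P₁ P₂ : ℕ, D.g k + j * ((U - 1) * z) ≤ P₁ → P₁ ≤ P₂ → P₂ ≤ D.g k + (j + 1) * (U * z) →
        D.Cnt J k (k + U) (w₀ + (k + B) * z) q c d P₁ P₂) →
      Core j u m c C₀ θ η q (tg q (D.wn J (w₀ + (k + U) * z)))
        (tg q (blk D J (w₀ + (k + B) * z) (k + B))) (D.c (k + U)) (D.V J w₀ z j B U k C₅ Q)
        (fun ω => ((D.T ω / 2 ^ (J - (w₀ + (k + B) * z)) : ℕ) : ℤ))
        (YC D J k U (w₀ + k * z + u) q) (fun ω => D.E (D.ln ω))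
        (ycf D J k U (w₀ + (k + B) * z) q) (fun ω => 2 ^ (D.g k + j * u) * D.rh J k ω) T
        (fun v _ => bVf K j (U * z) (Real.exp θ) v) (EVf (B * z)) := by
  obtain ⟨Ca, hCa0, hCa⟩ := hgt_near n K
  obtain ⟨Cb, hCb0, hCb⟩ := TT_lip n K (3 * C₀) (by linarith only [hC₀])
  obtain ⟨Cc, hCc0, hCc⟩ := trans_core n K C₀ hC₀
  refine ⟨Ca + Cb + Cc, by positivity, ?_⟩
  intro D J r w₀ z M k j U B u m κ C₁ q Q h C₂ C₅ θ η c d T hC2 hT hPb hθ1 hC5 hθ5 hθz hV hθd hκη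
    hcnt
  have hvB := h.vB
  have hvU := h.vU
  have hvJ : w₀ + k * z + u + m ≤ J := by
    have h1 := h.vr.trans h.ok.r_le
    rwa [h.vB] at h1
  have hzm := h.zm
  have hum : u ≤ m := by
    have := h.um
    have := Nat.mul_le_mul_right u (show 1 ≤ j + 1 by omega)
    omega
  have hz0 : (0 : ℝ) ≤ z := Nat.cast_nonneg z
  have hC1 := h.C1
  have hkU : k + U ≤ M := by have := h.kB; have := h.UB; omega
  have hmp : (0 : ℝ) < 2 ^ m := by positivity
  have hup : (0 : ℝ) < 2 ^ u := by positivity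
  have hep : (0 : ℝ) < 2 ^ (w₀ + k * z + u) := by positivity
  have hEp : 0 < Real.exp ((C₁ + C₂ + 1) * z) := Real.exp_pos _
  -- blocks
  have hblk : ∀ {ω ω' : D.Ω}, tg q (blk D J (w₀ + (k + B) * z) (k + B)) ω =
      tg q (blk D J (w₀ + (k + B) * z) (k + B)) ω' → (0 < q ω ∧ 0 < q ω' ∧
        blk D J (w₀ + (k + B) * z) (k + B) ω = blk D J (w₀ + (k + B) * z) (k + B) ω') ∨
        ω = ω' := fun hh => tg_eq _ hh
  have hrep : ∀ ω, 0 < q ω → D.JGd K J w₀ z B k j C₂ Q ω → ∃ R, 0 < q R ∧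
      D.JGd K J w₀ z B k j C₂ Q R ∧ blk D J (w₀ + (k + B) * z) (k + B) R =
        blk D J (w₀ + (k + B) * z) (k + B) ω ∧
      T (tg q (blk D J (w₀ + (k + B) * z) (k + B)) ω) =
        TT D J k B U j (w₀ + k * z + u) (D.g k + j * u) R := by
    intro ω hω hG
    rcases hT (tg q (blk D J (w₀ + (k + B) * z) (k + B)) ω) with ⟨R, h1, h2, h3, h4⟩ | ⟨h1, -⟩
    · refine ⟨R, h1, h2, ?_, h4⟩
      rcases hblk h3 with h5 | h5
      · exact h5.2.2
      · rw [h5]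
    · exact absurd rfl (h1 ω hω hG)
  refine
    { isLaw := h.ok.isLaw
      bk_β := fun ω ω' hω hω' hh => ?_
      g_β := fun ω ω' hω hω' hh =>
        h.ok.c_wn (k + U) hkU ω ω' hω hω' (det_tg' _ ω ω' hω hω' hh)
      bk_tm := fun ω ω' hω hω' hh => ?_
      bk_yc := fun ω ω' hω hω' hh => ?_
      E_g := fun ω ω' hh => ?_
      tm_g := fun ω ω' hh => ?_
      Y_g := fun ω ω' hh i => ?_
      Y_bk := fun ω ω' hh i => ?_
      E_le := fun ω i => (h.ok.E_le _ i).trans hC₀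
      Y_le := fun ω i => ?_
      yc_near := fun ω i => ?_
      EV_le := fun v i => (EVf_le _ v i).trans hC₀
      EV_near := fun ω hω i => ?_
      bV_hom := fun v x => bVf_hom K j (U * z) _ v
      bV_le := fun v x => bVf_CB K j (U * z) (Real.exp_pos _).le (by have := h.jK; omega) v
      T_deg := fun x => ?_
      T_lip := fun x y y' hy hy' hyy => ?_
      T_hgt := ?_
      transport := ?_
      timeFull := ?_
      indep := (h.indep _ hV).trans hθd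
      span := ?_
      count := fun P₁ P₂ h1 h2 ω hω => h.count (c := c) (d := d) (by
        have : 0 ≤ (n : ℝ) * (κ * z + 2) :=
          mul_nonneg (Nat.cast_nonneg n) (by linarith only [h, hz0, mul_nonneg h.κ0 hz0])
        linarith only [hθd, this]) hcnt P₁ P₂ h1 h2 ω hω }
  · -- bk_β
    exact h.cBU ω ω' hω hω' (Prod.ext_iff.1 (det_tg' _ ω ω' hω hω' hh)).1
  · -- bk_tm
    have h1 := h.ok.c_T (k + B) h.kB ω ω' hω hω' (Prod.ext_iff.1 (det_tg' _ ω ω' hω hω' hh)).1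
    show ((_ : ℕ) : ℤ) = ((_ : ℕ) : ℤ)
    exact congrArg _ h1
  · -- bk_yc
    have h1 := det_tg' _ ω ω' hω hω' hh
    have h2 := (Prod.ext_iff.1 h1).1
    have h3 := h.cBU ω ω' hω hω' h2
    have h4 : D.cell J (w₀ + (k + B) * z) ω = D.cell J (w₀ + (k + B) * z) ω' :=
      (Prod.ext_iff.1 h1).2
    funext i
    unfold ycf
    rw [if_pos hω, if_pos hω', h3, h4]
  · -- E_g
    rcases tg_eq _ hh with h1 | h1
    · have h2 : D.ln ω = D.ln ω' := (Prod.ext_iff.1 h1.2.2).1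
      show D.E (D.ln ω) = D.E (D.ln ω')
      rw [h2]
    · rw [h1]
  · -- tm_g
    rcases tg_eq _ hh with h1 | h1
    · have h4 := tm_coarse (J := J) (u := w₀ + (k + U) * z) (v := w₀ + (k + B) * z)
        (by rw [hvU, hvB]; omega) (by rw [hvB]; exact hvJ) (Prod.ext_iff.1 h1.2.2).2
      refine h4.trans (pow_le_pow_right₀ (by norm_num) ?_)
      rw [hvU, hvB]
      omega
    · rw [h1, sub_self, abs_zero]
      positivity
  · -- Y_g
    rcases tg_eq _ hh with h1 | h1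
    · obtain ⟨hω, hω', hwn⟩ := h1
      have h2 : D.ln ω = D.ln ω' := (Prod.ext_iff.1 hwn).1
      have h3 : D.c (k + U) ω = D.c (k + U) ω' := h.ok.c_wn (k + U) hkU ω ω' hω hω' hwn
      rw [YC_pos hω, YC_pos hω']
      have h4 := tm_near (J := J) (e := w₀ + k * z + u) (m := m) (T := D.T ω) (T' := D.T ω') hvJ
      rw [← hvB] at h4
      have e1 : Yc D J k U (w₀ + k * z + u) ω' i - Yc D J k U (w₀ + k * z + u) ω i -
          ((((D.T ω' / 2 ^ (J - (w₀ + (k + B) * z)) : ℕ) : ℤ) -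
            ((D.T ω / 2 ^ (J - (w₀ + (k + B) * z)) : ℕ) : ℤ) : ℤ) : ℝ) / 2 ^ m *
            D.E (D.ln ω) i =
          ((2 : ℝ) ^ (w₀ + k * z + u) * ((D.T ω' : ℝ) / 2 ^ J - (D.T ω : ℝ) / 2 ^ J) -
            ((((D.T ω' / 2 ^ (J - (w₀ + (k + B) * z)) : ℕ) : ℤ) -
            ((D.T ω / 2 ^ (J - (w₀ + (k + B) * z)) : ℕ) : ℤ) : ℤ) : ℝ) / 2 ^ m) *
            D.E (D.ln ω) i := by
        unfold Yc Dat.Y
        rw [← h2, ← h3]
        ring
      rw [e1, abs_mul]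
      calc _ ≤ 1 / 2 ^ m * 1 := mul_le_mul h4 (h.ok.E_le _ i) (abs_nonneg _) (by positivity)
        _ = 1 / 2 ^ m := mul_one _
        _ ≤ C₀ / 2 ^ m := div_le_div_of_nonneg_right hC₀ hmp.le
    · rw [h1, sub_self, sub_self, Int.cast_zero, zero_div, zero_mul, sub_zero, abs_zero]
      positivity
  · -- Y_bk
    rcases hblk hh with h1 | h1
    · obtain ⟨hω, hω', hb⟩ := h1
      have h3 : D.c (k + U) ω = D.c (k + U) ω' := h.cBU ω ω' hω hω' (Prod.ext_iff.1 hb).1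
      have h4 : |D.Y J ω' i - D.Y J ω i| ≤ 1 / 2 ^ (w₀ + k * z + u + m) := by
        rw [← hvB]
        exact Y_cell (Prod.ext_iff.1 hb).2 i
      rw [YC_pos hω, YC_pos hω']
      have e1 : Yc D J k U (w₀ + k * z + u) ω' i - Yc D J k U (w₀ + k * z + u) ω i =
          2 ^ (w₀ + k * z + u) * (D.Y J ω' i - D.Y J ω i) := by
        unfold Yc
        rw [← h3]
        ring
      rw [e1, abs_mul, abs_of_pos hep]
      calc (2 : ℝ) ^ (w₀ + k * z + u) * |D.Y J ω' i - D.Y J ω i| ≤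
          2 ^ (w₀ + k * z + u) * (1 / 2 ^ (w₀ + k * z + u + m)) :=
            mul_le_mul_of_nonneg_left h4 hep.le
        _ = 1 / 2 ^ m := by
          rw [pow_add _ (w₀ + k * z + u) m]
          field_simp
        _ ≤ C₀ / 2 ^ m := div_le_div_of_nonneg_right hC₀ hmp.le
    · rw [h1, sub_self, abs_zero]
      positivity
  · -- Y_le
    by_cases hω : 0 < q ω
    · rw [YC_pos hω]
      exact (h.Y_le hω i).trans hC₀
    · unfold YC
      rw [if_neg hω, abs_zero]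
      linarith only [hC₀]
  · -- yc_near
    by_cases hω : 0 < q ω
    · rw [YC_pos hω]
      unfold ycf
      rw [if_pos hω]
      unfold Dat.cell
      have h1 := Int.floor_le ((2 : ℝ) ^ (w₀ + (k + B) * z) * D.Y J ω i)
      have h2 := Int.lt_floor_add_one ((2 : ℝ) ^ (w₀ + (k + B) * z) * D.Y J ω i)
      have h3 := Int.floor_le ((2 : ℝ) ^ (w₀ + (k + B) * z) * D.y₀ (k + U) (D.c (k + U) ω) i)
      have h4 := Int.lt_floor_add_one
        ((2 : ℝ) ^ (w₀ + (k + B) * z) * D.y₀ (k + U) (D.c (k + U) ω) i)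
      have e1 : (2 : ℝ) ^ m * Yc D J k U (w₀ + k * z + u) ω i =
          2 ^ (w₀ + (k + B) * z) * D.Y J ω i -
            2 ^ (w₀ + (k + B) * z) * D.y₀ (k + U) (D.c (k + U) ω) i := by
        unfold Yc
        rw [hvB, pow_add _ (w₀ + k * z + u) m]
        ring
      rw [e1]
      push_cast
      rw [abs_le]
      constructor <;> linarith
    · unfold ycf YC
      rw [if_neg hω, if_neg hω, Int.cast_zero, mul_zero, sub_zero, abs_zero]
      linarith only [hC₀]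
  · -- EV_near
    have h1 := EVf_near (B * z) (D.V J w₀ z j B U k C₅ Q ω) (D.E (D.ln ω)) (h.ok.E_le _)
      (fun i => rfl) i
    refine h1.trans ?_
    rw [div_le_div_iff₀ (by positivity) hmp, one_mul]
    have h2 : (2 : ℝ) ^ m ≤ 2 ^ (B * z) :=
      pow_le_pow_right₀ (by norm_num) (by have := h.hm; omega)
    calc (2 : ℝ) ^ m ≤ 1 * 2 ^ (B * z) := by linarith only [h2]
      _ ≤ C₀ * 2 ^ (B * z) := mul_le_mul_of_nonneg_right hC₀ (by positivity)
  · -- T_deg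
    rcases hT x with ⟨R, -, -, -, h4⟩ | ⟨-, h4⟩
    · rw [h4]
      unfold TT
      have h5 : (TA D J k B j R).totalDegree ≤ j - 1 := by
        have h6 := tay_degree h.hj (dF D k B R) (D.Y J R)
        have h7 : (TA D J k B j R).totalDegree < j := h6
        omega
      have h6 := sc_degree h5 (D.y₀ (k + U) (D.c (k + U) R)) (1 / 2 ^ (w₀ + k * z + u))
        (2 ^ (D.g k + j * u))
      have := h.hj
      omega
    · rw [h4, MvPolynomial.totalDegree_zero]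
      exact h.hj
  · -- T_lip
    rcases hT x with ⟨R, h1, h2, -, h4⟩ | ⟨-, h4⟩
    · rw [h4]
      refine (hCb h C₂ R h1 h2 y y' (fun i => (hy i).trans (by linarith only [hC₀]))
        (fun i => (hy' i).trans (by linarith only [hC₀])) hyy).trans ?_
      rw [← mul_div_assoc]
      refine div_le_div_of_nonneg_right ?_ hup.le
      refine le_trans ?_ hθ1
      have h5 : Real.exp (C₂ * z) ≤ Real.exp ((C₁ + C₂ + 1) * z) :=
        Real.exp_le_exp.2 (mul_le_mul_of_nonneg_right (by linarith only [hC1]) hz0)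
      calc Cb * Real.exp (C₂ * z) ≤ Cb * Real.exp ((C₁ + C₂ + 1) * z) :=
            mul_le_mul_of_nonneg_left h5 hCb0
        _ ≤ _ := by nlinarith only [hCa0, hEp, hCc0]
    · rw [h4, map_zero, map_zero, sub_zero, abs_zero]
      positivity
  · -- T_hgt
    refine le_trans (Pb_mono h.ok.isLaw fun ω hω hbad hG => ?_) (hPb.trans (by
      have := Pb_nonneg h.ok.isLaw (fun ω => ¬ D.JGd K J w₀ z B k j C₂ Q ω)
      linarith only [hPb, this]))
    obtain ⟨R, hR, hGR, hb, hTR⟩ := hrep ω hω hG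
    rw [hTR, YC_pos hω] at hbad
    have hcB : D.c (k + B) R = D.c (k + B) ω := (Prod.ext_iff.1 hb).1
    have h1 := hCa h C₂ R ω hC2 hGR hω (h.dF_blk hR hω hcB) (by
      rw [← hvB]
      exact Y_cell (Prod.ext_iff.1 hb).2)
    have e1 : 2 ^ (D.g k + j * u) * D.rh J k ω - MvPolynomial.eval
        (Yc D J k U (w₀ + k * z + u) ω) (TT D J k B U j (w₀ + k * z + u) (D.g k + j * u) R) =
        2 ^ (D.g k + j * u) * (D.rh J k ω - MvPolynomial.eval (D.Y J ω) (TA D J k B j R)) := by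
      unfold TT
      rw [sc_eval, h.cBU R ω hR hω hcB, Yc_back, mul_sub]
    rw [e1, abs_mul, abs_of_pos (show (0 : ℝ) < 2 ^ (D.g k + j * u) by positivity)] at hbad
    have h2 : Ca * (Real.exp ((C₁ + C₂ + 1) * z) / 2 ^ m) ≤ Real.exp θ / 2 ^ u := by
      rw [← mul_div_assoc]
      refine div_le_div₀ (Real.exp_pos _).le ?_ hup (pow_le_pow_right₀ (by norm_num) hum)
      refine le_trans ?_ hθ1
      nlinarith only [hCb0, hEp, hCc0]
    linarith only [hbad, h1, h2]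
  · -- transport
    refine (P2_pair h.ok.isLaw _ _ (fun ω => D.JGd K J w₀ z B k j C₂ Q ω)
      fun ω ω' hω hω' hh hG hG' x hx => ?_).trans (by linarith only [hPb])
    have hwn := det_tg' _ ω ω' hω hω' hh
    obtain ⟨R, hR, hGR, hb, hTR⟩ := hrep ω hω hG
    obtain ⟨R', hR', hGR', hb', hTR'⟩ := hrep ω' hω' hG'
    rw [hTR, hTR', YC_pos hω]
    refine (hCc h C₂ ω ω' R R' (bVf K j (U * z) (Real.exp θ) (D.V J w₀ z j B U k C₅ Q ω)) x hC2 hω
      hω' hR hR' hwn hG hG' hGR hGR' hb hb'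
      ((bVf_hom K j (U * z) _ _).totalDegree_le.trans (by have := h.jK; omega))
      (h.V_near hG hC5 hθ5) hx).trans ?_
    rw [← mul_div_assoc]
    refine div_le_div_of_nonneg_right (le_trans ?_ hθ1) hup.le
    nlinarith only [hCa0, hEp, hCb0]
  · -- timeFull
    exact le_trans (by linarith only [hθz]) h.timeFull
  · -- span
    obtain ⟨e, he0, he1, he2⟩ := h.span (θ := θ) (by linarith only [hθz])
    exact ⟨e, he0, he1.trans hκη, he2⟩

end Cx

end Pool.BFL.Cnl
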