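import Pool.Agent.H90.BFL.CnlH

/-!
# Row CNL: the new label
-/

set_option autoImplicit false

namespace Pool.BFL.Cnl

open Finset Real
open Pool.Agent.H49.Ent Pool.Agent.H32.Dense Pool.STK Pool.KS3
open Pool.Agent.H36.KBX (bx mem_bx eval_bound coef_bound coeff_pderiv_bound)

/-- Form of the potential in absolute units. -/
noncomputable def HA {n : ℕ} (D : Dat n) (J e : ℕ) (μ : ℝ) (H : Pl n) (R : D.Ω) : Pl n :=
  sc H (fun i => -(2 ^ e * D.Y J R i)) (2 ^ e) (1 / μ)

lemma HA_eval {n : ℕ} (D : Dat n) (J e : ℕ) (μ : ℝ) (H : Pl n) (R : D.Ω) (b : Fin n → ℝ) :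
    MvPolynomial.eval b (HA D J e μ H R) =
      1 / μ * MvPolynomial.eval (fun i => 2 ^ e * (b i - D.Y J R i)) H := by
  unfold HA
  rw [sc_eval]
  congr 3
  funext i
  ring

lemma HA_grad {n : ℕ} (D : Dat n) (J e : ℕ) (μ : ℝ) (H : Pl n) (R : D.Ω) (b : Fin n → ℝ)
    (i : Fin n) :
    MvPolynomial.eval b (MvPolynomial.pderiv i (HA D J e μ H R)) =
      1 / μ * (2 ^ e * MvPolynomial.eval (fun i => 2 ^ e * (b i - D.Y J R i))
        (MvPolynomial.pderiv i H)) := by
  unfold HA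
  rw [sc_pderiv]
  congr 4
  funext i
  ring

/-- Variation of the gradient of a form. -/
lemma form_grad (n K : ℕ) : ∃ C : ℝ, 0 ≤ C ∧ ∀ (j : ℕ) (H : Pl n) (X : ℝ) (v v' : Fin n → ℝ)
    (i : Fin n), j ≤ K → H.IsHomogeneous j → CB H X → (∀ l, |v l| ≤ 3) → (∀ l, |v' l| ≤ 3) →
    (j ≤ 1 → MvPolynomial.eval v (MvPolynomial.pderiv i H) -
      MvPolynomial.eval v' (MvPolynomial.pderiv i H) = 0) ∧
    |MvPolynomial.eval v (MvPolynomial.pderiv i H) -
      MvPolynomial.eval v' (MvPolynomial.pderiv i H)| ≤ C * X := by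
  refine ⟨2 * ((bx n K).card * ((K + 1) * 3 ^ (n * K))), by positivity, ?_⟩
  intro j H X v v' i hj hH hX hv hv'
  have hd : H.totalDegree ≤ K := hH.totalDegree_le.trans hj
  constructor
  · intro hj1
    have h1 : (MvPolynomial.pderiv i H).totalDegree = 0 := by
      have h2 := (hH.pderiv (i := i)).totalDegree_le
      omega
    rw [MvPolynomial.totalDegree_eq_zero_iff_eq_C.1 h1, MvPolynomial.eval_C, MvPolynomial.eval_C,
      sub_self]
  · have h1 := coeff_pderiv_bound H hd X hX i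
    have hd' : (MvPolynomial.pderiv i H).totalDegree ≤ K :=
      (Pool.Agent.H50.PW.totalDegree_pderiv_le H i).trans hd
    have h2 := eval_bound _ hd' _ 3 (by norm_num) h1 v hv
    have h3 := eval_bound _ hd' _ 3 (by norm_num) h1 v' hv'
    refine (abs_sub _ _).trans ((add_le_add h2 h3).trans (le_of_eq ?_))
    ring

namespace Cx

variable {n : ℕ} {D : Dat n} {K J r w₀ z M k j U B u m : ℕ} {κ C₁ : ℝ} {q : D.Ω → ℝ}
  {Q : D.Λ × ℕ → Pl n}

/-- **The new label.** -/
theorem newlab (n K : ℕ) (C₀ : ℝ) (hC₀ : 2 ≤ C₀) : ∃ C : ℝ, 0 ≤ C ∧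
    ∀ {D : Dat n} {J r w₀ z M k j U B u m : ℕ} {κ C₁ : ℝ} {q : D.Ω → ℝ}
      {Q : D.Λ × ℕ → Pl n}, Cx D K J r w₀ z M k j U B u m κ C₁ q Q → ∀ (C₂ X : ℝ) (A : ℕ)
      (T TB Hf : (D.Γ × (Fin n → ℤ)) ⊕ D.Ω → Pl n), 0 ≤ C₂ → 0 ≤ X →
      (∀ x, (∃ R, 0 < q R ∧ D.JGd K J w₀ z B k j C₂ Q R ∧
          tg q (blk D J (w₀ + (k + B) * z) (k + B)) R = x ∧
          T x = TT D J k B U j (w₀ + k * z + u) (D.g k + j * u) R ∧ TB x = TA D J k B j R) ∨
        ((∀ R, 0 < q R → D.JGd K J w₀ z B k j C₂ Q R →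
          tg q (blk D J (w₀ + (k + B) * z) (k + B)) R ≠ x) ∧ T x = 0 ∧ TB x = 0)) →
      Pb q (fun ω => ¬ D.JGd K J w₀ z B k j C₂ Q ω) ≤ 1 / 8 →
      (∀ x, (Hf x).IsHomogeneous j) → (∀ x, CB (Hf x) X) →
      P2 q (tg q (D.wn J (w₀ + (k + U) * z))) (fun ω ω' => ¬ ∀ x : Fin n → ℝ, (∀ i, |x i| ≤ C₀) →
        |MvPolynomial.eval x (T (tg q (blk D J (w₀ + (k + B) * z) (k + B)) ω')) +
          MvPolynomial.eval (fun i => x i - YC D J k U (w₀ + k * z + u) q ω' i)
            (Hf (tg q (blk D J (w₀ + (k + B) * z) (k + B)) ω')) -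
          (MvPolynomial.eval x (T (tg q (blk D J (w₀ + (k + B) * z) (k + B)) ω)) +
            MvPolynomial.eval (fun i => x i - YC D J k U (w₀ + k * z + u) q ω i)
              (Hf (tg q (blk D J (w₀ + (k + B) * z) (k + B)) ω)))| ≤ X / 2 ^ u) ≤ 1 / 8 →
      C * ((Real.exp ((C₁ + C₂ + 1) * z) + X) * (Real.exp ((C₁ + 1) * z) * 2 ^ ((j + A) * z))) ≤
        2 ^ u →
      D.NewLab K J q (w₀ + (k + U) * z) (D.g (k + U) + A * z) := by
  classical
  obtain ⟨Ca, hCa0, hCa⟩ := hgt_near n K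
  obtain ⟨Cv, hCv0, hCv⟩ := vrv n K
  obtain ⟨Cg, hCg0, hCg⟩ := grv n K
  obtain ⟨Cb, hCb0, hCb⟩ := tay_ball n K
  obtain ⟨Cf, hCf0, hCf⟩ := form_grad n K
  obtain ⟨Cl, hCl0, hCl⟩ := eval_lip n K 4 (by norm_num)
  set Cd : ℝ := ((bx n K).card : ℝ) with hCd
  have hCd0 : 0 ≤ Cd := by positivity
  refine ⟨Ca + Cd + 1 + 2 * Cl + 8 * (Cv + Cg * Cb + Cf), by positivity, ?_⟩
  intro D J r w₀ z M k j U B u m κ C₁ q Q h C₂ X A T TB Hf hC2 hX0 hT hPb hHf hHX hP2 hnum
  have hvB := h.vB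
  have hvU := h.vU
  have hvJ : w₀ + k * z + u + m ≤ J := by
    have h1 := h.vr.trans h.ok.r_le
    rwa [h.vB] at h1
  have hvr : w₀ + k * z + u + m ≤ r := by
    have h1 := h.vr
    rwa [h.vB] at h1
  have hzm := h.zm
  have hum : u ≤ m := by
    have := h.um
    have := Nat.mul_le_mul_right u (show 1 ≤ j + 1 by omega)
    omega
  have hz0 : (0 : ℝ) ≤ z := Nat.cast_nonneg z
  have hC1 := h.C1
  have hkU : k + U ≤ M := by have := h.kB; have := h.UB; omega
  have hkM : k ≤ M := by omega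
  have hmp : (0 : ℝ) < 2 ^ m := by positivity
  have hup : (0 : ℝ) < 2 ^ u := by positivity
  set e := w₀ + k * z + u with he
  have hep : (0 : ℝ) < 2 ^ e := by positivity
  set μ : ℝ := 2 ^ (D.g k + j * u) with hμ
  have hμ0 : 0 < μ := by positivity
  set bk := tg q (blk D J (w₀ + (k + B) * z) (k + B)) with hbk
  set E₁ : ℝ := Real.exp ((C₁ + C₂ + 1) * z) with hE₁
  have hE₁1 : 1 ≤ E₁ := Real.one_le_exp (mul_nonneg (by linarith only [hC2, hC1]) hz0)
  set W : ℝ := E₁ + X with hW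
  have hW1 : 1 ≤ W := by linarith only [hX0, hE₁1]
  set F₁ : ℝ := Real.exp ((C₁ + 1) * z) * 2 ^ ((j + A) * z) with hF₁
  -- blocks
  have hrep : ∀ ω, 0 < q ω → D.JGd K J w₀ z B k j C₂ Q ω → ∃ R, 0 < q R ∧
      D.JGd K J w₀ z B k j C₂ Q R ∧ blk D J (w₀ + (k + B) * z) (k + B) R =
        blk D J (w₀ + (k + B) * z) (k + B) ω ∧ TB (bk ω) = TA D J k B j R := by
    intro ω hω hG
    rcases hT (bk ω) with ⟨R, h1, h2, h3, -, h4⟩ | ⟨h1, -⟩
    · refine ⟨R, h1, h2, ?_, h4⟩
      rcases tg_eq _ h3 with h5 | h5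
      · exact h5.2.2
      · rw [h5]
    · exact absurd rfl (h1 ω hω hG)
  have hTB : ∀ ω, 0 < q ω → ∀ x : Fin n → ℝ, MvPolynomial.eval x (T (bk ω)) =
      μ * MvPolynomial.eval (fun l => D.y₀ (k + U) (D.c (k + U) ω) l + 1 / 2 ^ e * x l)
        (TB (bk ω)) := by
    intro ω hω x
    rcases hT (bk ω) with ⟨R, h1, h2, h3, h4, h5⟩ | ⟨-, h4, h5⟩
    · have h6 : D.c (k + U) R = D.c (k + U) ω := by
        rcases tg_eq _ h3 with h5 | h5
        · exact h.cBU R ω h1 hω (Prod.ext_iff.1 h5.2.2).1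
        · rw [h5]
      rw [h4, h5]
      unfold TT
      rw [sc_eval, h6]
    · rw [h4, h5, map_zero, map_zero, mul_zero]
  have hTBd : ∀ x, (TB x).totalDegree ≤ K := by
    intro x
    rcases hT x with ⟨R, -, -, -, -, h5⟩ | ⟨-, -, h5⟩
    · rw [h5]
      have h6 : (TA D J k B j R).totalDegree < j := tay_degree h.hj (dF D k B R) (D.Y J R)
      have := h.jK
      omega
    · rw [h5, MvPolynomial.totalDegree_zero]
      exact Nat.zero_le _
  -- the label
  set G : D.Z → Pl n := fun ζ => if hζ : ∃ ω, 0 < q ω ∧ D.pt ω = ζ then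
      D.F k (D.c k hζ.choose) + TB (bk hζ.choose) + HA D J e μ (Hf (bk hζ.choose)) hζ.choose
    else 0 with hG
  have hGR : ∀ ω, 0 < q ω → ∃ R, 0 < q R ∧ (∀ i, |D.Y J R i - D.Y J ω i| ≤ 1 / 2 ^ (e + m)) ∧
      G (D.pt ω) = D.F k (D.c k ω) + TB (bk ω) + HA D J e μ (Hf (bk ω)) R := by
    intro ω hω
    have hζ : ∃ ω', 0 < q ω' ∧ D.pt ω' = D.pt ω := ⟨ω, hω, rfl⟩
    have h1 := hζ.choose_spec
    refine ⟨hζ.choose, h1.1, ?_, ?_⟩
    · have h2 := h.ok.pt_Y hζ.choose ω h1.1 hω h1.2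
      exact Y_cell (cell_coarse hvr h2.symm)
    · have h2 : bk hζ.choose = bk ω := by
        refine det_tg _ hζ.choose ω h1.1 hω (Prod.ext ?_ ?_)
        · exact h.ok.c_pt (k + B) h.kB hζ.choose ω h1.1 hω h1.2
        · exact cell_coarse h.vr (h.ok.pt_Y hζ.choose ω h1.1 hω h1.2)
      have h3 : D.c k hζ.choose = D.c k ω := h.ok.c_pt k hkM hζ.choose ω h1.1 hω h1.2
      show (if hζ : ∃ ω', 0 < q ω' ∧ D.pt ω' = D.pt ω then
        D.F k (D.c k hζ.choose) + TB (bk hζ.choose) + HA D J e μ (Hf (bk hζ.choose)) hζ.choose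
        else 0) = _
      rw [dif_pos hζ, h2, h3]
  -- numbers
  have hF1 : 1 ≤ F₁ := by
    have h1 : 1 ≤ Real.exp ((C₁ + 1) * z) := Real.one_le_exp (mul_nonneg (by linarith only [hC1]) hz0)
    have h2 : (1 : ℝ) ≤ 2 ^ ((j + A) * z) := one_le_pow₀ (by norm_num)
    rw [hF₁]
    nlinarith only [h1, h2]
  have hP : (2 : ℝ) ^ (D.g (k + U) + A * z) ≤ F₁ * μ := by
    rw [pow_add]
    have h1 := h.gU
    have h2 : Real.exp (C₁ * z) ≤ Real.exp ((C₁ + 1) * z) :=
      Real.exp_le_exp.2 (mul_le_mul_of_nonneg_right (by linarith only) hz0)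
    have h3 : (2 : ℝ) ^ (D.g k + j * (U * z)) = μ * 2 ^ (j * z) := by
      rw [hμ, ← pow_add]
      congr 1
      rw [← h.hu]
      ring
    rw [h3] at h1
    calc (2 : ℝ) ^ D.g (k + U) * 2 ^ (A * z) ≤ Real.exp (C₁ * z) * (μ * 2 ^ (j * z)) *
          2 ^ (A * z) := mul_le_mul_of_nonneg_right h1 (by positivity)
      _ ≤ Real.exp ((C₁ + 1) * z) * (μ * 2 ^ (j * z)) * 2 ^ (A * z) :=
          mul_le_mul_of_nonneg_right (mul_le_mul_of_nonneg_right h2 (by positivity))
            (by positivity)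
      _ = F₁ * μ := by
        have h4 : (2 : ℝ) ^ ((j + A) * z) = 2 ^ (j * z) * 2 ^ (A * z) := by
          rw [← pow_add, ← add_mul]
        rw [hF₁, h4]
        ring
  have hfin : ∀ y : ℝ, ∀ c : ℝ, 0 ≤ c → c ≤ Ca + Cd + 1 + 2 * Cl →
      μ * y ≤ c * W / 2 ^ u → y ≤ 1 / 2 ^ (D.g (k + U) + A * z) := by
    intro y c hc0 hc hy
    rw [le_div_iff₀ (by positivity)]
    have h1 : c * (W * F₁) ≤ 2 ^ u := by
      refine le_trans ?_ hnum
      refine mul_le_mul_of_nonneg_right ?_ (by positivity)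
      have : 0 ≤ 8 * (Cv + Cg * Cb + Cf) := by positivity
      linarith only [hc, this]
    rcases le_or_gt y 0 with h0 | h0
    · have : y * 2 ^ (D.g (k + U) + A * z) ≤ 0 :=
        mul_nonpos_of_nonpos_of_nonneg h0 (by positivity)
      linarith only [this]
    · rw [le_div_iff₀ hup] at hy
      calc y * 2 ^ (D.g (k + U) + A * z) ≤ y * (F₁ * μ) := mul_le_mul_of_nonneg_left hP h0.le
        _ = (μ * y * 2 ^ u) * F₁ / 2 ^ u := by field_simp
        _ ≤ (c * W) * F₁ / 2 ^ u :=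
          div_le_div_of_nonneg_right (mul_le_mul_of_nonneg_right hy (by positivity)) hup.le
        _ ≤ 1 := by
          rw [div_le_one hup, mul_assoc]
          exact h1
  have hgrad : (Cv + Cg * Cb + Cf) * W * Real.exp (1 * z) / 2 ^ u ≤ 1 / 8 := by
    rw [div_le_div_iff₀ hup (by norm_num)]
    have h1 : Real.exp (1 * z) ≤ F₁ := by
      have h2 : Real.exp (1 * z) ≤ Real.exp ((C₁ + 1) * z) :=
        Real.exp_le_exp.2 (mul_le_mul_of_nonneg_right (by linarith only [hC1]) hz0)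
      have h3 : (1 : ℝ) ≤ 2 ^ ((j + A) * z) := one_le_pow₀ (by norm_num)
      rw [hF₁]
      calc Real.exp (1 * z) ≤ Real.exp ((C₁ + 1) * z) * 1 := by rw [mul_one]; exact h2
        _ ≤ _ := mul_le_mul_of_nonneg_left h3 (Real.exp_pos _).le
    have h2 : 8 * (Cv + Cg * Cb + Cf) * (W * F₁) ≤ 2 ^ u := by
      refine le_trans (mul_le_mul_of_nonneg_right ?_ (by positivity)) hnum
      have : 0 ≤ Ca + Cd + 1 + 2 * Cl := by positivity
      linarith
    calc (Cv + Cg * Cb + Cf) * W * Real.exp (1 * z) * 8 =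
        8 * (Cv + Cg * Cb + Cf) * (W * Real.exp (1 * z)) := by ring
      _ ≤ 8 * (Cv + Cg * Cb + Cf) * (W * F₁) :=
          mul_le_mul_of_nonneg_left (mul_le_mul_of_nonneg_left h1 (by linarith only [hX0, hE₁1])) (by positivity)
      _ ≤ 1 * 2 ^ u := by rw [one_mul]; exact h2
  refine ⟨G, fun ζ => ?_, ?_, ?_, ?_⟩
  · -- degree
    rw [hG]
    show (if hζ : ∃ ω', 0 < q ω' ∧ D.pt ω' = ζ then
        D.F k (D.c k hζ.choose) + TB (bk hζ.choose) + HA D J e μ (Hf (bk hζ.choose)) hζ.choose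
        else 0).totalDegree ≤ K
    split_ifs with hζ
    · refine (MvPolynomial.totalDegree_add _ _).trans (max_le ?_ ?_)
      · exact (MvPolynomial.totalDegree_add _ _).trans (max_le (h.ok.F_deg _ _) (hTBd _))
      · exact sc_degree ((hHf _).totalDegree_le.trans h.jK) _ _ _
    · rw [MvPolynomial.totalDegree_zero]
      exact Nat.zero_le _
  · -- height
    refine le_trans (Pb_mono h.ok.isLaw fun ω hω hbad hG => ?_) hPb
    obtain ⟨R, hR, hYR, hGω⟩ := hGR ω hω
    obtain ⟨R', hR', hGR', hb, hTR⟩ := hrep ω hω hG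
    have hcB : D.c (k + B) R' = D.c (k + B) ω := (Prod.ext_iff.1 hb).1
    have h1 := hCa h C₂ R' ω hC2 hGR' hω (h.dF_blk hR' hω hcB) (by
      rw [← hvB]
      exact Y_cell (Prod.ext_iff.1 hb).2)
    have h2 : |MvPolynomial.eval (fun i => 2 ^ e * (D.Y J ω i - D.Y J R i)) (Hf (bk ω))| ≤
        Cd * (X / 2 ^ m) := by
      have h3 := homog_le (K := K) (hHf (bk ω)) h.jK (c := X) (t := 1 / 2 ^ m) (by positivity)
        (hHX _) (fun i => 2 ^ e * (D.Y J ω i - D.Y J R i)) fun i => by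
          rw [abs_mul, abs_of_pos hep, abs_sub_comm]
          calc (2 : ℝ) ^ e * |D.Y J R i - D.Y J ω i| ≤ 2 ^ e * (1 / 2 ^ (e + m)) :=
                mul_le_mul_of_nonneg_left (hYR i) hep.le
            _ = 1 / 2 ^ m := by
              rw [pow_add _ e m]
              field_simp
      refine h3.trans (mul_le_mul_of_nonneg_left ?_ hCd0)
      have h4 : (1 / (2 : ℝ) ^ m) ^ j ≤ 1 / 2 ^ m := by
        have h5 : 1 / (2 : ℝ) ^ m ≤ 1 := by
          rw [div_le_one hmp]
          exact one_le_pow₀ (by norm_num)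
        have h6 := pow_le_pow_of_le_one (show (0 : ℝ) ≤ 1 / 2 ^ m by positivity) h5 h.hj
        rwa [pow_one] at h6
      calc X * (1 / 2 ^ m) ^ j ≤ X * (1 / 2 ^ m) := mul_le_mul_of_nonneg_left h4 hX0
        _ = X / 2 ^ m := mul_one_div _ _
    refine absurd (hfin _ (Ca + Cd) (by positivity) (by linarith only [hCl0]) ?_) (not_le.2 hbad)
    have e1 : D.h ω - MvPolynomial.eval (D.Y J ω) (G (D.pt ω)) =
        (D.rh J k ω - MvPolynomial.eval (D.Y J ω) (TA D J k B j R')) -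
          1 / μ * MvPolynomial.eval (fun i => 2 ^ e * (D.Y J ω i - D.Y J R i)) (Hf (bk ω)) := by
      rw [hGω, hTR, map_add, map_add, HA_eval]
      unfold Dat.rh
      ring
    rw [e1]
    have h5 : μ * |(D.rh J k ω - MvPolynomial.eval (D.Y J ω) (TA D J k B j R')) -
        1 / μ * MvPolynomial.eval (fun i => 2 ^ e * (D.Y J ω i - D.Y J R i)) (Hf (bk ω))| ≤
        μ * |D.rh J k ω - MvPolynomial.eval (D.Y J ω) (TA D J k B j R')| +
        |MvPolynomial.eval (fun i => 2 ^ e * (D.Y J ω i - D.Y J R i)) (Hf (bk ω))| := by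
      have h6 := abs_sub (D.rh J k ω - MvPolynomial.eval (D.Y J ω) (TA D J k B j R'))
        (1 / μ * MvPolynomial.eval (fun i => 2 ^ e * (D.Y J ω i - D.Y J R i)) (Hf (bk ω)))
      rw [abs_mul (1 / μ), abs_of_pos (show 0 < 1 / μ by positivity)] at h6
      have h7 := mul_le_mul_of_nonneg_left h6 hμ0.le
      refine h7.trans (le_of_eq ?_)
      field_simp
    refine h5.trans ?_
    have h8 : Ca * (E₁ / 2 ^ m) + Cd * (X / 2 ^ m) ≤ (Ca + Cd) * W / 2 ^ u := by
      have h9 : E₁ / 2 ^ m ≤ W / 2 ^ u :=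
        div_le_div₀ (by linarith only [hX0, hE₁1]) (by linarith only [hX0]) hup (pow_le_pow_right₀ (by norm_num) hum)
      have h10 : X / 2 ^ m ≤ W / 2 ^ u :=
        div_le_div₀ (by linarith only [hX0, hE₁1]) (by linarith only [hE₁1]) hup (pow_le_pow_right₀ (by norm_num) hum)
      calc Ca * (E₁ / 2 ^ m) + Cd * (X / 2 ^ m) ≤ Ca * (W / 2 ^ u) + Cd * (W / 2 ^ u) :=
            add_le_add (mul_le_mul_of_nonneg_left h9 hCa0) (mul_le_mul_of_nonneg_left h10 hCd0)
        _ = _ := by ring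
    exact (add_le_add h1 h2).trans h8
  · -- gradient
    refine le_trans (Pb_mono h.ok.isLaw ?_) hPb
    intro ω hω hbad hG
    refine hbad ?_
    obtain ⟨R, hR, hYR, hGω⟩ := hGR ω hω
    obtain ⟨R', hR', hGR', hb, hTR⟩ := hrep ω hω hG
    intro b hb1 i
    have hcB : D.c (k + B) R' = D.c (k + B) ω := (Prod.ext_iff.1 hb).1
    have hYR' : ∀ i, |D.Y J ω i - D.Y J R' i| ≤ 1 / 2 ^ (e + m) := by
      rw [← hvB]
      exact Y_cell (Prod.ext_iff.1 hb).2
    set v0 := w₀ + k * z with hv0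
    have hv0p : (0 : ℝ) < 2 ^ v0 := by positivity
    have hb2 : ∀ i, |b i - D.Y J ω i| ≤ 1 / 2 ^ (u + z) * (1 / 2 ^ v0) := by
      intro i
      refine (hb1 i).trans (le_of_eq ?_)
      rw [hvU, add_assoc v0 u z, pow_add _ v0 (u + z)]
      field_simp
    have hε : 1 / (2 : ℝ) ^ (u + z) ≤ 1 := by
      rw [div_le_one (by positivity)]
      exact one_le_pow₀ (by norm_num)
    have hε2 : 1 / (2 : ℝ) ^ (u + z) ≤ 1 / 2 ^ u := by
      rw [div_le_div_iff₀ (by positivity) hup, one_mul, one_mul]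
      exact pow_le_pow_right₀ (by norm_num) (by omega)
    have hκz : Real.exp (κ * z) ≤ Real.exp (1 * z) :=
      Real.exp_le_exp.2 (mul_le_mul_of_nonneg_right (by linarith only [h, h.κ1]) hz0)
    -- the sheet
    have g1 : |MvPolynomial.eval b (MvPolynomial.pderiv i (D.F k (D.c k ω))) -
        MvPolynomial.eval (D.Y J ω) (MvPolynomial.pderiv i (D.F k (D.c k ω)))| ≤
        Cv * W * Real.exp (1 * z) / 2 ^ u := by
      have h1 := hCv (MvPolynomial.pderiv i (D.F k (D.c k ω))) (D.Y J ω) b (1 / 2 ^ v0)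
        (Real.exp (κ * z)) (1 / 2 ^ (u + z))
        ((Pool.Agent.H50.PW.totalDegree_pderiv_le _ i).trans (h.ok.F_deg _ _)) (by positivity) hε
        (fun b hb => h.ok.F_grad k hkM ω hω b hb i) hb2
      refine h1.trans ?_
      calc Cv * (1 / 2 ^ (u + z)) * Real.exp (κ * z) ≤ Cv * (1 / 2 ^ u) * Real.exp (1 * z) :=
            mul_le_mul (mul_le_mul_of_nonneg_left hε2 hCv0) hκz (by positivity) (by positivity)
        _ = Cv * 1 * Real.exp (1 * z) / 2 ^ u := by ring
        _ ≤ Cv * W * Real.exp (1 * z) / 2 ^ u :=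
            div_le_div_of_nonneg_right (mul_le_mul_of_nonneg_right
              (mul_le_mul_of_nonneg_left hW1 hCv0) (Real.exp_pos _).le) hup.le
    -- the Taylor polynomial
    have hg0 : (2 : ℝ) ^ v0 / 2 ^ D.g k ≤ Real.exp (1 * z) := by
      have h1 := pow_le_exp (h.ok.g_ge k hkM) (mul_nonneg h.κ0 hz0)
      rw [div_le_iff₀ (by positivity)]
      exact h1.trans (mul_le_mul_of_nonneg_right hκz (by positivity))
    have g2 : |MvPolynomial.eval b (MvPolynomial.pderiv i (TB (bk ω))) -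
        MvPolynomial.eval (D.Y J ω) (MvPolynomial.pderiv i (TB (bk ω)))| ≤
        Cg * Cb * W * Real.exp (1 * z) / 2 ^ u := by
      have h1 := hCg (TB (bk ω)) (D.Y J ω) b (1 / 2 ^ v0) (Cb * (Real.exp (C₂ * z) / 2 ^ D.g k))
        (1 / 2 ^ (u + z)) (hTBd _) (by positivity) hε (fun b hb => by
          rw [hTR]
          refine hCb j (dF D k B R') (D.Y J R') b (1 / 2 ^ v0) (Real.exp (C₂ * z) / 2 ^ D.g k)
            (by have := h.jK; omega) (by positivity) (by positivity)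
            (fun i hi => h.jt_lo hGR' hi le_rfl) fun i => ?_
          have h2 : 1 / (2 : ℝ) ^ (e + m) ≤ 1 / 2 ^ v0 := by
            rw [div_le_div_iff₀ (by positivity) hv0p, one_mul, one_mul]
            exact pow_le_pow_right₀ (by norm_num) (by omega)
          have h3 := abs_sub_le (b i) (D.Y J ω i) (D.Y J R' i)
          linarith only [h2, h3, hb, hYR', hb i, hYR' i]) hb2 i
      refine h1.trans ?_
      have h2 : Real.exp (C₂ * z) ≤ W := by
        have : Real.exp (C₂ * z) ≤ E₁ :=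
          Real.exp_le_exp.2 (mul_le_mul_of_nonneg_right (by linarith only [hC1]) hz0)
        linarith only [hX0, this]
      calc Cg * (1 / 2 ^ (u + z)) * (Cb * (Real.exp (C₂ * z) / 2 ^ D.g k)) / (1 / 2 ^ v0) =
          Cg * Cb * (1 / 2 ^ (u + z)) * Real.exp (C₂ * z) * (2 ^ v0 / 2 ^ D.g k) := by
            field_simp
        _ ≤ Cg * Cb * (1 / 2 ^ u) * W * Real.exp (1 * z) := by
            refine mul_le_mul (mul_le_mul (mul_le_mul_of_nonneg_left hε2 (by positivity)) h2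
              (Real.exp_pos _).le (by positivity)) hg0 (by positivity) (by positivity)
        _ = _ := by ring
    -- the potential
    have g3 : |MvPolynomial.eval b (MvPolynomial.pderiv i (HA D J e μ (Hf (bk ω)) R)) -
        MvPolynomial.eval (D.Y J ω) (MvPolynomial.pderiv i (HA D J e μ (Hf (bk ω)) R))| ≤
        Cf * W * Real.exp (1 * z) / 2 ^ u := by
      have hem : 1 / (2 : ℝ) ^ (e + m) ≤ 1 / 2 ^ e := by
        rw [div_le_div_iff₀ (by positivity) hep, one_mul, one_mul]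
        exact pow_le_pow_right₀ (by norm_num) (by omega)
      have hez : 1 / (2 : ℝ) ^ (e + z) ≤ 1 / 2 ^ e := by
        rw [div_le_div_iff₀ (by positivity) hep, one_mul, one_mul]
        exact pow_le_pow_right₀ (by norm_num) (by omega)
      have ha : ∀ b' : Fin n → ℝ, (∀ i, |b' i - D.Y J ω i| ≤ 1 / 2 ^ e) → ∀ i,
          |2 ^ e * (b' i - D.Y J R i)| ≤ 3 := by
        intro b' hb' i
        rw [abs_mul, abs_of_pos hep]
        have h3 := abs_sub_le (b' i) (D.Y J ω i) (D.Y J R i)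
        have h4 := hYR i
        rw [abs_sub_comm] at h4
        have h5 : |b' i - D.Y J R i| ≤ 2 * (1 / 2 ^ e) := by linarith only [hem, h3, h4, hb', hb' i]
        calc (2 : ℝ) ^ e * |b' i - D.Y J R i| ≤ 2 ^ e * (2 * (1 / 2 ^ e)) :=
              mul_le_mul_of_nonneg_left h5 hep.le
          _ = 2 := by field_simp
          _ ≤ 3 := by norm_num
      have h1 := hCf j (Hf (bk ω)) X (fun i => 2 ^ e * (b i - D.Y J R i))
        (fun i => 2 ^ e * (D.Y J ω i - D.Y J R i)) i h.jK (hHf _) (hHX _)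
        (ha b fun i => by
          refine (hb1 i).trans ?_
          rw [hvU]
          exact hez)
        (ha (D.Y J ω) fun i => by
          rw [sub_self, abs_zero]
          positivity)
      rw [HA_grad, HA_grad]
      have e1 : 1 / μ * (2 ^ e * MvPolynomial.eval (fun i => 2 ^ e * (b i - D.Y J R i))
          (MvPolynomial.pderiv i (Hf (bk ω)))) -
          1 / μ * (2 ^ e * MvPolynomial.eval (fun i => 2 ^ e * (D.Y J ω i - D.Y J R i))
          (MvPolynomial.pderiv i (Hf (bk ω)))) =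
          2 ^ e / μ * (MvPolynomial.eval (fun i => 2 ^ e * (b i - D.Y J R i))
          (MvPolynomial.pderiv i (Hf (bk ω))) -
          MvPolynomial.eval (fun i => 2 ^ e * (D.Y J ω i - D.Y J R i))
          (MvPolynomial.pderiv i (Hf (bk ω)))) := by
        field_simp
      rw [e1]
      rcases Nat.lt_or_ge 1 j with hj2 | hj2
      · rw [abs_mul, abs_of_pos (by positivity)]
        have h2 : (2 : ℝ) ^ e / μ ≤ Real.exp (1 * z) / 2 ^ u := by
          have e3 : (2 : ℝ) ^ e = 2 ^ v0 * 2 ^ u := by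
            rw [← pow_add]
          rw [hμ, e3, pow_add _ (D.g k) (j * u)]
          have h3 : (2 : ℝ) ^ (2 * u) ≤ 2 ^ (j * u) :=
            pow_le_pow_right₀ (by norm_num) (Nat.mul_le_mul_right u hj2)
          rw [div_le_iff₀ (by positivity)] at hg0
          rw [div_le_div_iff₀ (by positivity) hup]
          calc (2 : ℝ) ^ v0 * 2 ^ u * 2 ^ u = 2 ^ v0 * 2 ^ (2 * u) := by
                rw [two_mul, pow_add]
                ring
            _ ≤ Real.exp (1 * z) * 2 ^ D.g k * 2 ^ (j * u) :=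
                mul_le_mul hg0 h3 (by positivity) (by positivity)
            _ = _ := by ring
        calc (2 : ℝ) ^ e / μ * _ ≤ Real.exp (1 * z) / 2 ^ u * (Cf * X) :=
              mul_le_mul h2 h1.2 (abs_nonneg _) (by positivity)
          _ = Cf * X * Real.exp (1 * z) / 2 ^ u := by ring
          _ ≤ Cf * W * Real.exp (1 * z) / 2 ^ u :=
              div_le_div_of_nonneg_right (mul_le_mul_of_nonneg_right
                (mul_le_mul_of_nonneg_left (by linarith only [hE₁1]) hCf0) (Real.exp_pos _).le) hup.le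
      · rw [h1.1 hj2, mul_zero, abs_zero]
        positivity
    rw [hGω, map_add, map_add, map_add, map_add, map_add, map_add]
    have hsum : Cv * W * Real.exp (1 * z) / 2 ^ u + Cg * Cb * W * Real.exp (1 * z) / 2 ^ u +
        Cf * W * Real.exp (1 * z) / 2 ^ u ≤ 1 / 8 := by
      refine le_trans (le_of_eq ?_) hgrad
      ring
    rw [abs_le] at g1 g2 g3 ⊢
    constructor
    · linarith only [g1, g2, g3, hsum, g1.1, g2.1, g3.1]
    · linarith only [g1, g2, g3, hsum, g1.2, g2.2, g3.2]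
  · -- conservation
    rw [P2_tg h.ok.isLaw] at hP2
    refine le_trans (P2_mono h.ok.isLaw _ ?_) hP2
    intro ω ω' hω hω' hwn hbad hgood
    refine hbad ?_
    intro b hb1
    obtain ⟨R, hR, hYR, hGω⟩ := hGR ω hω
    obtain ⟨R', hR', hYR', hGω'⟩ := hGR ω' hω'
    have hcU : D.c (k + U) ω = D.c (k + U) ω' := h.ok.c_wn (k + U) hkU ω ω' hω hω' hwn
    have hck : D.c k ω = D.c k ω' := h.cUk ω ω' hω hω' hcU
    set x : Fin n → ℝ := fun l => 2 ^ e * (b l - D.y₀ (k + U) (D.c (k + U) ω) l) with hx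
    have hxb : (fun l => D.y₀ (k + U) (D.c (k + U) ω) l + 1 / 2 ^ e * x l) = b := by
      funext l
      rw [hx]
      field_simp
      ring
    have hez : 1 / (2 : ℝ) ^ (e + z) ≤ 1 / 2 ^ e := by
      rw [div_le_div_iff₀ (by positivity) hep, one_mul, one_mul]
      exact pow_le_pow_right₀ (by norm_num) (by omega)
    have hxle : ∀ i, |x i| ≤ 2 := by
      intro i
      have h1 := h.Y_le hω i
      have e1 : x i = 2 ^ e * (b i - D.Y J ω i) +
          2 ^ e * (D.Y J ω i - D.y₀ (k + U) (D.c (k + U) ω) i) := by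
        rw [hx]
        ring
      have h2 : |2 ^ e * (b i - D.Y J ω i)| ≤ 1 := by
        rw [abs_mul, abs_of_pos hep]
        have h3 := hb1 i
        rw [hvU] at h3
        calc (2 : ℝ) ^ e * |b i - D.Y J ω i| ≤ 2 ^ e * (1 / 2 ^ e) :=
              mul_le_mul_of_nonneg_left (h3.trans hez) hep.le
          _ = 1 := by field_simp
      rw [e1]
      exact (abs_add_le _ _).trans (by linarith only [h1, h2])
    have h1 := hgood x fun i => (hxle i).trans hC₀
    rw [hTB ω hω, hTB ω' hω', ← hcU, hxb] at h1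
    have hpot : ∀ ω₁ : D.Ω, 0 < q ω₁ → D.c (k + U) ω = D.c (k + U) ω₁ → ∀ R₁ : D.Ω,
        (∀ i, |D.Y J R₁ i - D.Y J ω₁ i| ≤ 1 / 2 ^ (e + m)) →
        |MvPolynomial.eval (fun i => 2 ^ e * (b i - D.Y J R₁ i)) (Hf (bk ω₁)) -
          MvPolynomial.eval (fun i => x i - YC D J k U e q ω₁ i) (Hf (bk ω₁))| ≤
          Cl * (1 / 2 ^ m) * X := by
      intro ω₁ hω₁ hc₁ R₁ hR₁
      have h2 := h.Y_le hω₁
      rw [← hc₁] at h2
      have hd : ∀ i, |2 ^ e * (b i - D.Y J R₁ i) - (x i - YC D J k U e q ω₁ i)| ≤ 1 / 2 ^ m := by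
        intro i
        rw [YC_pos hω₁]
        have e1 : 2 ^ e * (b i - D.Y J R₁ i) - (x i - Yc D J k U e ω₁ i) =
            -(2 ^ e * (D.Y J R₁ i - D.Y J ω₁ i)) := by
          rw [hx]
          unfold Yc
          rw [← hc₁]
          ring
        rw [e1, abs_neg, abs_mul, abs_of_pos hep]
        calc (2 : ℝ) ^ e * |D.Y J R₁ i - D.Y J ω₁ i| ≤ 2 ^ e * (1 / 2 ^ (e + m)) :=
              mul_le_mul_of_nonneg_left (hR₁ i) hep.le
          _ = 1 / 2 ^ m := by
            rw [pow_add _ e m]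
            field_simp
      have hv : ∀ i, |x i - YC D J k U e q ω₁ i| ≤ 3 := by
        intro i
        rw [YC_pos hω₁]
        have h3 : |Yc D J k U e ω₁ i| ≤ 1 := by
          unfold Yc
          rw [← hc₁]
          exact h2 i
        exact (abs_sub _ _).trans (by linarith only [h3, hxle, hxle i])
      have hm1 : 1 / (2 : ℝ) ^ m ≤ 1 := by
        rw [div_le_one hmp]
        exact one_le_pow₀ (by norm_num)
      have hv' : ∀ i, |2 ^ e * (b i - D.Y J R₁ i)| ≤ 4 := by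
        intro i
        have h4 := abs_sub_abs_le_abs_sub (2 ^ e * (b i - D.Y J R₁ i))
          (x i - YC D J k U e q ω₁ i)
        linarith only [hm1, h4, hd, hv, hd i, hv i]
      exact hCl (Hf (bk ω₁)) X (1 / 2 ^ m) (fun i => x i - YC D J k U e q ω₁ i)
        (fun i => 2 ^ e * (b i - D.Y J R₁ i)) ((hHf _).totalDegree_le.trans h.jK) (hHX _)
        (fun i => (hv i).trans (by norm_num)) hv' hd
    have p1 := hpot ω hω rfl R hYR
    have p2 := hpot ω' hω' hcU R' hYR'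
    refine hfin _ (1 + 2 * Cl) (by positivity) (by linarith) ?_
    rw [hGω, hGω', map_add, map_add, map_add, map_add, HA_eval, HA_eval, ← hck]
    have e1 : μ * |MvPolynomial.eval b (D.F k (D.c k ω)) + MvPolynomial.eval b (TB (bk ω')) +
        1 / μ * MvPolynomial.eval (fun i => 2 ^ e * (b i - D.Y J R' i)) (Hf (bk ω')) -
        (MvPolynomial.eval b (D.F k (D.c k ω)) + MvPolynomial.eval b (TB (bk ω)) +
        1 / μ * MvPolynomial.eval (fun i => 2 ^ e * (b i - D.Y J R i)) (Hf (bk ω)))| =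
        |μ * MvPolynomial.eval b (TB (bk ω')) +
          MvPolynomial.eval (fun i => 2 ^ e * (b i - D.Y J R' i)) (Hf (bk ω')) -
        (μ * MvPolynomial.eval b (TB (bk ω)) +
          MvPolynomial.eval (fun i => 2 ^ e * (b i - D.Y J R i)) (Hf (bk ω)))| := by
      rw [← abs_of_pos hμ0, ← abs_mul, abs_of_pos hμ0]
      congr 1
      field_simp
      ring
    rw [e1]
    have n1 : Cl * (1 / 2 ^ m) * X ≤ Cl * (W / 2 ^ u) := by
      have h10 : X / 2 ^ m ≤ W / 2 ^ u :=
        div_le_div₀ (by linarith only [hX0, hE₁1]) (by linarith only [hE₁1]) hup (pow_le_pow_right₀ (by norm_num) hum)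
      calc Cl * (1 / 2 ^ m) * X = Cl * (X / 2 ^ m) := by ring
        _ ≤ _ := mul_le_mul_of_nonneg_left h10 hCl0
    have n2 : X / 2 ^ u ≤ W / 2 ^ u := div_le_div_of_nonneg_right (by linarith only [hE₁1]) hup.le
    have n3 : (1 + 2 * Cl) * W / 2 ^ u = W / 2 ^ u + Cl * (W / 2 ^ u) + Cl * (W / 2 ^ u) := by ring
    rw [n3]
    rw [abs_le] at h1 p1 p2 ⊢
    constructor
    · linarith only [h1, p1, p2, n1, n2, h1.1, p1.2, p2.1]
    · linarith only [h1, p1, p2, n1, n2, h1.2, p1.1, p2.2]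

end Cx

end Pool.BFL.Cnl
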