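import Pool.Agent.H19.BFL.Stmts2
import Pool.Agent.H90.BFL.Close

/-!
# Row LAB
-/

set_option autoImplicit false

namespace Pool.BFL

open Finset Real
open Pool.Agent.H36.KBX (bx eval_bound)

/-- A form which is small on the unit cube is small on a larger cube. -/
lemma homog_scale {n d : ℕ} {φ : Pl n} (h : φ.IsHomogeneous d) {R e : ℝ} (hR : 1 ≤ R)
    (he : ∀ v : Fin n → ℝ, (∀ i, |v i| ≤ 1) → |MvPolynomial.eval v φ| ≤ e) (v : Fin n → ℝ)
    (hv : ∀ i, |v i| ≤ R) : |MvPolynomial.eval v φ| ≤ R ^ d * e := by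
  have hR0 : 0 < R := by linarith
  have h1 := eval_smul_homog h R (fun i => v i / R)
  have e1 : (fun i => R * (v i / R)) = v := by
    funext i
    field_simp
  rw [e1] at h1
  rw [h1, abs_mul, abs_of_pos (pow_pos hR0 d)]
  refine mul_le_mul_of_nonneg_left (he _ fun i => ?_) (pow_pos hR0 d).le
  rw [abs_div, abs_of_pos hR0, div_le_one hR0]
  exact hv i

theorem lab_thm : LABStmt := by
  intro n j C₀ hj hC₀
  obtain ⟨C, hC1, hC⟩ := closing n j C₀ hC₀
  set M : ℝ := (4 * C₀) ^ (j - 1) with hM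
  have hM1 : 1 ≤ M := one_le_pow₀ (by linarith)
  refine ⟨1 + C * (M + 1), by nlinarith, ?_⟩
  intro y y' E s d r T T' b H H' hy hy' hE hs hd hr hb hH hH' hHr _ hHH hbH hyy _ hT x hx
  have hbig : ∀ v : Fin n → ℝ, (∀ i, |v i| ≤ 4 * C₀) →
      |MvPolynomial.eval v b - MvPolynomial.eval v (dD E H)| ≤ M * d := by
    intro v hv
    have h1 : (b - dD E H).IsHomogeneous (j - 1) := by
      refine hb.sub ?_
      exact dD_homog hH E
    have h2 := homog_scale h1 (R := 4 * C₀) (e := d) (by linarith) (fun u hu => by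
      rw [map_sub, eval_dD]
      exact hbH u hu) v hv
    rwa [map_sub] at h2
  have hHH' : CB (H' - H) (M * d) := by
    intro k
    have h1 := hHH k
    rw [MvPolynomial.coeff_sub, abs_sub_comm, ← MvPolynomial.coeff_sub] at h1
    refine h1.trans ?_
    exact le_mul_of_one_le_left hd hM1
  have h := hC T T' b H H' x y y' E s d (M * d) d r hx hy hy' hE hs (by positivity) hd hH hH' hHr
    hHH' (hT x hx) hbig hyy
  refine h.trans ?_
  have h1 : C * (M * d + r * d) ≤ C * (M + 1) * r * d := by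
    have h2 : M * d ≤ M * (r * d) :=
      mul_le_mul_of_nonneg_left (le_mul_of_one_le_left hd hr) (by linarith)
    have h3 : C * (M * d + r * d) ≤ C * (M * (r * d) + r * d) :=
      mul_le_mul_of_nonneg_left (by linarith) (by linarith)
    refine h3.trans (le_of_eq ?_)
    ring
  have h4 : d ≤ r * d := le_mul_of_one_le_left hd hr
  have e : (1 + C * (M + 1)) * r * d = r * d + C * (M + 1) * r * d := by ring
  rw [e]
  linarith

end Pool.BFL
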