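import Pool.Agent.H90.BFL.Cnl
import Pool.Agent.H34.BFL.MAI
import Pool.Agent.H58.BFL.VEN
import Pool.Agent.H89.BFL.JET
import Pool.Agent.H87.BFL.CMR
import Pool.Agent.H40.BFL.VST
import Pool.Agent.H97.BFL.VCS
import Pool.Agent.H32.BFL.NON

/-!
# Ball frontier lemma for systems: all rows together
-/

set_option autoImplicit false

namespace Pool.BFL.Cnl

theorem jet : JETStmt := Pool.Agent.H89.BFL.jet_thm Pool.BFL.cmr_thm

theorem vst : VSTStmt := Pool.Agent.H40.BFL.vst_thm jet Pool.Agent.H25.BFL.ljt_thm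

theorem ven : VENStmt := Pool.BFL.ven_thm Pool.Agent.H25.BFL.ljt_thm vst jet

theorem cnl : CNLStmt := cnl_thm jet

theorem non : NONStmt := Pool.Agent.H32.BFL.non_thm jet

/-- **The theorem for systems.** -/
theorem mai : MAIStmt := Pool.Agent.H34.BFL.mai_thm ven vcs_thm cnl non

end Pool.BFL.Cnl
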